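import Mathlib
import Pool.Graph.R_seed8.H925R2.Bridge
import Pool.Graph.R_seed8.H925R2.AV

/-!
# The decomposition group acting on the roots of `f`
-/

namespace Pool.Agent.H855

open Polynomial Pool.Agent.H925R2

variable {p : ℕ} [Fact p.Prime]

/-- Automorphisms of an overfield restrict to the splitting field. -/
theorem exists_restrict {F E : Type*} [Field F] [Field E] [Algebra F E] (f : F[X])
    (e : f.SplittingField →ₐ[F] E) (τ : E ≃ₐ[F] E) :
    ∃ σ : f.SplittingField ≃ₐ[F] f.SplittingField, ∀ x, τ (e x) = e (σ x) := by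
  let _ : Algebra f.SplittingField E := e.toRingHom.toAlgebra
  have htower : IsScalarTower F f.SplittingField E :=
    IsScalarTower.of_algebraMap_eq fun x => (e.commutes x).symm
  have hnormal : Normal F f.SplittingField := Normal.of_isSplittingField f
  exact ⟨τ.restrictNormal f.SplittingField,
    fun x => (τ.restrictNormal_commutes f.SplittingField x).symm⟩

section

variable {f : ℚ[X]} (e : f.SplittingField →ₐ[ℚ] PadicAlgCl p)

/-- The decomposition group of the embedding `e` of the splitting field. -/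
def decomp : Subgroup f.Gal where
  carrier := {σ | ∃ τ : PadicAlgCl p ≃ₐ[ℚ_[p]] PadicAlgCl p, ∀ x : f.SplittingField,
    τ (e x) = e ((σ : f.SplittingField ≃ₐ[ℚ] f.SplittingField) x)}
  mul_mem' := by
    rintro σ₁ σ₂ ⟨τ₁, h₁⟩ ⟨τ₂, h₂⟩
    refine ⟨τ₁ * τ₂, fun x => ?_⟩
    have h3 : (τ₁ * τ₂) (e x) = τ₁ (τ₂ (e x)) := rfl
    rw [h3, h₂, h₁]
    rfl
  one_mem' := ⟨1, fun x => rfl⟩
  inv_mem' := by
    rintro σ ⟨τ, h⟩
    refine ⟨τ⁻¹, fun x => ?_⟩
    have h1 := h ((σ⁻¹ : f.Gal) x)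
    have h2 : (σ : f.SplittingField ≃ₐ[ℚ] f.SplittingField) ((σ⁻¹ : f.Gal) x) = x :=
      AlgEquiv.apply_symm_apply (σ : f.SplittingField ≃ₐ[ℚ] f.SplittingField) x
    rw [h2] at h1
    have h3 : τ⁻¹ (e x) = τ.symm (e x) := rfl
    rw [h3, ← h1]
    exact τ.symm_apply_apply _

theorem mem_decomp (σ : f.Gal) : σ ∈ decomp e ↔ ∃ τ : PadicAlgCl p ≃ₐ[ℚ_[p]] PadicAlgCl p,
    ∀ x : f.SplittingField, τ (e x) = e ((σ : f.SplittingField ≃ₐ[ℚ] f.SplittingField) x) :=
  Iff.rfl

/-- Every `ℚ_p`-automorphism restricts to an element of the decomposition group. -/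
theorem exists_mem_decomp (τ : PadicAlgCl p ≃ₐ[ℚ_[p]] PadicAlgCl p) :
    ∃ σ : f.Gal, σ ∈ decomp e ∧ ∀ x : f.SplittingField,
      τ (e x) = e ((σ : f.SplittingField ≃ₐ[ℚ] f.SplittingField) x) := by
  obtain ⟨σ, hσ⟩ := exists_restrict f e (τ.restrictScalars ℚ)
  exact ⟨σ, ⟨τ, hσ⟩, hσ⟩

/-- The minimal polynomial over `ℚ_p` of the embedded root. -/
noncomputable def lmin (x : f.rootSet f.SplittingField) : ℚ_[p][X] := minpoly ℚ_[p] (e x.1)

theorem lmin_smul (σ : f.Gal) (hσ : σ ∈ decomp e) (x : f.rootSet f.SplittingField) :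
    lmin e (σ • x) = lmin e x := by
  obtain ⟨τ, hτ⟩ := hσ
  unfold lmin
  rw [smul_coe]
  have h1 := hτ x.1
  have h2 : minpoly ℚ_[p] (τ (e x.1)) = minpoly ℚ_[p] (e x.1) := minpoly.algEquiv_eq τ (e x.1)
  rw [h1] at h2
  exact h2

theorem exists_decomp_of_lmin (x y : f.rootSet f.SplittingField) (h : lmin e x = lmin e y) :
    ∃ σ ∈ decomp e, σ • x = y := by
  have hn : Normal ℚ_[p] (PadicAlgCl p) := inferInstance
  obtain ⟨τ, hτ⟩ := (Normal.minpoly_eq_iff_mem_orbit (PadicAlgCl p)).1 h.symm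
  obtain ⟨σ, hσ, hσ'⟩ := exists_mem_decomp e τ
  have h1 := hσ' x.1
  have h2 : τ (e x.1) = e y.1 := hτ
  refine ⟨σ, hσ, Subtype.ext (e.injective ?_)⟩
  rw [smul_coe]
  exact h1.symm.trans h2

open Classical in
/-- The local orbit of a root. -/
noncomputable def lorb (x : f.rootSet f.SplittingField) : Finset (f.rootSet f.SplittingField) :=
  Finset.univ.filter (fun y => lmin e y = lmin e x)

theorem mem_lorb (x y : f.rootSet f.SplittingField) : y ∈ lorb e x ↔ lmin e y = lmin e x := by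
  classical
  simp [lorb]

theorem lorb_trans (x y z : f.rootSet f.SplittingField) (hy : y ∈ lorb e x) (hz : z ∈ lorb e x) :
    ∃ σ ∈ decomp e, σ • y = z := by
  rw [mem_lorb] at hy hz
  exact exists_decomp_of_lmin e y z (hy.trans hz.symm)

theorem lorb_stable (x y : f.rootSet f.SplittingField) (σ : f.Gal) (hσ : σ ∈ decomp e)
    (hy : y ∈ lorb e x) : σ • y ∈ lorb e x := by
  rw [mem_lorb] at hy ⊢
  rw [lmin_smul e σ hσ, hy]

theorem card_lorb (hf : Irreducible f) (x : f.rootSet f.SplittingField) :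
    (lorb e x).card = (lmin e x).natDegree := by
  classical
  have hint : IsIntegral ℚ_[p] (e x.1) := Algebra.IsIntegral.isIntegral _
  have hsep : (lmin e x).Separable := (minpoly.irreducible hint).separable
  have hsplit : ((lmin e x).map (algebraMap ℚ_[p] (PadicAlgCl p))).Splits :=
    IsAlgClosed.splits _
  have h1 : Fintype.card ((lmin e x).rootSet (PadicAlgCl p)) = (lmin e x).natDegree :=
    card_rootSet_eq_natDegree hsep hsplit
  rw [← h1, ← Fintype.card_coe]
  refine Fintype.card_congr (Equiv.ofBijective (fun y => ⟨e y.1.1, ?_⟩) ⟨?_, ?_⟩)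
  · rw [mem_rootSet]
    refine ⟨minpoly.ne_zero hint, ?_⟩
    have h2 := (mem_lorb e x y.1).1 y.2
    rw [← h2]
    exact minpoly.aeval _ _
  · intro y z h
    have h3 : e y.1.1 = e z.1.1 := congrArg Subtype.val h
    exact Subtype.ext (Subtype.ext (e.injective h3))
  · rintro ⟨α, hα⟩
    rw [mem_rootSet] at hα
    have h4 : lmin e x = minpoly ℚ_[p] α :=
      minpoly.eq_of_irreducible_of_monic (minpoly.irreducible hint) hα.2 (minpoly.monic hint)
    have h5 : aeval α f = 0 := by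
      have h6 : lmin e x ∣ f.map (algebraMap ℚ ℚ_[p]) := by
        apply minpoly.dvd
        rw [aeval_map_algebraMap, aeval_algHom_apply, (mem_rootSet.1 x.2).2, map_zero]
      have h7 : aeval α (f.map (algebraMap ℚ ℚ_[p])) = 0 := by
        obtain ⟨Q, hQ⟩ := h6
        rw [hQ, map_mul, hα.2, zero_mul]
      rwa [aeval_map_algebraMap] at h7
    obtain ⟨y, hy⟩ := exists_root_eq hf e α h5
    refine ⟨⟨y, ?_⟩, Subtype.ext hy⟩
    rw [mem_lorb, h4, ← hy]
    rfl

/-- The norm of an algebraic number depends only on its minimal polynomial. -/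
theorem norm_eq_of_minpoly (α β : PadicAlgCl p) (h : minpoly ℚ_[p] α = minpoly ℚ_[p] β) :
    ‖α‖ = ‖β‖ := by
  rw [← PadicAlgCl.spectralNorm_eq, ← PadicAlgCl.spectralNorm_eq,
    spectralNorm.spectralNorm_eq_norm_coeff_zero_rpow,
    spectralNorm.spectralNorm_eq_norm_coeff_zero_rpow, h]

theorem dev_eq_of_lmin (q : ℚ) (x y : f.rootSet f.SplittingField) (h : lmin e x = lmin e y) :
    dev p q (e x.1) = dev p q (e y.1) := by
  unfold dev
  rw [norm_eq_of_minpoly _ _ h]

end

end Pool.Agent.H855
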