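import Mathlib

/-!
# The trace of an idempotent rational matrix
-/

namespace Pool.Agent.H855

/-- The trace of an idempotent rational matrix is a natural number. -/
theorem trace_idem {ι : Type*} [Fintype ι] [DecidableEq ι] (M : Matrix ι ι ℚ) (h : M * M = M) :
    ∃ z : ℕ, M.trace = z := by
  have h1 : IsIdempotentElem (Matrix.toLin' M) := by
    rw [IsIdempotentElem, Module.End.mul_eq_comp, ← Matrix.toLin'_mul, h]
  have h2 := LinearMap.IsProj.trace (LinearMap.IsIdempotentElem.isProj_range _ h1)
  refine ⟨Module.finrank ℚ (LinearMap.range (Matrix.toLin' M)), ?_⟩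
  rw [← h2, LinearMap.trace_eq_matrix_trace ℚ (Pi.basisFun ℚ ι), ← Matrix.toLin_eq_toLin',
    LinearMap.toMatrix_toLin]

end Pool.Agent.H855
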