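import Mathlib
import Pool.Graph.R_seed8.H925R2.TwoTrans

/-!
# The two-graph of a nontrivial relation, with its quadratic equation

This repeats the construction of `Pool.Agent.H925R2.twograph`, recording in addition that the
matrix is symmetric and satisfies a quadratic equation.
-/

namespace Pool.Agent.H855

open Pool.Agent.H925R2

section twotrans

variable {R : Type*} [Fintype R] [DecidableEq R] {inv : R → R}
variable {G : Type*} [Group G] [Fintype G] [MulAction G R]

/-- The two-graph structure forced by a nontrivial relation in the doubly transitive case. -/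
theorem twograph2 [MulAction.IsPretransitive G R]
    (hinv : ∀ x, inv (inv x) = x) (hne : ∀ x, inv x ≠ x)
    (hG : ∀ (g : G) (x : R), g • inv x = inv (g • x))
    (h2 : ∀ x y x' y' : R, y ≠ x → y ≠ inv x → y' ≠ x' → y' ≠ inv x' →
      ∃ g : G, (g • x = x' ∨ g • x = inv x') ∧ (g • y = y' ∨ g • y = inv y'))
    (n : ℕ) (hcard : Fintype.card R = 2 * n)
    (c w : R → ℤ) (hc : ∀ x, c (inv x) = -c x) (hw : ∀ x, w (inv x) = -w x)
    (hc0 : ∃ x, c x ≠ 0) (hw0 : ∃ x, w x ≠ 0)
    (hrel : ∀ g : G, ∑ x, c x * w (g • x) = 0) :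
    ∃ (C : R → R → ℤ) (a a' : ℤ), 0 < a ∧ 0 < a' ∧ a * a' = (n : ℤ) - 1 ∧
      (∀ x y, y = x ∨ y = inv x → C x y = 0) ∧
      (∀ x y, y ≠ x → y ≠ inv x → C x y = 1 ∨ C x y = -1) ∧
      (∀ (g : G) x y, C (g • x) (g • y) = C x y) ∧
      (∀ x y, C x (inv y) = -C x y) ∧
      (∀ x, ∑ y, C x y * w y = -2 * a * w x) ∧
      (∀ x, ∑ y, C x y * c y = 2 * a' * c x) ∧
      (∀ x y, C x y = C y x) ∧
      (∀ x z, ∑ y, C x y * C z y = 2 * (a' - a) * C x z +
        (if z = x then 2 * (a * a') else 0) + (if z = inv x then -(2 * (a * a')) else 0)) := by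
  classical
  obtain ⟨x₁, hx₁⟩ := hc0
  set A := gram G c x₁ x₁ with hA
  set A' := gram G w x₁ x₁ with hA'
  have hApos : 0 < A := gram_diag_pos c ⟨x₁, hx₁⟩ x₁
  have hA'pos : 0 < A' := gram_diag_pos w hw0 x₁
  -- an off-diagonal pair with positive kernel value
  have hoff : ∃ y, y ≠ x₁ ∧ y ≠ inv x₁ ∧ gram G c x₁ y ≠ 0 := by
    by_contra hno
    push Not at hno
    have h3 := gram_mul_gram c w hrel x₁ x₁
    have h4 : ∀ y, gram G c x₁ y * gram G w y x₁ =
        (if y = x₁ then A * A' else 0) + (if y = inv x₁ then A * A' else 0) := by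
      intro y
      by_cases h5 : y = x₁
      · subst h5
        simp [(hne y).symm, hA, hA']
      · by_cases h6 : y = inv x₁
        · subst h6
          rw [gram_inv_right hG c hc, gram_inv_left hG w hw]
          simp [hne x₁, hA, hA']
        · simp [h5, h6, hno y h5 h6]
    rw [Finset.sum_congr rfl fun y _ => h4 y, Finset.sum_add_distrib, Finset.sum_ite_eq',
      Finset.sum_ite_eq'] at h3
    simp only [Finset.mem_univ, if_true] at h3
    have : 0 < A * A' := mul_pos hApos hA'pos
    omega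
  obtain ⟨y₁, hy1, hy1', hB⟩ : ∃ y, y ≠ x₁ ∧ y ≠ inv x₁ ∧ 0 < gram G c x₁ y := by
    obtain ⟨y, h3, h4, h5⟩ := hoff
    rcases lt_or_gt_of_ne h5 with h | h
    · refine ⟨inv y, fun h' => h4 ?_, fun h' => h3 ?_, ?_⟩
      · rw [← h', hinv]
      · have := congrArg inv h'
        rwa [hinv, hinv] at this
      · rw [gram_inv_right hG c hc]; omega
    · exact ⟨y, h3, h4, h⟩
  set B := gram G c x₁ y₁ with hBdef
  set B₀ := gram G w x₁ y₁ with hB0def
  -- off-diagonal values
  have hs : ∀ x y, y ≠ x → y ≠ inv x → ∃ s : ℤ, (s = 1 ∨ s = -1) ∧ gram G c x y = B * s ∧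
      gram G w x y = B₀ * s := by
    intro x y h3 h4
    obtain ⟨g, hgx, hgy⟩ := h2 x₁ y₁ x y hy1 hy1' h3 h4
    have hcg := gram_smul (G := G) c g x₁ y₁
    have hwg := gram_smul (G := G) w g x₁ y₁
    rcases hgx with hgx | hgx <;> rcases hgy with hgy | hgy
    · rw [hgx, hgy] at hcg hwg
      exact ⟨1, Or.inl rfl, by rw [hcg, mul_one], by rw [hwg, mul_one]⟩
    · rw [hgx, hgy, gram_inv_right hG c hc] at hcg
      rw [hgx, hgy, gram_inv_right hG w hw] at hwg
      exact ⟨-1, Or.inr rfl, by rw [hBdef, ← hcg]; ring, by rw [hB0def, ← hwg]; ring⟩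
    · rw [hgx, hgy, gram_inv_left hG c hc] at hcg
      rw [hgx, hgy, gram_inv_left hG w hw] at hwg
      exact ⟨-1, Or.inr rfl, by rw [hBdef, ← hcg]; ring, by rw [hB0def, ← hwg]; ring⟩
    · rw [hgx, hgy, gram_inv_left hG c hc, gram_inv_right hG c hc] at hcg
      rw [hgx, hgy, gram_inv_left hG w hw, gram_inv_right hG w hw] at hwg
      exact ⟨1, Or.inl rfl, by rw [hBdef, ← hcg]; ring, by rw [hB0def, ← hwg]; ring⟩
  let C : R → R → ℤ := fun x y => if y = x ∨ y = inv x then 0 else gram G c x y / B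
  have hC0 : ∀ x y, y = x ∨ y = inv x → C x y = 0 := fun x y h => if_pos h
  have hCs : ∀ x y, y ≠ x → y ≠ inv x → (C x y = 1 ∨ C x y = -1) ∧ gram G c x y = B * C x y ∧
      gram G w x y = B₀ * C x y := by
    intro x y h3 h4
    obtain ⟨s, hs1, hs2, hs3⟩ := hs x y h3 h4
    have h5 : C x y = s := by
      change (if y = x ∨ y = inv x then 0 else gram G c x y / B) = s
      rw [if_neg (by tauto), hs2]
      exact Int.mul_ediv_cancel_left _ hB.ne'
    rw [h5]
    exact ⟨hs1, hs2, hs3⟩
  have hgc : ∀ x y, gram G c x y = B * C x y + (if y = x then A else 0) +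
      (if y = inv x then -A else 0) := by
    intro x y
    by_cases h5 : y = x
    · subst h5
      rw [hC0 y y (Or.inl rfl), if_pos rfl, if_neg (hne y).symm, gram_diag c y x₁]
      ring
    · by_cases h6 : y = inv x
      · rw [hC0 x y (Or.inr h6), if_neg h5, if_pos h6, h6, gram_inv_right hG c hc,
          gram_diag c x x₁]
        ring
      · rw [if_neg h5, if_neg h6, (hCs x y h5 h6).2.1]
        ring
  have hgw : ∀ x y, gram G w x y = B₀ * C x y + (if y = x then A' else 0) +
      (if y = inv x then -A' else 0) := by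
    intro x y
    by_cases h5 : y = x
    · subst h5
      rw [hC0 y y (Or.inl rfl), if_pos rfl, if_neg (hne y).symm, gram_diag w y x₁]
      ring
    · by_cases h6 : y = inv x
      · rw [hC0 x y (Or.inr h6), if_neg h5, if_pos h6, h6, gram_inv_right hG w hw,
          gram_diag w x x₁]
        ring
      · rw [if_neg h5, if_neg h6, (hCs x y h5 h6).2.2]
        ring
  have hCinv : ∀ x y, C x (inv y) = -C x y := by
    intro x y
    by_cases h5 : y = x
    · rw [hC0 x y (Or.inl h5), hC0 x (inv y) (Or.inr (by rw [h5]))]; rfl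
    · by_cases h6 : y = inv x
      · rw [hC0 x y (Or.inr h6), hC0 x (inv y) (Or.inl (by rw [h6, hinv]))]; rfl
      · have h7 : inv y ≠ x := fun h => h6 (by rw [← h, hinv])
        have h8 : inv y ≠ inv x := fun h => h5 (by
          have := congrArg inv h
          rwa [hinv, hinv] at this)
        have h9 := (hCs x (inv y) h7 h8).2.1
        rw [gram_inv_right hG c hc, (hCs x y h5 h6).2.1] at h9
        apply mul_left_cancel₀ hB.ne'
        rw [← h9]; ring
  have hCsmul : ∀ (g : G) x y, C (g • x) (g • y) = C x y := by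
    intro g x y
    by_cases h5 : y = x
    · rw [hC0 x y (Or.inl h5), hC0 _ _ (Or.inl (by rw [h5]))]
    · by_cases h6 : y = inv x
      · rw [hC0 x y (Or.inr h6), hC0 _ _ (Or.inr (by rw [h6, hG]))]
      · have h7 : g • y ≠ g • x := fun h => h5 (smul_left_cancel g h)
        have h8 : g • y ≠ inv (g • x) := fun h => h6 (by
          rw [← hG] at h
          exact smul_left_cancel g h)
        have h9 := (hCs (g • x) (g • y) h7 h8).2.1
        rw [gram_smul, (hCs x y h5 h6).2.1] at h9
        exact (mul_left_cancel₀ hB.ne' h9).symm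
  have hCsymm : ∀ x y, C x y = C y x := by
    intro x y
    by_cases h5 : y = x
    · rw [h5]
    · by_cases h6 : y = inv x
      · rw [hC0 x y (Or.inr h6), hC0 y x (Or.inr (by rw [h6, hinv]))]
      · have h7 : x ≠ y := fun h => h5 h.symm
        have h8 : x ≠ inv y := fun h => h6 (by rw [h, hinv])
        have h9 := (hCs x y h5 h6).2.1
        rw [gram_comm, (hCs y x h7 h8).2.1] at h9
        exact (mul_left_cancel₀ hB.ne' h9).symm
  -- eigenvector equations
  have hCw : ∀ x, B * ∑ y, C x y * w y + 2 * A * w x = 0 := by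
    intro x
    have h3 := gram_mul_right c w hrel x 1
    simp only [one_smul, hgc, add_mul, Finset.sum_add_distrib, ite_mul, zero_mul,
      Finset.sum_ite_eq', Finset.mem_univ, if_true, hw, mul_assoc] at h3
    rw [← Finset.mul_sum] at h3
    linarith
  have hCc : ∀ x, B₀ * ∑ y, C x y * c y + 2 * A' * c x = 0 := by
    intro x
    have h3 := gram_mul_left c w hrel x
    simp only [hgw, add_mul, Finset.sum_add_distrib, ite_mul, zero_mul,
      Finset.sum_ite_eq', Finset.mem_univ, if_true, hc, mul_assoc] at h3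
    rw [← Finset.mul_sum] at h3
    linarith
  have hCC : ∀ x z, B * B₀ * ∑ y, C x y * C z y + 2 * A' * B * C x z + 2 * A * gram G w x z = 0 := by
    intro x z
    have h3 := gram_mul_gram c w hrel x z
    have h4 : ∀ y, gram G c x y * gram G w y z =
        B * B₀ * (C x y * C z y) + (if y = z then B * C x y * A' else 0) +
        (if y = inv z then -(B * C x y * A') else 0) +
        (if y = x then A * gram G w y z else 0) + (if y = inv x then - (A * gram G w y z) else 0) := by
      intro y
      have h5 : gram G w y z = B₀ * C z y + (if y = z then A' else 0) +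
        (if y = inv z then -A' else 0) := by rw [gram_comm, hgw z y]
      conv_lhs => rw [hgc x y]
      have h6 : (B * C x y + (if y = x then A else 0) + (if y = inv x then -A else 0)) *
          gram G w y z = B * C x y * gram G w y z + (if y = x then A * gram G w y z else 0) +
            (if y = inv x then - (A * gram G w y z) else 0) := by
        split_ifs <;> ring
      rw [h6]
      congr 2
      rw [h5]
      split_ifs <;> ring
    rw [Finset.sum_congr rfl fun y _ => h4 y] at h3
    simp only [Finset.sum_add_distrib, Finset.sum_ite_eq', Finset.mem_univ, if_true,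
      ← Finset.mul_sum, hCinv, gram_inv_left hG w hw] at h3
    linarith
  -- half sums
  obtain ⟨Φ, hΦ⟩ := exists_isHalf hinv hne
  have hΦcard : Φ.card = n := by
    have := hΦ.card hinv
    omega
  -- diagonal relation : A A' = (n-1) B (-B₀)
  have hdiag : A * A' = ((n : ℤ) - 1) * (B * (-B₀)) := by
    have h3 := hCC x₁ x₁
    rw [hC0 x₁ x₁ (Or.inl rfl), mul_zero, add_zero] at h3
    have h4 : ∑ y, C x₁ y * C x₁ y = 2 * ((n : ℤ) - 1) := by
      have h5 : ∀ y, C x₁ y * C x₁ y = 1 - (if y = x₁ then 1 else 0) - (if y = inv x₁ then 1 else 0) := by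
        intro y
        by_cases h5 : y = x₁
        · rw [hC0 x₁ y (Or.inl h5), if_pos h5, if_neg (by rw [h5]; exact (hne x₁).symm)]; ring
        · by_cases h6 : y = inv x₁
          · rw [hC0 x₁ y (Or.inr h6), if_neg h5, if_pos h6]; ring
          · rw [if_neg h5, if_neg h6]
            rcases (hCs x₁ y h5 h6).1 with h | h <;> rw [h] <;> ring
      rw [Finset.sum_congr rfl fun y _ => h5 y]
      simp only [Finset.sum_sub_distrib, Finset.sum_ite_eq', Finset.mem_univ, if_true,
        Finset.sum_const, Finset.card_univ, hcard, nsmul_eq_mul, mul_one]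
      push_cast
      ring
    rw [h4, ← hA'] at h3
    linarith
  have hB0neg : B₀ < 0 := by
    by_contra h
    push Not at h
    have h3 : 0 < A * A' := mul_pos hApos hA'pos
    have h4 : (0 : ℤ) ≤ (n : ℤ) - 1 := by
      have : 0 < n := by
        rw [← hΦcard, Finset.card_pos]
        by_cases hx : x₁ ∈ Φ
        · exact ⟨_, hx⟩
        · rw [hΦ x₁, not_not] at hx
          exact ⟨_, hx⟩
      omega
    have h5 : ((n : ℤ) - 1) * (B * (-B₀)) ≤ 0 :=
      mul_nonpos_of_nonneg_of_nonpos h4 (mul_nonpos_of_nonneg_of_nonpos hB.le (by omega))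
    omega
  -- integrality
  obtain ⟨N, hN⟩ : ∃ N : ℤ, A' * B - A * (-B₀) = N * (B * (-B₀)) := by
    have h3 := hCC x₁ y₁
    have h4 := hΦ.sum_symm hinv (fun y => C x₁ y * C y₁ y) (fun y => by
      simp only [hCinv]; ring)
    rw [h4, (hCs x₁ y₁ hy1 hy1').2.2] at h3
    have h5 : C x₁ y₁ * C x₁ y₁ = 1 := by
      rcases (hCs x₁ y₁ hy1 hy1').1 with h | h <;> rw [h] <;> ring
    refine ⟨(∑ y ∈ Φ, C x₁ y * C y₁ y) * C x₁ y₁, ?_⟩
    have h6 : (A' * B + A * B₀) * C x₁ y₁ = (∑ y ∈ Φ, C x₁ y * C y₁ y) * (B * (-B₀)) := by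
      linarith
    have h7 : (A' * B + A * B₀) * C x₁ y₁ * C x₁ y₁ = (∑ y ∈ Φ, C x₁ y * C y₁ y) * (B * (-B₀)) *
        C x₁ y₁ := by rw [h6]
    rw [mul_assoc (A' * B + A * B₀), h5] at h7
    linarith
  have hBB : 0 < -B₀ := by omega
  have hdvd1 : B ∣ A := by
    apply dvd_of_quadratic A B ((n : ℤ) - 1) (-N) hB.ne'
    have h3 : A ^ 2 * (-B₀) = (((n : ℤ) - 1) * B ^ 2 + -N * A * B) * (-B₀) := by
      linear_combination B * hdiag - A * hN
    exact mul_right_cancel₀ hBB.ne' h3
  have hdvd2 : -B₀ ∣ A' := by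
    apply dvd_of_quadratic A' (-B₀) ((n : ℤ) - 1) N hBB.ne'
    have h3 : A' ^ 2 * B = (((n : ℤ) - 1) * (-B₀) ^ 2 + N * A' * (-B₀)) * B := by
      linear_combination (-B₀) * hdiag + A' * hN
    exact mul_right_cancel₀ hB.ne' h3
  obtain ⟨a, ha⟩ := hdvd1
  obtain ⟨a', ha'⟩ := hdvd2
  refine ⟨C, a, a', ?_, ?_, ?_, hC0, fun x y h3 h4 => (hCs x y h3 h4).1, hCsmul, hCinv, ?_, ?_,
    hCsymm, ?_⟩
  · rw [ha] at hApos
    exact (mul_pos_iff_of_pos_left hB).1 hApos
  · rw [ha'] at hA'pos
    exact (mul_pos_iff_of_pos_left hBB).1 hA'pos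
  · rw [ha, ha'] at hdiag
    have h3 : (a * a') * (B * (-B₀)) = ((n : ℤ) - 1) * (B * (-B₀)) := by linarith
    exact mul_right_cancel₀ (mul_pos hB hBB).ne' h3
  · intro x
    have h3 := hCw x
    rw [ha] at h3
    apply mul_left_cancel₀ hB.ne'
    linarith
  · intro x
    have h3 := hCc x
    rw [ha'] at h3
    apply mul_left_cancel₀ hBB.ne'
    linarith
  · intro x z
    have h3 := hCC x z
    rw [hgw x z, ha, ha'] at h3
    apply mul_left_cancel₀ (mul_pos hB hBB).ne'
    have h4 : A' = -B₀ * a' := ha'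
    have h5 : A = B * a := ha
    by_cases h6 : z = x
    · have h7 : z ≠ inv x := fun h => (hne x).symm (h6.symm.trans h)
      rw [if_pos h6, if_neg h7] at h3 ⊢
      linarith
    · by_cases h7 : z = inv x
      · rw [if_neg h6, if_pos h7] at h3 ⊢
        linarith
      · rw [if_neg h6, if_neg h7] at h3 ⊢
        linarith

end twotrans

end Pool.Agent.H855
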