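import Mathlib
import Pool.Agent.H855.TwoGraph
import Pool.Agent.H855.Idem

/-!
# The trace relation for a block of the two-graph
-/

namespace Pool.Agent.H855

open Pool.Agent.H925R2

section block

variable {R : Type*} [Fintype R] [DecidableEq R] {inv : R → R}
  (hinv : ∀ x, inv (inv x) = x) (hne : ∀ x, inv x ≠ x)
  (C : R → R → ℤ)
  (hC0 : ∀ x y, y = x ∨ y = inv x → C x y = 0)
  (hC1 : ∀ x y, y ≠ x → y ≠ inv x → C x y = 1 ∨ C x y = -1)
  (hCi : ∀ x y, C x (inv y) = -C x y)
  (hCs : ∀ x y, C x y = C y x)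

include hinv hC0 hC1 hCi hCs in
theorem block_trace (O O' : Finset R) (hdisj : Disjoint O O') (hΦ : IsHalf inv (O ∪ O'))
    (hconst : ∀ x ∈ O, ∀ z ∈ O, ∀ y ∈ O', C x y = C z y)
    (k : ℤ) (hk : ∀ x ∈ O, ∑ y ∈ O, C x y = k)
    (a a' : ℤ) (ha : 0 < a) (ha' : 0 < a')
    (hCC : ∀ x z, ∑ y, C x y * C z y = 2 * (a' - a) * C x z +
        (if z = x then 2 * (a * a') else 0) + (if z = inv x then -(2 * (a * a')) else 0))
    (hOne : O.Nonempty) : ∃ z : ℕ, (O.card : ℤ) * a = k + a + z * (a + a') := by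
  classical
  have hnotinv : ∀ x ∈ O, ∀ y ∈ O ∪ O', y ≠ inv x := by
    rintro x hx y hy rfl
    exact ((hΦ x).1 (Finset.mem_union_left _ hx)) hy
  -- the quadratic equation on the block
  have hquad : ∀ x ∈ O, ∀ z ∈ O, ∑ y ∈ O, C x y * C y z + (O'.card : ℤ) =
      (a' - a) * C x z + (if z = x then a * a' else 0) := by
    intro x hx z hz
    have h1 := hΦ.sum_symm hinv (fun y => C x y * C z y) (fun y => by simp only [hCi]; ring)
    rw [hCC x z, if_neg (hnotinv x hx z (Finset.mem_union_left _ hz)),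
      Finset.sum_union hdisj] at h1
    have h2 : ∑ y ∈ O', C x y * C z y = (O'.card : ℤ) := by
      have h3 : ∀ y ∈ O', C x y * C z y = 1 := by
        intro y hy
        rw [hconst z hz x hx y hy]
        have h4 : y ≠ x := fun h => (Finset.disjoint_left.1 hdisj) hx (h ▸ hy)
        have h5 : y ≠ inv x := hnotinv x hx y (Finset.mem_union_right _ hy)
        rcases hC1 x y h4 h5 with h | h <;> rw [h] <;> ring
      rw [Finset.sum_congr rfl h3]
      simp
    rw [h2] at h1
    have h6 : ∑ y ∈ O, C x y * C y z = ∑ y ∈ O, C x y * C z y :=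
      Finset.sum_congr rfl fun y _ => by rw [hCs y z]
    rw [h6]
    split_ifs at h1 ⊢ <;> linarith
  obtain ⟨x₀, hx₀⟩ := hOne
  have hk2 : k * k + (O'.card : ℤ) * O.card = (a' - a) * k + a * a' := by
    have h1 := Finset.sum_congr (rfl : O = O) (fun z hz => hquad x₀ hx₀ z hz)
    rw [Finset.sum_add_distrib, Finset.sum_add_distrib, Finset.sum_comm, ← Finset.mul_sum,
      hk x₀ hx₀, Finset.sum_ite_eq' O x₀, if_pos hx₀, Finset.sum_const, nsmul_eq_mul] at h1
    have h2 : ∑ y ∈ O, ∑ x ∈ O, C x₀ y * C y x = k * k := by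
      have h3 : ∀ y ∈ O, ∑ x ∈ O, C x₀ y * C y x = C x₀ y * k := by
        intro y hy
        rw [← Finset.mul_sum, hk y hy]
      rw [Finset.sum_congr rfl h3, ← Finset.sum_mul, hk x₀ hx₀]
    rw [h2] at h1
    linarith
  have hN : (0 : ℚ) < O.card := by exact_mod_cast Finset.card_pos.2 ⟨x₀, hx₀⟩
  have haa : (0 : ℚ) < (a : ℚ) + a' := by exact_mod_cast add_pos ha ha'
  let Cm : Matrix O O ℚ := Matrix.of fun x y => (C x.1 y.1 : ℚ)
  let J : Matrix O O ℚ := Matrix.of fun _ _ => (1 : ℚ)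
  have hsum : ∀ F : R → ℤ, (∑ y : O, (F y.1 : ℚ)) = ((∑ y ∈ O, F y : ℤ) : ℚ) := by
    intro F
    rw [← Finset.sum_coe_sort O F]
    push_cast
    rfl
  have h1 : Cm * Cm = ((a' : ℚ) - a) • Cm + ((a : ℚ) * a') • (1 : Matrix O O ℚ)
      - (O'.card : ℚ) • J := by
    ext x z
    rw [Matrix.mul_apply]
    have h2 := hsum (fun y => C x.1 y * C y z.1)
    have h3 := hquad x.1 x.2 z.1 z.2
    have h4 : (∑ y ∈ O, C x.1 y * C y z.1 : ℤ) =
      (a' - a) * C x.1 z.1 + (if z.1 = x.1 then a * a' else 0) - (O'.card : ℤ) := by linarith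
    rw [h4] at h2
    simp only [Cm, J, Matrix.of_apply, Matrix.sub_apply, Matrix.add_apply, Matrix.smul_apply,
      smul_eq_mul, Matrix.one_apply]
    push_cast at h2 ⊢
    rw [h2]
    by_cases h5 : z = x
    · subst h5; simp
    · have h6 : z.1 ≠ x.1 := fun h => h5 (Subtype.ext h)
      have h7 : x ≠ z := fun h => h5 h.symm
      simp [h6, h7]
  have hCJ : Cm * J = (k : ℚ) • J := by
    ext x z
    rw [Matrix.mul_apply]
    simp only [Cm, J, Matrix.of_apply, Matrix.smul_apply, smul_eq_mul, mul_one]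
    rw [hsum (fun y => C x.1 y), hk x.1 x.2]
  have hJC : J * Cm = (k : ℚ) • J := by
    ext x z
    rw [Matrix.mul_apply]
    simp only [Cm, J, Matrix.of_apply, Matrix.smul_apply, smul_eq_mul, one_mul, mul_one]
    rw [hsum (fun y => C y z.1)]
    have : ∑ y ∈ O, C y z.1 = k := by
      rw [← hk z.1 z.2]
      exact Finset.sum_congr rfl fun y _ => hCs y z.1
    rw [this]
  have hJJ : J * J = (O.card : ℚ) • J := by
    ext x z
    rw [Matrix.mul_apply]
    simp [J]
  set α : ℚ := 1 / ((a : ℚ) + a') with hα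
  set γ : ℚ := ((k : ℚ) + a) / (((a : ℚ) + a') * O.card) with hγ
  let M : Matrix O O ℚ := α • Cm + (α * a) • (1 : Matrix O O ℚ) - γ • J
  have hMM : M * M = M := by
    have e1 : M * M = (α * α) • (Cm * Cm) + (2 * α * (α * a)) • Cm + ((α * a) * (α * a)) •
        (1 : Matrix O O ℚ) - (α * γ) • (Cm * J) - (α * γ) • (J * Cm) - (2 * (α * a) * γ) • J +
        (γ * γ) • (J * J) := by
      simp only [M, sub_mul, mul_sub, add_mul, mul_add, Matrix.smul_mul, Matrix.mul_smul, mul_one,
        one_mul, smul_smul]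
      module
    rw [e1, h1, hCJ, hJC, hJJ]
    have hk2' : (k : ℚ) * k + (O'.card : ℚ) * O.card = ((a' : ℚ) - a) * k + a * a' := by
      exact_mod_cast hk2
    have c1 : α * α * ((a' : ℚ) - a) + 2 * α * (α * a) = α := by
      rw [hα]; field_simp; ring
    have c2 : α * α * ((a : ℚ) * a') + (α * a) * (α * a) = α * a := by
      rw [hα]; field_simp; ring
    have c3 : -(α * α * (O'.card : ℚ)) - α * γ * k - α * γ * k - 2 * (α * a) * γ +
        γ * γ * O.card = -γ := by
      rw [hα, hγ]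
      field_simp
      have h5 : ((O'.card : ℚ)) * O.card = ((a' : ℚ) - a) * k + a * a' - k * k := by linarith
      linear_combination (-1 : ℚ) * h5
    have e2 : (α * α) • (((a' : ℚ) - a) • Cm + ((a : ℚ) * a') • (1 : Matrix O O ℚ)
        - (O'.card : ℚ) • J) + (2 * α * (α * a)) • Cm + ((α * a) * (α * a)) •
        (1 : Matrix O O ℚ) - (α * γ) • ((k : ℚ) • J) - (α * γ) • ((k : ℚ) • J)
        - (2 * (α * a) * γ) • J + (γ * γ) • ((O.card : ℚ) • J) =
        (α * α * ((a' : ℚ) - a) + 2 * α * (α * a)) • Cm +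
        (α * α * ((a : ℚ) * a') + (α * a) * (α * a)) • (1 : Matrix O O ℚ) +
        (-(α * α * (O'.card : ℚ)) - α * γ * k - α * γ * k - 2 * (α * a) * γ +
        γ * γ * O.card) • J := by
      module
    rw [e2, c1, c2, c3]
    simp only [M]
    module
  obtain ⟨z, hz⟩ := trace_idem M hMM
  refine ⟨z, ?_⟩
  have htr : M.trace = (α * a - γ) * O.card := by
    have h5 : ∀ x : O, M x x = α * a - γ := by
      intro x
      simp only [M, Cm, J, Matrix.sub_apply, Matrix.add_apply, Matrix.smul_apply, Matrix.of_apply,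
        smul_eq_mul, Matrix.one_apply_eq, mul_one]
      rw [hC0 x.1 x.1 (Or.inl rfl)]
      simp
    rw [Matrix.trace, Finset.sum_congr rfl fun x _ => by rw [Matrix.diag_apply, h5 x]]
    simp
    ring
  rw [htr, hα, hγ] at hz
  have h6 : (O.card : ℚ) * a = k + a + z * (a + a') := by
    field_simp at hz
    linarith
  exact_mod_cast h6

end block

end Pool.Agent.H855
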