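import Mathlib

/-!
# Group theory: from orbits of a subgroup to multiple transitivity
-/

namespace Pool.Agent.H855

open MulAction

section confined

variable {G B : Type*} [Group G] [MulAction G B] [Fintype B]

open Classical in
/-- A saturated finite set has cardinality divisible by the common size of the classes. -/
theorem dvd_card_of_saturated (E : Setoid B) (β : ℕ)
    (hβ : ∀ x, (Finset.univ.filter (fun y => E x y)).card = β)
    (S : Finset B) (hS : ∀ x y, E x y → x ∈ S → y ∈ S) : β ∣ S.card := by
  have h1 := Finset.card_eq_sum_card_fiberwise (f := fun x : B => (Quotient.mk E x : Quotient E))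
    (s := S) (t := S.image (fun x : B => (Quotient.mk E x : Quotient E)))
    (fun x hx => Finset.mem_image_of_mem _ hx)
  rw [h1]
  refine Finset.dvd_sum fun q hq => ?_
  obtain ⟨x, hx, rfl⟩ := Finset.mem_image.1 hq
  have h2 : (S.filter (fun y => (Quotient.mk E y : Quotient E) = Quotient.mk E x)) =
      Finset.univ.filter (fun y => E x y) := by
    ext y
    simp only [Finset.mem_filter, Finset.mem_univ, true_and]
    constructor
    · rintro ⟨_, h⟩
      exact E.symm (Quotient.exact h)
    · intro h
      exact ⟨hS x y h hx, Quotient.sound (E.symm h)⟩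
  rw [h2, hβ]

open Classical in
/-- An invariant relation whose edges never cross between `O` and its complement is trivial if the
cardinalities of `O` and its complement are coprime. -/
theorem eq_of_confined [IsPretransitive G B] (r : B → B → Prop)
    (hr : ∀ (g : G) x y, r x y → r (g • x) (g • y))
    (O : Finset B) (hcop : O.card.Coprime (Fintype.card B - O.card))
    (hO : ∀ x y, r x y → (x ∈ O ↔ y ∈ O)) (x y : B) (hxy : r x y) : x = y := by
  rw [← Finset.card_compl] at hcop
  let E : Setoid B := Relation.EqvGen.setoid r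
  have hE : ∀ (g : G) x y, E x y → E (g • x) (g • y) := by
    intro g x y h
    induction h with
    | rel a b h => exact Relation.EqvGen.rel _ _ (hr g a b h)
    | refl a => exact Relation.EqvGen.refl _
    | symm a b _ ih => exact Relation.EqvGen.symm _ _ ih
    | trans a b c _ _ ih1 ih2 => exact Relation.EqvGen.trans _ _ _ ih1 ih2
  have hEO : ∀ x y, E x y → (x ∈ O ↔ y ∈ O) := by
    intro x y h
    induction h with
    | rel a b h => exact hO a b h
    | refl a => exact Iff.rfl
    | symm a b _ ih => exact ih.symm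
    | trans a b c _ _ ih1 ih2 => exact ih1.trans ih2
  have hcard : ∀ z, (Finset.univ.filter (fun y => E z y)).card =
      (Finset.univ.filter (fun y => E x y)).card := by
    intro z
    obtain ⟨g, hg⟩ := MulAction.exists_smul_eq G z x
    refine Finset.card_bij (fun y _ => g • y) ?_ ?_ ?_
    · intro y hy
      simp only [Finset.mem_filter, Finset.mem_univ, true_and] at hy ⊢
      rw [← hg]; exact hE g z y hy
    · intro a _ b _ h
      exact smul_left_cancel g h
    · intro y hy
      refine ⟨g⁻¹ • y, ?_, by simp⟩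
      simp only [Finset.mem_filter, Finset.mem_univ, true_and] at hy ⊢
      have := hE g⁻¹ _ _ hy
      rwa [← hg, inv_smul_smul] at this
  set β := (Finset.univ.filter (fun y => E x y)).card with hβ
  have h1 := dvd_card_of_saturated E β hcard O (fun a b h => (hEO a b h).1)
  have h2 := dvd_card_of_saturated E β hcard Oᶜ (fun a b h ha => by
    rw [Finset.mem_compl] at ha ⊢
    exact fun h' => ha ((hEO a b h).2 h'))
  have h3 : β = 1 := Nat.eq_one_of_dvd_coprimes hcop h1 h2
  obtain ⟨z, hz⟩ := Finset.card_eq_one.1 (hβ.symm.trans h3)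
  have hx : x ∈ Finset.univ.filter (fun y => E x y) := by
    simp only [Finset.mem_filter, Finset.mem_univ, true_and]
    exact E.refl x
  have hy : y ∈ Finset.univ.filter (fun y => E x y) := by
    simp only [Finset.mem_filter, Finset.mem_univ, true_and]
    exact Relation.EqvGen.rel _ _ hxy
  rw [hz, Finset.mem_singleton] at hx hy
  rw [hx, hy]

end confined

section two

variable {G B : Type*} [Group G] [MulAction G B] [Fintype B]

open Classical in
/-- **Two coprime orbits.** If `D ≤ G` acts transitively on `O × Oᶜ`, the group `G` acts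
transitively on `B`, the cardinalities of `O` and `Oᶜ` are coprime and `O`, `Oᶜ` are non-empty,
then `G` is doubly transitive. -/
theorem two_transitive_of_coprime [IsPretransitive G B] (O : Finset B)
    (hcop : O.card.Coprime (Fintype.card B - O.card))
    (hD : ∀ x y x' y', x ∈ O → x' ∈ O → y ∉ O → y' ∉ O → ∃ g : G, g • x = x' ∧ g • y = y')
    (hne : O.Nonempty) (hne' : ∃ t, t ∉ O)
    (x y x' y' : B) (hxy : x ≠ y) (hxy' : x' ≠ y') : ∃ g : G, g • x = x' ∧ g • y = y' := by
  obtain ⟨o, ho⟩ := hne
  obtain ⟨t, ht⟩ := hne'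
  have hot : o ≠ t := fun h => ht (h ▸ ho)
  -- every pair of different elements is equivalent to a crossing pair
  have hcross : ∀ a b : B, a ≠ b → ∃ g : G, (g • a ∈ O ∧ g • b ∉ O) ∨ (g • a ∉ O ∧ g • b ∈ O) := by
    intro a b hab
    by_contra hcon
    push Not at hcon
    apply hab
    refine eq_of_confined (G := G) (fun u v => ∃ g : G, u = g • a ∧ v = g • b) ?_ O hcop ?_ a b
      ⟨1, by simp, by simp⟩
    · rintro g u v ⟨h, rfl, rfl⟩
      exact ⟨g * h, by rw [mul_smul], by rw [mul_smul]⟩
    · rintro u v ⟨h, rfl, rfl⟩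
      constructor
      · intro h1
        by_contra h2
        exact h2 ((hcon h).1 h1)
      · intro h1
        by_contra h2
        exact (hcon h).2 h2 h1
  -- reduce to one of two standard pairs
  have hstd : ∀ a b : B, a ≠ b → (∃ g : G, g • a = o ∧ g • b = t) ∨
      (∃ g : G, g • a = t ∧ g • b = o) := by
    intro a b hab
    obtain ⟨g, hg | hg⟩ := hcross a b hab
    · obtain ⟨h, h1, h2⟩ := hD _ _ o t hg.1 ho hg.2 ht
      exact Or.inl ⟨h * g, by rw [mul_smul, h1], by rw [mul_smul, h2]⟩
    · obtain ⟨h, h1, h2⟩ := hD _ _ o t hg.2 ho hg.1 ht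
      exact Or.inr ⟨h * g, by rw [mul_smul, h2], by rw [mul_smul, h1]⟩
  -- the two standard pairs are equivalent
  have hswap : ∃ g : G, g • o = t ∧ g • t = o := by
    by_contra hcon
    push Not at hcon
    -- `a → b` if `(a, b)` is equivalent to `(o, t)`
    have hnot : ∀ a b : B, (∃ g : G, g • a = o ∧ g • b = t) → ¬ (∃ g : G, g • b = o ∧ g • a = t) := by
      rintro a b ⟨g, h1, h2⟩ ⟨h, h3, h4⟩
      apply hcon (h * g⁻¹)
      · rw [mul_smul, ← h1, inv_smul_smul, h4]
      · rw [mul_smul, ← h2, inv_smul_smul, h3]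
    set out : B → Finset B := fun a => Finset.univ.filter (fun b => ∃ g : G, g • a = o ∧ g • b = t)
      with hout
    have hconst : (out o).card = (out t).card := by
      obtain ⟨g, hg⟩ := MulAction.exists_smul_eq G o t
      refine Finset.card_bij (fun y _ => g • y) ?_ ?_ ?_
      · intro y hy
        simp only [hout, Finset.mem_filter, Finset.mem_univ, true_and] at hy ⊢
        obtain ⟨h, h1, h2⟩ := hy
        refine ⟨h * g⁻¹, ?_, by rw [mul_smul, inv_smul_smul, h2]⟩
        rw [mul_smul, ← hg, inv_smul_smul, h1]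
      · intro a _ b _ h
        exact smul_left_cancel g h
      · intro y hy
        simp only [hout, Finset.mem_filter, Finset.mem_univ, true_and] at hy ⊢
        obtain ⟨h, h1, h2⟩ := hy
        refine ⟨g⁻¹ • y, ⟨h * g, ?_, ?_⟩, by simp⟩
        · rw [mul_smul, hg, h1]
        · rw [mul_smul, smul_inv_smul, h2]
    have h1 : Oᶜ ⊆ out o := by
      intro b hb
      rw [Finset.mem_compl] at hb
      simp only [hout, Finset.mem_filter, Finset.mem_univ, true_and]
      exact hD o b o t ho ho hb ht
    have h2 : out t ⊆ Oᶜ.erase t := by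
      intro b hb
      simp only [hout, Finset.mem_filter, Finset.mem_univ, true_and] at hb
      rw [Finset.mem_erase, Finset.mem_compl]
      refine ⟨?_, ?_⟩
      · rintro rfl
        obtain ⟨g, h3, h4⟩ := hb
        exact hot (h3.symm.trans h4)
      · intro hbO
        exact hnot t b hb (hD b t o t hbO ho ht ht)
    have h3 := Finset.card_le_card h1
    have h4 := Finset.card_le_card h2
    rw [Finset.card_erase_of_mem (Finset.mem_compl.2 ht)] at h4
    have h5 : 0 < Oᶜ.card := Finset.card_pos.2 ⟨t, Finset.mem_compl.2 ht⟩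
    omega
  have hall : ∀ a b : B, a ≠ b → ∃ g : G, g • a = o ∧ g • b = t := by
    intro a b hab
    rcases hstd a b hab with h | ⟨g, h1, h2⟩
    · exact h
    · obtain ⟨h, h3, h4⟩ := hswap
      exact ⟨h * g, by rw [mul_smul, h1, h4], by rw [mul_smul, h2, h3]⟩
  obtain ⟨g, h1, h2⟩ := hall x y hxy
  obtain ⟨h, h3, h4⟩ := hall x' y' hxy'
  refine ⟨h⁻¹ * g, ?_, ?_⟩
  · rw [mul_smul, h1, inv_smul_eq_iff, h3]
  · rw [mul_smul, h2, inv_smul_eq_iff, h4]

end two

section jordan

variable {G B : Type*} [Group G] [MulAction G B] [Fintype B]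

open Classical in
/-- **Jordan type lemma.** `G` transitive on `B`, a proper subset `O` of more than half of the
elements, of cardinality coprime to that of its complement, such that for every `b ∉ O` the
stabiliser of `b` is transitive on `O`.  Then `G` is doubly transitive. -/
theorem two_transitive_of_large [IsPretransitive G B] (O : Finset B)
    (hcop : O.card.Coprime (Fintype.card B - O.card))
    (hD : ∀ x x' b, x ∈ O → x' ∈ O → b ∉ O → ∃ g : G, g • x = x' ∧ g • b = b)
    (hne' : ∃ t, t ∉ O) (hlarge : Fintype.card B < 2 * O.card)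
    (x y x' y' : B) (hxy : x ≠ y) (hxy' : x' ≠ y') : ∃ g : G, g • x = x' ∧ g • y = y' := by
  have hne : O.Nonempty := by
    rw [← Finset.card_pos]; omega
  obtain ⟨o, ho⟩ := hne
  obtain ⟨t, ht⟩ := hne'
  -- the orbital of a pair
  let orb : B → B → B → B → Prop := fun a b c d => ∃ g : G, g • a = c ∧ g • b = d
  have orb_refl : ∀ a b, orb a b a b := fun a b => ⟨1, by simp, by simp⟩
  have orb_symm : ∀ a b c d, orb a b c d → orb c d a b := by
    rintro a b c d ⟨g, rfl, rfl⟩
    exact ⟨g⁻¹, by simp, by simp⟩
  have orb_trans : ∀ a b c d e f, orb a b c d → orb c d e f → orb a b e f := by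
    rintro a b c d e f ⟨g, rfl, rfl⟩ ⟨h, rfl, rfl⟩
    exact ⟨h * g, by rw [mul_smul], by rw [mul_smul]⟩
  have orb_swap : ∀ a b c d, orb a b c d → orb b a d c := by
    rintro a b c d ⟨g, h1, h2⟩
    exact ⟨g, h2, h1⟩
  -- neighbours of `a` in the orbital of `(u, v)`
  let nb : B → B → B → Finset B := fun u v a => Finset.univ.filter (fun b => orb u v a b)
  have nb_mem : ∀ u v a b, b ∈ nb u v a ↔ orb u v a b := by
    intro u v a b
    simp [nb]
  have nb_card : ∀ u v a a', (nb u v a).card = (nb u v a').card := by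
    intro u v a a'
    obtain ⟨g, hg⟩ := MulAction.exists_smul_eq G a a'
    refine Finset.card_bij (fun y _ => g • y) ?_ ?_ ?_
    · intro y hy
      rw [nb_mem] at hy ⊢
      exact orb_trans _ _ _ _ _ _ hy ⟨g, hg, rfl⟩
    · intro a _ b _ h
      exact smul_left_cancel g h
    · intro y hy
      rw [nb_mem] at hy
      refine ⟨g⁻¹ • y, ?_, by simp⟩
      rw [nb_mem]
      exact orb_trans _ _ _ _ _ _ hy ⟨g⁻¹, by rw [← hg]; simp, rfl⟩
  -- in- and out-valency agree
  have nb_card' : ∀ u v a, (nb u v a).card = (nb v u a).card := by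
    intro u v a
    have h1 : ∑ b : B, (nb u v b).card = ∑ b : B, (nb v u b).card := by
      have h2 : ∀ u v, ∑ b : B, (nb u v b).card =
          (Finset.univ.filter (fun z : B × B => orb u v z.1 z.2)).card := by
        intro u v
        rw [Finset.card_eq_sum_card_fiberwise (f := Prod.fst) (t := Finset.univ)
          (fun _ _ => Finset.mem_coe.2 (Finset.mem_univ _))]
        refine Finset.sum_congr rfl fun b _ => ?_
        refine Finset.card_bij (fun y _ => (b, y)) ?_ ?_ ?_
        · intro y hy
          rw [nb_mem] at hy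
          simp [hy]
        · intro a _ c _ h
          exact (Prod.mk.inj h).2
        · rintro ⟨c, d⟩ hcd
          simp only [Finset.mem_filter, Finset.mem_univ, true_and] at hcd
          obtain ⟨h1, rfl⟩ := hcd
          exact ⟨d, (nb_mem _ _ _ _).2 h1, rfl⟩
      rw [h2, h2]
      refine Finset.card_bij (fun z _ => (z.2, z.1)) ?_ ?_ ?_
      · rintro ⟨c, d⟩ hcd
        simp only [Finset.mem_filter, Finset.mem_univ, true_and] at hcd ⊢
        exact orb_swap _ _ _ _ hcd
      · rintro ⟨c, d⟩ _ ⟨c', d'⟩ _ h
        simp only [Prod.mk.injEq] at h ⊢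
        exact ⟨h.2, h.1⟩
      · rintro ⟨c, d⟩ hcd
        simp only [Finset.mem_filter, Finset.mem_univ, true_and] at hcd
        exact ⟨(d, c), by simpa using orb_swap _ _ _ _ hcd, rfl⟩
    rw [Finset.sum_congr rfl fun b _ => nb_card u v b a,
      Finset.sum_congr rfl fun b _ => nb_card v u b a, Finset.sum_const, Finset.sum_const,
      smul_eq_mul, smul_eq_mul] at h1
    exact Nat.eq_of_mul_eq_mul_left (by
      rw [Finset.card_univ]
      exact Fintype.card_pos_iff.2 ⟨a⟩) h1
  -- two orbitals with large valency coincide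
  have meet : ∀ u v u' v' a, O.card ≤ (nb u v a).card → O.card ≤ (nb u' v' a).card →
      orb u v u' v' := by
    intro u v u' v' a h1 h2
    have h3 : (nb u v a ∩ nb u' v' a).Nonempty := by
      by_contra h
      rw [Finset.not_nonempty_iff_eq_empty] at h
      have h4 := Finset.card_union_add_card_inter (nb u v a) (nb u' v' a)
      rw [h, Finset.card_empty, add_zero] at h4
      have h5 := Finset.card_le_univ (nb u v a ∪ nb u' v' a)
      omega
    obtain ⟨b, hb⟩ := h3
    rw [Finset.mem_inter, nb_mem, nb_mem] at hb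
    exact orb_trans _ _ _ _ _ _ hb.1 (orb_symm _ _ _ _ hb.2)
  have big : ∀ b ∉ O, ∀ z ∈ O, O ⊆ nb b z b := by
    intro b hb z hz w hw
    rw [nb_mem]
    obtain ⟨g, h1, h2⟩ := hD z w b hz hw hb
    exact ⟨g, h2, h1⟩
  have bigcard : ∀ b ∉ O, ∀ z ∈ O, ∀ a, O.card ≤ (nb b z a).card := by
    intro b hb z hz a
    rw [nb_card b z a b]
    exact Finset.card_le_card (big b hb z hz)
  have key : ∀ b ∉ O, ∀ z ∈ O, orb t o b z := fun b hb z hz =>
    meet _ _ _ _ t (bigcard t ht o ho t) (bigcard b hb z hz t)
  have key' : orb t o o t := by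
    refine meet _ _ _ _ t (bigcard t ht o ho t) ?_
    rw [nb_card']
    exact bigcard t ht o ho t
  have hall : ∀ a b : B, a ≠ b → orb t o a b := by
    intro a b hab
    by_contra hcon
    apply hab
    refine eq_of_confined (G := G) (fun u v => ¬ orb t o u v ∧ ¬ orb t o v u) ?_ O hcop ?_ a b ?_
    · rintro g u v ⟨h1, h2⟩
      refine ⟨fun h => h1 ?_, fun h => h2 ?_⟩
      · exact orb_trans _ _ _ _ _ _ h ⟨g⁻¹, by simp, by simp⟩
      · exact orb_trans _ _ _ _ _ _ h ⟨g⁻¹, by simp, by simp⟩
    · rintro u v ⟨h1, h2⟩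
      constructor
      · intro hu
        by_contra hv
        exact h2 (key v hv u hu)
      · intro hv
        by_contra hu
        exact h1 (key u hu v hv)
    · refine ⟨hcon, fun h => hcon ?_⟩
      exact orb_trans _ _ _ _ _ _ key' (orb_swap _ _ _ _ h)
  have h1 := hall x y hxy
  have h2 := hall x' y' hxy'
  exact orb_trans _ _ _ _ _ _ (orb_symm _ _ _ _ h1) h2

end jordan

end Pool.Agent.H855
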