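import Mathlib

/-!
# Subgroups of coprime index stay transitive
-/

namespace Pool.Agent.H855

open MulAction

/-- A subgroup whose index is coprime to the length of an orbit is transitive on this orbit. -/
theorem trans_of_coprime_index {G B : Type*} [Group G] [Finite G] [MulAction G B]
    (H : Subgroup G) (x : B) (hcop : (orbit G x).ncard.Coprime H.index) (y : B)
    (hy : y ∈ orbit G x) : ∃ h ∈ H, h • x = y := by
  classical
  have hS : (stabilizer G x).index = (orbit G x).ncard := index_stabilizer G x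
  have h1 : (stabilizer G x ⊓ H).relIndex H * H.index = (stabilizer G x ⊓ H).index :=
    Subgroup.relIndex_mul_index inf_le_right
  have h2 : (stabilizer G x ⊓ H).relIndex (stabilizer G x) *
      (stabilizer G x).index = (stabilizer G x ⊓ H).index :=
    Subgroup.relIndex_mul_index inf_le_left
  have h3 : (orbit G x).ncard ∣ (stabilizer G x ⊓ H).relIndex H := by
    have h4 : (orbit G x).ncard ∣ (stabilizer G x ⊓ H).relIndex H * H.index := by
      rw [h1, ← h2, hS]
      exact Dvd.intro_left _ rfl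
    exact hcop.dvd_of_dvd_mul_right h4
  rw [Subgroup.inf_relIndex_right] at h3
  have h6 : (stabilizer G x).relIndex H = (orbit H x).ncard := by
    rw [← index_stabilizer H x]
    rfl
  rw [h6] at h3
  have hfin : (orbit G x).Finite := Set.finite_range _
  have hsub : orbit H x ⊆ orbit G x := by
    rintro _ ⟨h, rfl⟩
    exact ⟨h.1, rfl⟩
  have hpos : 0 < (orbit H x).ncard := by
    rw [Set.ncard_pos (hfin.subset hsub)]
    exact ⟨x, mem_orbit_self x⟩
  have h7 := Nat.le_of_dvd hpos h3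
  have h8 : orbit H x = orbit G x := Set.eq_of_subset_of_ncard_le hsub h7 hfin
  rw [← h8] at hy
  obtain ⟨h, rfl⟩ := hy
  exact ⟨h.1, h.2, rfl⟩

/-- A group acting transitively on two finite sets of coprime cardinalities acts transitively on
the product. -/
theorem trans_pair {G R : Type*} [Group G] [Finite G] [MulAction G R] (D : Subgroup G)
    (O₁ O₂ : Finset R)
    (h1 : ∀ x ∈ O₁, ∀ y ∈ O₁, ∃ d ∈ D, d • x = y) (h1' : ∀ d ∈ D, ∀ x ∈ O₁, d • x ∈ O₁)
    (h2 : ∀ x ∈ O₂, ∀ y ∈ O₂, ∃ d ∈ D, d • x = y) (h2' : ∀ d ∈ D, ∀ x ∈ O₂, d • x ∈ O₂)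
    (hcop : O₁.card.Coprime O₂.card) (x x' y y' : R) (hx : x ∈ O₁) (hx' : x' ∈ O₁)
    (hy : y ∈ O₂) (hy' : y' ∈ O₂) : ∃ d ∈ D, d • x = x' ∧ d • y = y' := by
  have horb : ∀ (O : Finset R), (∀ x ∈ O, ∀ y ∈ O, ∃ d ∈ D, d • x = y) →
      (∀ d ∈ D, ∀ x ∈ O, d • x ∈ O) → ∀ x ∈ O, orbit D x = (O : Set R) := by
    intro O ha hb x hx
    ext z
    constructor
    · rintro ⟨d, rfl⟩
      exact hb d.1 d.2 x hx
    · intro hz
      obtain ⟨d, hd, rfl⟩ := ha x hx z hz
      exact ⟨⟨d, hd⟩, rfl⟩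
  obtain ⟨d, hd, rfl⟩ := h1 x hx x' hx'
  have hdy : d • y ∈ O₂ := h2' d hd y hy
  have e1 := horb O₂ h2 h2' (d • y) hdy
  have e2 := horb O₁ h1 h1' (d • x) hx'
  obtain ⟨h, hh, hh'⟩ := trans_of_coprime_index (G := D) (stabilizer D (d • x)) (d • y) (by
    rw [index_stabilizer, e1, e2, Set.ncard_coe_finset, Set.ncard_coe_finset]
    exact hcop.symm) y' (by rw [e1]; exact hy')
  refine ⟨h.1 * d, D.mul_mem h.2 hd, ?_, ?_⟩
  · rw [mul_smul]
    exact hh
  · rw [mul_smul]
    exact hh'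

end Pool.Agent.H855
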