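import Mathlib
import Pool.Agent.H855.Grp
import Pool.Agent.H855.Index

/-!
# Triple transitivity from a large block
-/

namespace Pool.Agent.H855

open MulAction

variable {G B : Type*} [Group G] [MulAction G B] [Fintype B]

open Classical in
/-- **Jordan type lemma, triple transitivity.** -/
theorem three_transitive_of_large [IsPretransitive G B] (O : Finset B)
    (hcop : O.card.Coprime (Fintype.card B - O.card))
    (hcop' : O.card.Coprime (Fintype.card B - O.card - 1))
    (hD : ∀ x x', x ∈ O → x' ∈ O → ∃ g : G, g • x = x' ∧ ∀ b, b ∉ O → g • b = b)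
    (hm : O.card + 2 ≤ Fintype.card B) (hlarge : Fintype.card B < 2 * O.card)
    (x y z x' y' z' : B) (hxy : x ≠ y) (hyz : y ≠ z) (hxz : x ≠ z)
    (hxy' : x' ≠ y') (hyz' : y' ≠ z') (hxz' : x' ≠ z') :
    ∃ g : G, g • x = x' ∧ g • y = y' ∧ g • z = z' := by
  have hne' : Oᶜ.Nonempty := by rw [← Finset.card_pos, Finset.card_compl]; omega
  obtain ⟨b, hb⟩ := hne'
  have hb' := Finset.mem_compl.1 hb
  have h2 : ∀ x y x' y' : B, x ≠ y → x' ≠ y' → ∃ g : G, g • x = x' ∧ g • y = y' :=
    two_transitive_of_large O hcop (fun x x' b hx hx' hb => by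
      obtain ⟨g, h1, h2⟩ := hD x x' hx hx'
      exact ⟨g, h1, h2 b hb⟩) ⟨b, hb'⟩ hlarge
  let H : Subgroup G := stabilizer G b
  let B' := {y : B // y ≠ b}
  let act : MulAction H B' :=
    { smul := fun h y => ⟨h.1 • y.1, fun h' => y.2 (by
        have h3 : h.1 • b = b := h.2
        have h4 : h.1 • y.1 = h.1 • b := h'.trans h3.symm
        exact smul_left_cancel _ h4)⟩
      one_smul := fun y => Subtype.ext (one_smul G y.1)
      mul_smul := fun g h y => Subtype.ext (mul_smul g.1 h.1 y.1) }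
  have hcoe : ∀ (h : H) (y : B'), ((h • y : B') : B) = h.1 • y.1 := fun _ _ => rfl
  have hpre : IsPretransitive H B' := by
    refine ⟨fun u v => ?_⟩
    obtain ⟨g, h3, h4⟩ := h2 b u.1 b v.1 (fun h => u.2 h.symm) (fun h => v.2 h.symm)
    exact ⟨⟨g, h3⟩, Subtype.ext h4⟩
  let O' : Finset B' := Finset.univ.filter (fun y => y.1 ∈ O)
  have hO'card : O'.card = O.card := by
    refine Finset.card_bij (fun y _ => y.1) ?_ ?_ ?_
    · intro y hy
      exact (Finset.mem_filter.1 hy).2
    · intro u _ v _ h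
      exact Subtype.ext h
    · intro y hy
      exact ⟨⟨y, fun h => hb' (h ▸ hy)⟩, Finset.mem_filter.2 ⟨Finset.mem_univ _, hy⟩, rfl⟩
  have hcardB' : Fintype.card B' = Fintype.card B - 1 := by
    rw [Fintype.card_subtype_compl, Fintype.card_subtype_eq]
  have hsum : O.card + Oᶜ.card = Fintype.card B := Finset.card_add_card_compl O
  have h3 : ∀ u v u' v' : B', u ≠ v → u' ≠ v' → ∃ h : H, h • u = u' ∧ h • v = v' := by
    refine two_transitive_of_large (G := H) O' ?_ ?_ ?_ ?_
    · rw [hO'card, hcardB']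
      have : Fintype.card B - 1 - O.card = Fintype.card B - O.card - 1 := by omega
      rw [this]
      exact hcop'
    · intro u u' c hu hu' hc
      obtain ⟨g, h4, h5⟩ := hD u.1 u'.1 (Finset.mem_filter.1 hu).2 (Finset.mem_filter.1 hu').2
      refine ⟨⟨g, h5 b hb'⟩, Subtype.ext h4, Subtype.ext (h5 c.1 fun h => hc ?_)⟩
      exact Finset.mem_filter.2 ⟨Finset.mem_univ _, h⟩
    · by_contra hcon
      push Not at hcon
      have h6 : O' = Finset.univ := Finset.eq_univ_iff_forall.2 hcon
      rw [h6, Finset.card_univ, hcardB'] at hO'card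
      omega
    · rw [hcardB', hO'card]; omega
  obtain ⟨g, hg⟩ := exists_smul_eq G x b
  obtain ⟨g', hg'⟩ := exists_smul_eq G x' b
  have ne1 : ∀ (g : G) (u v : B), u ≠ v → g • u ≠ g • v := fun g u v h h' =>
    h (smul_left_cancel g h')
  obtain ⟨h, h4, h5⟩ := h3 ⟨g • y, by rw [← hg]; exact ne1 g y x hxy.symm⟩
    ⟨g • z, by rw [← hg]; exact ne1 g z x hxz.symm⟩
    ⟨g' • y', by rw [← hg']; exact ne1 g' y' x' hxy'.symm⟩
    ⟨g' • z', by rw [← hg']; exact ne1 g' z' x' hxz'.symm⟩
    (fun h => ne1 g y z hyz (congrArg Subtype.val h))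
    (fun h => ne1 g' y' z' hyz' (congrArg Subtype.val h))
  refine ⟨g'⁻¹ * h.1 * g, ?_, ?_, ?_⟩
  · have h6 : h.1 • b = b := h.2
    rw [mul_smul, mul_smul, hg, h6, inv_smul_eq_iff, hg']
  · have h6 : h.1 • g • y = g' • y' := congrArg Subtype.val h4
    rw [mul_smul, mul_smul, h6, inv_smul_smul]
  · have h6 : h.1 • g • z = g' • z' := congrArg Subtype.val h5
    rw [mul_smul, mul_smul, h6, inv_smul_smul]

open Classical in
/-- The pointwise stabiliser in `D` of the complement of an orbit `O` of `D` is transitive on `O` if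
all prime factors of the cardinality of `O` are larger than the cardinality of the complement. -/
theorem pointwise_transitive [Finite G] (D : Subgroup G) (O : Finset B)
    (h1 : ∀ x ∈ O, ∀ y ∈ O, ∃ d ∈ D, d • x = y) (h1' : ∀ d ∈ D, ∀ x ∈ O, d • x ∈ O)
    (hprime : ∀ r : ℕ, r.Prime → r ∣ O.card → Fintype.card B - O.card < r)
    (x x' : B) (hx : x ∈ O) (hx' : x' ∈ O) :
    ∃ d ∈ D, d • x = x' ∧ ∀ b, b ∉ O → d • b = b := by
  rw [← Finset.card_compl] at hprime
  let B' := {y : B // y ∉ O}
  have hst : ∀ (d : D) (y : B'), d.1 • y.1 ∉ O := by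
    intro d y h
    apply y.2
    have := h1' d.1⁻¹ (D.inv_mem d.2) _ h
    rwa [inv_smul_smul] at this
  let φ : D →* Equiv.Perm B' :=
    { toFun := fun d =>
        { toFun := fun y => ⟨d.1 • y.1, hst d y⟩
          invFun := fun y => ⟨d.1⁻¹ • y.1, hst d⁻¹ y⟩
          left_inv := fun y => Subtype.ext (inv_smul_smul _ _)
          right_inv := fun y => Subtype.ext (smul_inv_smul _ _) }
      map_one' := by
        ext y
        exact one_smul G y.1
      map_mul' := fun d e => by
        ext y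
        exact mul_smul d.1 e.1 y.1 }
  have hindex : φ.ker.index ∣ (Oᶜ.card).factorial := by
    rw [Subgroup.index_ker]
    have h2 : Nat.card φ.range ∣ Nat.card (Equiv.Perm B') := Subgroup.card_subgroup_dvd_card _
    rw [Nat.card_perm] at h2
    have h3 : Nat.card B' = Oᶜ.card := by
      rw [Nat.card_eq_fintype_card, Fintype.card_subtype]
      congr 1
      ext y
      simp
    rwa [h3] at h2
  have horb : orbit D x = (O : Set B) := by
    ext z
    constructor
    · rintro ⟨d, rfl⟩
      exact h1' d.1 d.2 x hx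
    · intro hz
      obtain ⟨d, hd, rfl⟩ := h1 x hx z hz
      exact ⟨⟨d, hd⟩, rfl⟩
  have hcop : (orbit D x).ncard.Coprime φ.ker.index := by
    rw [horb, Set.ncard_coe_finset]
    apply Nat.Coprime.coprime_dvd_right hindex
    apply Nat.Coprime.symm
    refine Nat.Coprime.symm (Nat.coprime_of_dvd fun r hr h2 h3 => ?_)
    have h4 := hprime r hr h2
    exact absurd ((hr.dvd_factorial).1 h3) (not_le.2 h4)
  obtain ⟨h, hh, hh'⟩ := trans_of_coprime_index (G := D) φ.ker x hcop x' (by
    rw [horb]; exact hx')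
  refine ⟨h.1, h.2, hh', fun b hb => ?_⟩
  have h5 : φ h = 1 := hh
  have h6 := congrArg (fun e : Equiv.Perm B' => (e ⟨b, hb⟩).1) h5
  exact h6

end Pool.Agent.H855
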