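import Mathlib
import Pool.Graph.R_seed8.H925R2.Core
import Pool.Agent.H855.Grp
import Pool.Agent.H855.Index
import Pool.Agent.H855.Triple

/-!
# Transitivity on pairs `{x, inv x}` from local data
-/

namespace Pool.Agent.H855

open MulAction Pool.Agent.H925R2

set_option linter.unusedSectionVars false

variable {R : Type*} [Fintype R] [DecidableEq R] {inv : R → R}
variable {G : Type*} [Group G] [Finite G] [MulAction G R]

/-- The action on the pairs `{x, inv x}`. -/
@[reducible] def pairAction (hinv : ∀ x, inv (inv x) = x)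
    (hG : ∀ (g : G) (x : R), g • inv x = inv (g • x)) :
    MulAction G (Quotient (pairSetoid hinv)) where
  smul g := Quotient.map (fun x => g • x) (by
    rintro a b (h | h)
    · exact Or.inl (by rw [h])
    · exact Or.inr (by rw [h, hG]))
  one_smul := by
    intro q
    obtain ⟨x, rfl⟩ := Quotient.exists_rep q
    change Quotient.mk (pairSetoid hinv) ((1 : G) • x) = _
    rw [one_smul]
  mul_smul := by
    intro g h q
    obtain ⟨x, rfl⟩ := Quotient.exists_rep q
    change Quotient.mk (pairSetoid hinv) ((g * h) • x) =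
      Quotient.mk (pairSetoid hinv) (g • h • x)
    rw [mul_smul]

open Classical in
theorem card_image_mk (hinv : ∀ x, inv (inv x) = x) (O : Finset R)
    (hO : ∀ x ∈ O, inv x ∉ O) :
    (O.image (Quotient.mk (pairSetoid hinv))).card = O.card := by
  apply Finset.card_image_of_injOn
  intro x hx y hy h
  rcases (Quotient.exact h : x = y ∨ x = inv y) with h' | h'
  · exact h'
  · exfalso
    apply hO y hy
    rw [← h']
    exact hx

theorem mem_image_mk (hinv : ∀ x, inv (inv x) = x) [DecidableEq (Quotient (pairSetoid hinv))]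
    (O : Finset R) (x : R) :
    Quotient.mk (pairSetoid hinv) x ∈ O.image (Quotient.mk (pairSetoid hinv)) ↔
      x ∈ O ∨ inv x ∈ O := by
  rw [Finset.mem_image]
  constructor
  · rintro ⟨y, hy, h⟩
    rcases (Quotient.exact h : y = x ∨ y = inv x) with h' | h'
    · exact Or.inl (h' ▸ hy)
    · exact Or.inr (h' ▸ hy)
  · rintro (h | h)
    · exact ⟨x, h, rfl⟩
    · exact ⟨inv x, h, Quotient.sound (Or.inr rfl)⟩

open Classical in
theorem pairs_two [IsPretransitive G R]
    (hinv : ∀ x, inv (inv x) = x)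
    (hG : ∀ (g : G) (x : R), g • inv x = inv (g • x))
    (O₁ O₂ : Finset R) (hdisj : Disjoint O₁ O₂) (hΦ : IsHalf inv (O₁ ∪ O₂))
    (hcop : O₁.card.Coprime O₂.card) (hn₁ : O₁.Nonempty) (hn₂ : O₂.Nonempty)
    (hD : ∀ x ∈ O₁, ∀ x' ∈ O₁, ∀ y ∈ O₂, ∀ y' ∈ O₂, ∃ g : G, g • x = x' ∧ g • y = y')
    (x y x' y' : R) (h1 : y ≠ x) (h2 : y ≠ inv x) (h3 : y' ≠ x') (h4 : y' ≠ inv x') :
    ∃ g : G, (g • x = x' ∨ g • x = inv x') ∧ (g • y = y' ∨ g • y = inv y') := by
  let act : MulAction G (Quotient (pairSetoid hinv)) := pairAction hinv hG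
  have hsm : ∀ (g : G) (x : R), g • (Quotient.mk (pairSetoid hinv) x) =
      Quotient.mk (pairSetoid hinv) (g • x) := fun g x => rfl
  have hpre : IsPretransitive G (Quotient (pairSetoid hinv)) := by
    refine ⟨fun a b => ?_⟩
    obtain ⟨x, rfl⟩ := Quotient.exists_rep a
    obtain ⟨y, rfl⟩ := Quotient.exists_rep b
    obtain ⟨g, hg⟩ := MulAction.exists_smul_eq G x y
    exact ⟨g, by rw [hsm, hg]⟩
  have hnotinv : ∀ x ∈ O₁ ∪ O₂, inv x ∉ O₁ ∪ O₂ := fun x hx => (hΦ x).1 hx
  have hne : ∀ x, inv x ≠ x := by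
    intro x h
    by_cases hx : x ∈ O₁ ∪ O₂
    · exact hnotinv x hx (by rw [h]; exact hx)
    · rw [hΦ x, h, not_not] at hx
      exact (hnotinv x hx) (by rw [h]; exact hx)
  set O : Finset (Quotient (pairSetoid hinv)) := O₁.image (Quotient.mk (pairSetoid hinv)) with hO
  have hOcard : O.card = O₁.card := card_image_mk hinv O₁ (fun x hx h =>
    hnotinv x (Finset.mem_union_left _ hx) (Finset.mem_union_left _ h))
  have hcardB : Fintype.card (Quotient (pairSetoid hinv)) = O₁.card + O₂.card := by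
    have h5 := card_pairs hinv hne
    have h6 := hΦ.card hinv
    rw [Finset.card_union_of_disjoint hdisj] at h6
    rw [← Nat.card_eq_fintype_card]
    omega
  have hout : ∀ y : R, Quotient.mk (pairSetoid hinv) y ∉ O →
      ∃ z ∈ O₂, Quotient.mk (pairSetoid hinv) z = Quotient.mk (pairSetoid hinv) y := by
    intro y hy
    rw [hO, mem_image_mk, not_or] at hy
    by_cases h : y ∈ O₁ ∪ O₂
    · rcases Finset.mem_union.1 h with h | h
      · exact absurd h hy.1
      · exact ⟨y, h, rfl⟩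
    · rw [hΦ y, not_not] at h
      rcases Finset.mem_union.1 h with h | h
      · exact absurd h hy.2
      · exact ⟨inv y, h, Quotient.sound (Or.inr rfl)⟩
  have hin : ∀ y : R, Quotient.mk (pairSetoid hinv) y ∈ O →
      ∃ z ∈ O₁, Quotient.mk (pairSetoid hinv) z = Quotient.mk (pairSetoid hinv) y := by
    intro y hy
    exact Finset.mem_image.1 hy
  have hnotmem : ∀ z ∈ O₂, Quotient.mk (pairSetoid hinv) z ∉ O := by
    intro z hz h
    rw [hO, mem_image_mk] at h
    rcases h with h | h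
    · exact Finset.disjoint_left.1 hdisj h hz
    · exact hnotinv z (Finset.mem_union_right _ hz) (Finset.mem_union_left _ h)
  have key := two_transitive_of_coprime (G := G) O (by
      rw [hOcard, hcardB, Nat.add_sub_cancel_left]; exact hcop) (by
      intro a b a' b' ha ha' hb hb'
      obtain ⟨x, rfl⟩ := Quotient.exists_rep a
      obtain ⟨y, rfl⟩ := Quotient.exists_rep b
      obtain ⟨x', rfl⟩ := Quotient.exists_rep a'
      obtain ⟨y', rfl⟩ := Quotient.exists_rep b'
      obtain ⟨x, hx, h5⟩ := hin x ha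
      obtain ⟨x', hx', h6⟩ := hin x' ha'
      obtain ⟨y, hy, h7⟩ := hout y hb
      obtain ⟨y', hy', h8⟩ := hout y' hb'
      obtain ⟨g, hg1, hg2⟩ := hD x hx x' hx' y hy y' hy'
      refine ⟨g, ?_, ?_⟩
      · rw [← h5, ← h6, hsm, hg1]
      · rw [← h7, ← h8, hsm, hg2])
    (by
      obtain ⟨x, hx⟩ := hn₁
      exact ⟨_, Finset.mem_image_of_mem _ hx⟩)
    (by
      obtain ⟨y, hy⟩ := hn₂
      exact ⟨Quotient.mk (pairSetoid hinv) y, hnotmem y hy⟩)
    (Quotient.mk (pairSetoid hinv) x) (Quotient.mk (pairSetoid hinv) y)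
    (Quotient.mk (pairSetoid hinv) x') (Quotient.mk (pairSetoid hinv) y')
    (fun h => by
      rcases (Quotient.exact h : x = y ∨ x = inv y) with h' | h'
      · exact h1 h'.symm
      · exact h2 (by rw [h', hinv]))
    (fun h => by
      rcases (Quotient.exact h : x' = y' ∨ x' = inv y') with h' | h'
      · exact h3 h'.symm
      · exact h4 (by rw [h', hinv]))
  obtain ⟨g, hg1, hg2⟩ := key
  exact ⟨g, Quotient.exact hg1, Quotient.exact hg2⟩

open Classical in
theorem pairs_large [IsPretransitive G R]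
    (hinv : ∀ x, inv (inv x) = x) (hne : ∀ x, inv x ≠ x)
    (hG : ∀ (g : G) (x : R), g • inv x = inv (g • x))
    (n : ℕ) (hcard : Fintype.card R = 2 * n)
    (O₁ : Finset R) (hO₁ : ∀ x ∈ O₁, inv x ∉ O₁) (hlt : O₁.card < n) (hlarge : n < 2 * O₁.card)
    (hcop : O₁.card.Coprime (n - O₁.card))
    (hD : ∀ x ∈ O₁, ∀ x' ∈ O₁, ∀ b, b ∉ O₁ → inv b ∉ O₁ →
      ∃ g : G, g • x = x' ∧ (g • b = b ∨ g • b = inv b))
    (x y x' y' : R) (h1 : y ≠ x) (h2 : y ≠ inv x) (h3 : y' ≠ x') (h4 : y' ≠ inv x') :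
    ∃ g : G, (g • x = x' ∨ g • x = inv x') ∧ (g • y = y' ∨ g • y = inv y') := by
  let act : MulAction G (Quotient (pairSetoid hinv)) := pairAction hinv hG
  have hsm : ∀ (g : G) (x : R), g • (Quotient.mk (pairSetoid hinv) x) =
      Quotient.mk (pairSetoid hinv) (g • x) := fun g x => rfl
  have hpre : IsPretransitive G (Quotient (pairSetoid hinv)) := by
    refine ⟨fun a b => ?_⟩
    obtain ⟨x, rfl⟩ := Quotient.exists_rep a
    obtain ⟨y, rfl⟩ := Quotient.exists_rep b
    obtain ⟨g, hg⟩ := MulAction.exists_smul_eq G x y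
    exact ⟨g, by rw [hsm, hg]⟩
  set O : Finset (Quotient (pairSetoid hinv)) := O₁.image (Quotient.mk (pairSetoid hinv)) with hO
  have hOcard : O.card = O₁.card := card_image_mk hinv O₁ hO₁
  have hcardB : Fintype.card (Quotient (pairSetoid hinv)) = n := by
    have h5 := card_pairs hinv hne
    rw [← Nat.card_eq_fintype_card]
    omega
  have key := two_transitive_of_large (G := G) O (by rw [hOcard, hcardB]; exact hcop) (by
      intro a a' b ha ha' hb
      obtain ⟨x, hx, rfl⟩ := Finset.mem_image.1 ha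
      obtain ⟨x', hx', rfl⟩ := Finset.mem_image.1 ha'
      obtain ⟨b, rfl⟩ := Quotient.exists_rep b
      rw [hO, mem_image_mk, not_or] at hb
      obtain ⟨g, hg1, hg2⟩ := hD x hx x' hx' b hb.1 hb.2
      refine ⟨g, by rw [hsm, hg1], ?_⟩
      rw [hsm]
      exact Quotient.sound hg2)
    (by
      by_contra hcon
      push Not at hcon
      have h5 : O = Finset.univ := Finset.eq_univ_iff_forall.2 hcon
      have h6 : O.card = n := by rw [h5, Finset.card_univ, hcardB]
      omega)
    (by rw [hOcard, hcardB]; exact hlarge)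
    (Quotient.mk (pairSetoid hinv) x) (Quotient.mk (pairSetoid hinv) y)
    (Quotient.mk (pairSetoid hinv) x') (Quotient.mk (pairSetoid hinv) y')
    (fun h => by
      rcases (Quotient.exact h : x = y ∨ x = inv y) with h' | h'
      · exact h1 h'.symm
      · exact h2 (by rw [h', hinv]))
    (fun h => by
      rcases (Quotient.exact h : x' = y' ∨ x' = inv y') with h' | h'
      · exact h3 h'.symm
      · exact h4 (by rw [h', hinv]))
  obtain ⟨g, hg1, hg2⟩ := key
  exact ⟨g, Quotient.exact hg1, Quotient.exact hg2⟩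

open Classical in
theorem triples_large [IsPretransitive G R]
    (hinv : ∀ x, inv (inv x) = x) (hne : ∀ x, inv x ≠ x)
    (hG : ∀ (g : G) (x : R), g • inv x = inv (g • x))
    (n : ℕ) (hcard : Fintype.card R = 2 * n)
    (O₁ : Finset R) (hO₁ : ∀ x ∈ O₁, inv x ∉ O₁) (hlt : O₁.card + 2 ≤ n)
    (hlarge : n < 2 * O₁.card)
    (hcop : O₁.card.Coprime (n - O₁.card)) (hcop' : O₁.card.Coprime (n - O₁.card - 1))
    (hD : ∀ x ∈ O₁, ∀ x' ∈ O₁, ∃ g : G, g • x = x' ∧ ∀ b, b ∉ O₁ → inv b ∉ O₁ →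
      (g • b = b ∨ g • b = inv b))
    (x y z x' y' z' : R) (h1 : y ≠ x ∧ y ≠ inv x) (h2 : z ≠ y ∧ z ≠ inv y)
    (h3 : z ≠ x ∧ z ≠ inv x) (h1' : y' ≠ x' ∧ y' ≠ inv x') (h2' : z' ≠ y' ∧ z' ≠ inv y')
    (h3' : z' ≠ x' ∧ z' ≠ inv x') :
    ∃ g : G, (g • x = x' ∨ g • x = inv x') ∧ (g • y = y' ∨ g • y = inv y') ∧
      (g • z = z' ∨ g • z = inv z') := by
  let act : MulAction G (Quotient (pairSetoid hinv)) := pairAction hinv hG
  have hsm : ∀ (g : G) (x : R), g • (Quotient.mk (pairSetoid hinv) x) =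
      Quotient.mk (pairSetoid hinv) (g • x) := fun g x => rfl
  have hpre : IsPretransitive G (Quotient (pairSetoid hinv)) := by
    refine ⟨fun a b => ?_⟩
    obtain ⟨x, rfl⟩ := Quotient.exists_rep a
    obtain ⟨y, rfl⟩ := Quotient.exists_rep b
    obtain ⟨g, hg⟩ := MulAction.exists_smul_eq G x y
    exact ⟨g, by rw [hsm, hg]⟩
  set O : Finset (Quotient (pairSetoid hinv)) := O₁.image (Quotient.mk (pairSetoid hinv)) with hO
  have hOcard : O.card = O₁.card := card_image_mk hinv O₁ hO₁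
  have hcardB : Fintype.card (Quotient (pairSetoid hinv)) = n := by
    have h5 := card_pairs hinv hne
    rw [← Nat.card_eq_fintype_card]
    omega
  have hmk : ∀ u v : R, v ≠ u ∧ v ≠ inv u →
      Quotient.mk (pairSetoid hinv) u ≠ Quotient.mk (pairSetoid hinv) v := by
    intro u v huv h
    rcases (Quotient.exact h : u = v ∨ u = inv v) with h' | h'
    · exact huv.1 h'.symm
    · exact huv.2 (by rw [h', hinv])
  obtain ⟨g, hg1, hg2, hg3⟩ := three_transitive_of_large (G := G) O
    (by rw [hOcard, hcardB]; exact hcop) (by rw [hOcard, hcardB]; exact hcop') (by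
      intro a a' ha ha'
      obtain ⟨x, hx, rfl⟩ := Finset.mem_image.1 ha
      obtain ⟨x', hx', rfl⟩ := Finset.mem_image.1 ha'
      obtain ⟨g, hg1, hg2⟩ := hD x hx x' hx'
      refine ⟨g, by rw [hsm, hg1], fun b hb => ?_⟩
      obtain ⟨b, rfl⟩ := Quotient.exists_rep b
      rw [hO, mem_image_mk, not_or] at hb
      rw [hsm]
      exact Quotient.sound (hg2 b hb.1 hb.2))
    (by rw [hOcard, hcardB]; exact hlt)
    (by rw [hOcard, hcardB]; exact hlarge)
    _ _ _ _ _ _ (hmk _ _ h1) (hmk _ _ h2) (hmk _ _ h3) (hmk _ _ h1') (hmk _ _ h2') (hmk _ _ h3')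
  exact ⟨g, Quotient.exact hg1, Quotient.exact hg2, Quotient.exact hg3⟩

end Pool.Agent.H855
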