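import Mathlib
import Pool.Agent.H855.Block
import Pool.Agent.H855.Pairs

/-!
# Two coprime blocks
-/

namespace Pool.Agent.H855

open Pool.Agent.H925R2

set_option linter.unusedSectionVars false

section arith

theorem arith_two (N₁ N₂ a a' k₁ k₂ ε t₁ t₂ : ℤ) (z₁ z₂ : ℕ)
    (hε : ε = 1 ∨ ε = -1) (ha : 0 < a) (ha' : 0 < a') (hN₁ : 0 < N₁) (hN₂ : 0 < N₂)
    (hcop : IsCoprime N₁ N₂)
    (h1 : (k₁ + a) * t₁ = -ε * N₁ * t₂) (h2 : (k₂ + a) * t₂ = -ε * N₂ * t₁)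
    (ht₁ : t₁ ≠ 0) (c1 : IsCoprime t₁ N₁) (c2 : IsCoprime t₂ N₂)
    (hk₁ : -(N₁ - 1) ≤ k₁)
    (tr1 : N₁ * a = k₁ + a + z₁ * (a + a')) (tr2 : N₂ * a = k₂ + a + z₂ * (a + a')) : a = 1 := by
  have hεε : ε * ε = 1 := by rcases hε with h | h <;> rw [h] <;> norm_num
  obtain ⟨s₁, hs₁⟩ : N₁ ∣ k₁ + a := by
    have h3 : N₁ ∣ (k₁ + a) * t₁ := ⟨-ε * t₂, by rw [h1]; ring⟩
    exact c1.symm.dvd_of_dvd_mul_right h3
  obtain ⟨s₂, hs₂⟩ : N₂ ∣ k₂ + a := by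
    have h3 : N₂ ∣ (k₂ + a) * t₂ := ⟨-ε * t₁, by rw [h2]; ring⟩
    exact c2.symm.dvd_of_dvd_mul_right h3
  have e1 : s₁ * t₁ = -ε * t₂ := by
    apply mul_left_cancel₀ hN₁.ne'
    rw [hs₁] at h1
    linear_combination h1
  have e2 : s₂ * t₂ = -ε * t₁ := by
    apply mul_left_cancel₀ hN₂.ne'
    rw [hs₂] at h2
    linear_combination h2
  have e3 : s₁ * s₂ = 1 := by
    apply mul_right_cancel₀ ht₁
    linear_combination s₂ * e1 - ε * e2 + t₁ * hεε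
  have hs1 : s₁ = 1 := by
    rcases Int.eq_one_or_neg_one_of_mul_eq_one e3 with h | h
    · exact h
    · exfalso
      rw [h] at hs₁
      linarith
  have hs2 : s₂ = 1 := by rw [hs1, one_mul] at e3; exact e3
  rw [hs1, mul_one] at hs₁
  rw [hs2, mul_one] at hs₂
  rw [hs₁] at tr1
  rw [hs₂] at tr2
  obtain ⟨u, v, huv⟩ := hcop
  have h5 : (a + a') ∣ (a - 1) := by
    refine ⟨u * z₁ + v * z₂, ?_⟩
    linear_combination u * tr1 + v * tr2 - (a - 1) * huv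
  by_contra hne
  have h6 : 0 < a - 1 := by omega
  have h7 := Int.le_of_dvd h6 h5
  linarith

end arith

section

variable {R : Type*} [Fintype R] [DecidableEq R] {inv : R → R}
variable {G : Type*} [Group G] [Fintype G] [MulAction G R]

/-- The block sums `Σ_{y ∈ O} C x y`, `x ∈ O`, do not depend on `x`. -/
theorem block_sum_const (C : R → R → ℤ) (hCg : ∀ (g : G) x y, C (g • x) (g • y) = C x y)
    (D : Subgroup G) (O : Finset R)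
    (hO : ∀ x ∈ O, ∀ y ∈ O, ∃ d ∈ D, d • x = y) (hO' : ∀ d ∈ D, ∀ x ∈ O, d • x ∈ O)
    (x y : R) (hx : x ∈ O) (hy : y ∈ O) : ∑ z ∈ O, C x z = ∑ z ∈ O, C y z := by
  obtain ⟨d, hd, rfl⟩ := hO x hx y hy
  refine Finset.sum_bij (fun z _ => d • z) (fun z hz => hO' d hd z hz) ?_ ?_ ?_
  · intro a _ b _ h
    exact smul_left_cancel d h
  · intro b hb
    refine ⟨d⁻¹ • b, hO' _ (D.inv_mem hd) b hb, by simp⟩
  · intro z _
    rw [hCg]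

/-- **Two coprime blocks.** -/
theorem signType_two_blocks [MulAction.IsPretransitive G R]
    (hinv : ∀ x, inv (inv x) = x) (hne : ∀ x, inv x ≠ x)
    (hG : ∀ (g : G) (x : R), g • inv x = inv (g • x))
    (n : ℕ) (hcard : Fintype.card R = 2 * n)
    (D : Subgroup G) (O₁ O₂ : Finset R) (hdisj : Disjoint O₁ O₂) (hΦ : IsHalf inv (O₁ ∪ O₂))
    (h1 : ∀ x ∈ O₁, ∀ y ∈ O₁, ∃ d ∈ D, d • x = y) (h1' : ∀ d ∈ D, ∀ x ∈ O₁, d • x ∈ O₁)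
    (h2 : ∀ x ∈ O₂, ∀ y ∈ O₂, ∃ d ∈ D, d • x = y) (h2' : ∀ d ∈ D, ∀ x ∈ O₂, d • x ∈ O₂)
    (hcop : O₁.card.Coprime O₂.card) (hn₁ : O₁.Nonempty) (hn₂ : O₂.Nonempty)
    (c w : R → ℤ) (hc : ∀ x, c (inv x) = -c x) (hw : ∀ x, w (inv x) = -w x)
    (w₁ w₂ t₁ t₂ : ℤ) (hw1 : ∀ x ∈ O₁, w x = w₁) (hw2 : ∀ x ∈ O₂, w x = w₂)
    (hw₁ : w₁ ≠ 0) (hw₂ : w₂ ≠ 0) (habs : |w₁| ≠ |w₂|)
    (ht : w₁ * O₁.card * t₂ = w₂ * O₂.card * t₁) (ht₁ : t₁ ≠ 0)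
    (hpar : Odd n ∨ (IsCoprime t₁ (O₁.card : ℤ) ∧ IsCoprime t₂ (O₂.card : ℤ)))
    (hc0 : ∃ x, c x ≠ 0) (hrel : ∀ g : G, ∑ x, c x * w (g • x) = 0) : SignType G c := by
  classical
  have hprod := trans_pair D O₁ O₂ h1 h1' h2 h2' hcop
  have hpairs : ∀ x y x' y' : R, y ≠ x → y ≠ inv x → y' ≠ x' → y' ≠ inv x' →
      ∃ g : G, (g • x = x' ∨ g • x = inv x') ∧ (g • y = y' ∨ g • y = inv y') := by
    intro x y x' y' e1 e2 e3 e4
    refine pairs_two hinv hG O₁ O₂ hdisj hΦ hcop hn₁ hn₂ ?_ x y x' y' e1 e2 e3 e4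
    intro x hx x' hx' y hy y' hy'
    obtain ⟨d, _, h3⟩ := hprod x x' y y' hx hx' hy hy'
    exact ⟨d, h3⟩
  obtain ⟨o₁, ho₁⟩ := hn₁
  obtain ⟨o₂, ho₂⟩ := hn₂
  have hw0 : ∃ x, w x ≠ 0 := ⟨o₁, by rw [hw1 o₁ ho₁]; exact hw₁⟩
  rcases hpar with hodd | ⟨c1, c2⟩
  · rcases signType_of_rel hinv hne hG hpairs n hcard (Or.inl hodd) c w hc hw hc0 hw0 hrel with
      h | h
    · exact h
    · exfalso
      apply habs
      obtain ⟨g, hg⟩ := MulAction.exists_smul_eq G o₁ o₂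
      rcases h g with h | h
      · rw [← hw1 o₁ ho₁, ← hw2 o₂ ho₂, ← hg, h o₁]
      · rw [← hw1 o₁ ho₁, ← hw2 o₂ ho₂, ← hg, h o₁, abs_neg]
  obtain ⟨C, a, a', ha, ha', haa, hC0, hC1, hCg, hCi, hCw, hCc, hCs, hCC⟩ :=
    twograph2 hinv hne hG hpairs n hcard c w hc hw hc0 hw0 hrel
  have hnotinv : ∀ x ∈ O₁ ∪ O₂, ∀ y ∈ O₁ ∪ O₂, y ≠ inv x := by
    rintro x hx y hy rfl
    exact ((hΦ x).1 hx) hy
  have hneq : ∀ x ∈ O₁, ∀ y ∈ O₂, y ≠ x := by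
    rintro x hx y hy rfl
    exact Finset.disjoint_left.1 hdisj hx hy
  -- the constant off diagonal value
  set ε := C o₁ o₂ with hεdef
  have hε : ε = 1 ∨ ε = -1 := hC1 o₁ o₂ (hneq _ ho₁ _ ho₂)
    (hnotinv _ (Finset.mem_union_left _ ho₁) _ (Finset.mem_union_right _ ho₂))
  have hCε : ∀ x ∈ O₁, ∀ y ∈ O₂, C x y = ε := by
    intro x hx y hy
    obtain ⟨d, _, h3, h4⟩ := hprod o₁ x o₂ y ho₁ hx ho₂ hy
    rw [← h3, ← h4, hCg]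
  set k₁ := ∑ y ∈ O₁, C o₁ y with hk₁
  set k₂ := ∑ y ∈ O₂, C o₂ y with hk₂
  have hk1 : ∀ x ∈ O₁, ∑ y ∈ O₁, C x y = k₁ := fun x hx =>
    block_sum_const C hCg D O₁ h1 h1' x o₁ hx ho₁
  have hk2 : ∀ x ∈ O₂, ∑ y ∈ O₂, C x y = k₂ := fun x hx =>
    block_sum_const C hCg D O₂ h2 h2' x o₂ hx ho₂
  -- the eigenvector equations
  have heig : ∀ x, ∑ y ∈ O₁, C x y * w y + ∑ y ∈ O₂, C x y * w y = -a * w x := by
    intro x
    have h3 := hΦ.sum_symm hinv (fun y => C x y * w y) (fun y => by simp only [hCi, hw]; ring)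
    rw [hCw x, Finset.sum_union hdisj] at h3
    linarith
  have q1 : (k₁ + a) * w₁ = -ε * O₂.card * w₂ := by
    have h3 := heig o₁
    rw [Finset.sum_congr rfl (fun y hy => by rw [hw1 y hy]), ← Finset.sum_mul,
      Finset.sum_congr (rfl : O₂ = O₂) (fun y hy => by rw [hCε o₁ ho₁ y hy, hw2 y hy]),
      Finset.sum_const, nsmul_eq_mul, ← hk₁, hw1 o₁ ho₁] at h3
    linarith
  have q2 : (k₂ + a) * w₂ = -ε * O₁.card * w₁ := by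
    have h3 := heig o₂
    rw [Finset.sum_congr (rfl : O₂ = O₂) (fun y hy => by rw [hw2 y hy]), ← Finset.sum_mul,
      Finset.sum_congr (rfl : O₁ = O₁) (fun y hy => by
        rw [hCs o₂ y, hCε y hy o₂ ho₂, hw1 y hy]),
      Finset.sum_const, nsmul_eq_mul, ← hk₂, hw2 o₂ ho₂] at h3
    linarith
  have p1 : (k₁ + a) * t₁ = -ε * O₁.card * t₂ := by
    apply mul_left_cancel₀ hw₁
    linear_combination t₁ * q1 + ε * ht
  have p2 : (k₂ + a) * t₂ = -ε * O₂.card * t₁ := by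
    apply mul_left_cancel₀ hw₂
    linear_combination t₂ * q2 - ε * ht
  obtain ⟨z₁, hz₁⟩ := block_trace hinv C hC0 hC1 hCi hCs O₁ O₂ hdisj hΦ
    (fun x hx z hz y hy => by rw [hCε x hx y hy, hCε z hz y hy]) k₁ hk1 a a' ha ha' hCC ⟨o₁, ho₁⟩
  obtain ⟨z₂, hz₂⟩ := block_trace hinv C hC0 hC1 hCi hCs O₂ O₁ hdisj.symm
    (by rw [Finset.union_comm]; exact hΦ)
    (fun x hx z hz y hy => by rw [hCs x y, hCs z y, hCε y hy x hx, hCε y hy z hz]) k₂ hk2 a a' ha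
    ha' hCC ⟨o₂, ho₂⟩
  have hk₁le : -((O₁.card : ℤ) - 1) ≤ k₁ := by
    have h3 : ∀ y ∈ O₁.erase o₁, (-1 : ℤ) ≤ C o₁ y := by
      intro y hy
      rcases hC1 o₁ y (Finset.ne_of_mem_erase hy) (hnotinv _ (Finset.mem_union_left _ ho₁) _
        (Finset.mem_union_left _ (Finset.mem_of_mem_erase hy))) with h | h <;> rw [h] <;> norm_num
    have h4 := Finset.card_nsmul_le_sum (O₁.erase o₁) (fun y => C o₁ y) (-1) h3
    rw [Finset.card_erase_of_mem ho₁] at h4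
    have h5 : k₁ = C o₁ o₁ + ∑ y ∈ O₁.erase o₁, C o₁ y := (Finset.add_sum_erase _ _ ho₁).symm
    rw [hC0 o₁ o₁ (Or.inl rfl), zero_add] at h5
    rw [h5]
    have h6 : 0 < O₁.card := Finset.card_pos.2 ⟨o₁, ho₁⟩
    rw [nsmul_eq_mul, Nat.cast_sub (by omega)] at h4
    push_cast at h4
    linarith
  have hN₁ : (0 : ℤ) < O₁.card := by exact_mod_cast Finset.card_pos.2 ⟨o₁, ho₁⟩
  have hN₂ : (0 : ℤ) < O₂.card := by exact_mod_cast Finset.card_pos.2 ⟨o₂, ho₂⟩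
  have ha1 : a = 1 := arith_two O₁.card O₂.card a a' k₁ k₂ ε t₁ t₂ z₁ z₂ hε ha ha' hN₁ hN₂
    (Nat.isCoprime_iff_coprime.2 hcop) p1 p2 ht₁ c1 c2 hk₁le hz₁ hz₂
  rw [ha1, one_mul] at haa
  exact signType_of_full C hCg c hG hc a' hCc
    (fun u hu hlu hu0 => full_of_max hinv hne C hC0 hC1 hCi n hcard u hu a'
      (by rw [abs_of_pos ha', haa]) hlu hu0) hc0

end

end Pool.Agent.H855
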