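import Mathlib
import Pool.Graph.R_seed8.H371R3.Tate.DT
import Pool.Agent.H855.Local
import Pool.Agent.H855.TwoBlocks

/-!
# Assembling: sign type relations and local orbits
-/

namespace Pool.Agent.H855

open Polynomial Pool.Agent.H925R2

set_option linter.unusedSectionVars false

section abstract

variable {R : Type*} [Fintype R] [DecidableEq R] {inv : R → R}
variable {G : Type*} [Group G] [Fintype G] [MulAction G R]

/-- A set containing at most one element of each pair, with half of the elements, is a half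
system. -/
theorem isHalf_of_card (hinv : ∀ x, inv (inv x) = x) (n : ℕ) (hcard : Fintype.card R = 2 * n)
    (Φ : Finset R) (hΦ : ∀ x ∈ Φ, inv x ∉ Φ) (hc : Φ.card = n) : IsHalf inv Φ := by
  intro x
  refine ⟨hΦ x, fun hx => ?_⟩
  have h1 : (Φ.image inv).card = n := by
    rw [Finset.card_image_of_injective _ (fun a b h => by
      have := congrArg inv h
      rwa [hinv, hinv] at this), hc]
  have h2 : Disjoint Φ (Φ.image inv) := by
    rw [Finset.disjoint_left]
    intro a ha ha'
    obtain ⟨b, hb, rfl⟩ := Finset.mem_image.1 ha'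
    exact hΦ b hb ha
  have h3 : Φ ∪ Φ.image inv = Finset.univ := by
    apply Finset.eq_univ_of_card
    rw [Finset.card_union_of_disjoint h2, h1, hc, hcard]
    ring
  have h4 : x ∈ Φ ∪ Φ.image inv := by rw [h3]; exact Finset.mem_univ _
  rcases Finset.mem_union.1 h4 with h | h
  · exact h
  · obtain ⟨b, hb, rfl⟩ := Finset.mem_image.1 h
    rw [hinv] at hx
    exact absurd hb hx

/-- The absolute value of a sign type vector is constant on orbits. -/
theorem signType_abs {v : R → ℤ} (hs : SignType G v) (g : G) (x : R) : |v (g • x)| = |v x| := by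
  rcases hs g with h | h
  · rw [h]
  · rw [h, abs_neg]

/-- If the cardinality of a stable set is odd, the group acts on a nonzero sign type vector
trivially. -/
theorem signType_fixed_of_odd [MulAction.IsPretransitive G R] {v : R → ℤ} (hs : SignType G v)
    (hv0 : ∃ x, v x ≠ 0) (D : Subgroup G) (O : Finset R) (hO : ∀ d ∈ D, ∀ x ∈ O, d • x ∈ O)
    (hodd : Odd O.card) (d : G) (hd : d ∈ D) (x : R) : v (d • x) = v x := by
  rcases hs d with h | h
  · exact h x
  exfalso
  obtain ⟨x₀, hx₀⟩ := hv0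
  have hval : ∀ y, v y = v x₀ ∨ v y = -v x₀ := by
    intro y
    obtain ⟨g, hg⟩ := MulAction.exists_smul_eq G x₀ y
    rcases hs g with h | h
    · left; rw [← hg, h]
    · right; rw [← hg, h]
  have h1 : ∑ y ∈ O, v y = -∑ y ∈ O, v y := by
    rw [← Finset.sum_neg_distrib]
    have h2 : ∑ y ∈ O, v (d • y) = ∑ y ∈ O, v y := by
      refine Finset.sum_bij (fun z _ => d • z) (fun z hz => hO d hd z hz) ?_ ?_ ?_
      · intro a _ b _ h
        exact smul_left_cancel d h
      · intro b hb
        exact ⟨d⁻¹ • b, hO _ (D.inv_mem hd) b hb, by simp⟩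
      · intro z _
        rfl
    rw [← h2]
    exact Finset.sum_congr rfl fun y _ => h y
  have h3 : ∑ y ∈ O, v y = 0 := by omega
  have h4 : ∀ y ∈ O, (2 * v x₀) ∣ (v y - v x₀) := by
    intro y _
    rcases hval y with h | h
    · rw [h]; simp
    · rw [h]; exact ⟨-1, by ring⟩
  have h5 := Finset.dvd_sum h4
  rw [Finset.sum_sub_distrib, h3, Finset.sum_const, nsmul_eq_mul] at h5
  obtain ⟨t, ht⟩ := h5
  obtain ⟨s, hs⟩ := hodd
  have h6 : v x₀ * (2 * t + O.card) = 0 := by linarith
  have h7 := (mul_eq_zero.1 h6).resolve_left hx₀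
  rw [hs] at h7
  push_cast at h7
  omega

/-- The numerical consequence of a sign type relation for two coprime blocks. -/
theorem two_blocks_balance [MulAction.IsPretransitive G R]
    (hinv : ∀ x, inv (inv x) = x)
    (D : Subgroup G) (O₁ O₂ : Finset R) (hdisj : Disjoint O₁ O₂) (hΦ : IsHalf inv (O₁ ∪ O₂))
    (h1 : ∀ x ∈ O₁, ∀ y ∈ O₁, ∃ d ∈ D, d • x = y) (h1' : ∀ d ∈ D, ∀ x ∈ O₁, d • x ∈ O₁)
    (h2 : ∀ x ∈ O₂, ∀ y ∈ O₂, ∃ d ∈ D, d • x = y) (h2' : ∀ d ∈ D, ∀ x ∈ O₂, d • x ∈ O₂)
    (hcop : O₁.card.Coprime O₂.card) (hn₁ : O₁.Nonempty) (hn₂ : O₂.Nonempty)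
    (c w : R → ℤ) (hc : ∀ x, c (inv x) = -c x) (hw : ∀ x, w (inv x) = -w x)
    (w₁ w₂ : ℤ) (hw1 : ∀ x ∈ O₁, w x = w₁) (hw2 : ∀ x ∈ O₂, w x = w₂)
    (hs : SignType G c) (hc0 : ∃ x, c x ≠ 0) (hrel : ∑ x, c x * w x = 0) :
    |(O₁.card : ℤ) * w₁| = |(O₂.card : ℤ) * w₂| := by
  have hfix : ∀ d ∈ D, ∀ x, c (d • x) = c x := by
    intro d hd x
    rcases Nat.even_or_odd O₁.card with he | ho
    · have ho2 : Odd O₂.card := by
        rw [← Nat.not_even_iff_odd]
        intro he2
        have h3 := Nat.dvd_gcd he.two_dvd he2.two_dvd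
        rw [hcop] at h3
        norm_num at h3
      exact signType_fixed_of_odd hs hc0 D O₂ h2' ho2 d hd x
    · exact signType_fixed_of_odd hs hc0 D O₁ h1' ho d hd x
  obtain ⟨o₁, ho₁⟩ := hn₁
  obtain ⟨o₂, ho₂⟩ := hn₂
  have hc1 : ∀ x ∈ O₁, c x = c o₁ := by
    intro x hx
    obtain ⟨d, hd, rfl⟩ := h1 o₁ ho₁ x hx
    exact hfix d hd o₁
  have hc2 : ∀ x ∈ O₂, c x = c o₂ := by
    intro x hx
    obtain ⟨d, hd, rfl⟩ := h2 o₂ ho₂ x hx
    exact hfix d hd o₂
  have h3 := hΦ.sum_symm hinv (fun x => c x * w x) (fun x => by simp only [hc, hw]; ring)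
  rw [hrel, Finset.sum_union hdisj, Finset.sum_congr rfl (fun x hx => by rw [hc1 x hx, hw1 x hx]),
    Finset.sum_congr (rfl : O₂ = O₂) (fun x hx => by rw [hc2 x hx, hw2 x hx]), Finset.sum_const,
    Finset.sum_const, nsmul_eq_mul, nsmul_eq_mul] at h3
  have h4 : c o₁ * ((O₁.card : ℤ) * w₁) = -(c o₂ * ((O₂.card : ℤ) * w₂)) := by linarith
  have h5 : |c o₂| = |c o₁| := by
    obtain ⟨g, hg⟩ := MulAction.exists_smul_eq G o₁ o₂
    rw [← hg]; exact signType_abs hs g o₁
  have h6 : c o₁ ≠ 0 := by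
    obtain ⟨x, hx⟩ := hc0
    intro h
    obtain ⟨g, hg⟩ := MulAction.exists_smul_eq G o₁ x
    have h7 := signType_abs hs g o₁
    rw [hg, h, abs_zero, abs_eq_zero] at h7
    exact hx h7
  have h7 := congrArg abs h4
  rw [abs_neg, abs_mul (c o₁), abs_mul (c o₂), h5] at h7
  exact mul_left_cancel₀ (abs_ne_zero.2 h6) h7

end abstract

section quad

variable {f : ℚ[X]} (hf : Irreducible f) {q : ℚ} (hq : 0 < q)
  (hweil : ∀ z : ℂ, aeval z f = 0 → ‖z‖ ^ 2 = (q : ℝ))

open Classical in
/-- A sign type relation comes from an imaginary quadratic subfield over which the deviations have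
sum zero. -/
theorem quad_of_signType (p : ℕ) [Fact p.Prime] (e : f.SplittingField →ₐ[ℚ] PadicAlgCl p)
    (c : f.rootSet f.SplittingField → ℤ) (hc : ∀ x, c (rinv hf hq hweil x) = - c x)
    (hc0 : ∃ x, c x ≠ 0) (hs : SignType f.Gal c)
    (hrel : ∑ x : f.rootSet f.SplittingField, (c x : ℝ) * dev p q (e x.1) = 0) :
    ∃ (P : ℚ[X]) (n : ℕ), 0 < n ∧ f ∣ P ^ 2 + C (n : ℚ) ∧
      ∀ t : PadicAlgCl p, t ^ 2 = -(n : PadicAlgCl p) →
        ∑ α : f.rootSet (PadicAlgCl p) with aeval α.1 P = t, dev p q α.1 = 0 := by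
  have hroot : ∀ x : f.rootSet f.SplittingField, aeval (e x.1) f = 0 := by
    intro x
    rw [aeval_algHom_apply, (mem_rootSet.1 x.2).2, map_zero]
  obtain ⟨P, n, x₀, hn, hP, hx₀, hval⟩ :=
    Pool.Agent.H371R3.Tate.exists_quad hf hq hweil c hc hc0 hs
  have hP0 : (aeval x₀.1 P) ^ 2 = -(n : f.SplittingField) := by
    obtain ⟨Q, hQ⟩ := hP
    have h1 := congrArg (aeval x₀.1) hQ
    rw [map_mul, (mem_rootSet.1 x₀.2).2, zero_mul, map_add, map_pow, aeval_C] at h1
    simp only [map_natCast] at h1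
    linear_combination h1
  have hPne : aeval x₀.1 P ≠ 0 := by
    intro h
    rw [h] at hP0
    have : (n : f.SplittingField) = 0 := by
      have h2 : (0 : f.SplittingField) ^ 2 = 0 := by norm_num
      rw [h2] at hP0
      linear_combination hP0
    exact hn.ne' (by exact_mod_cast this)
  have hpn : aeval x₀.1 P ≠ - aeval x₀.1 P := by
    intro h
    apply hPne
    have h4 : (2 : f.SplittingField) * aeval x₀.1 P = 0 := by linear_combination h
    exact (mul_eq_zero.1 h4).resolve_left two_ne_zero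
  refine ⟨P, n, hn, hP, fun t ht => ?_⟩
  -- the sum over a value `e s`, transferred to the splitting field
  have h3 : ∀ s : f.SplittingField,
      ∑ α : f.rootSet (PadicAlgCl p) with aeval α.1 P = e s, dev p q α.1 =
      ∑ x : f.rootSet f.SplittingField with aeval x.1 P = s, dev p q (e x.1) := by
    intro s
    symm
    refine Finset.sum_bij (fun x _ => (⟨e x.1, mem_rootSet.2 ⟨hf.ne_zero, hroot x⟩⟩ :
      f.rootSet (PadicAlgCl p))) ?_ ?_ ?_ ?_
    · intro x hx
      rw [Finset.mem_filter] at hx ⊢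
      refine ⟨Finset.mem_univ _, ?_⟩
      change aeval (e x.1) P = _
      rw [aeval_algHom_apply, hx.2]
    · intro x _ y _ h
      exact Subtype.ext (e.injective (congrArg Subtype.val h))
    · intro α hα
      rw [Finset.mem_filter] at hα
      obtain ⟨x, hx⟩ := exists_root_eq hf e α.1 (mem_rootSet.1 α.2).2
      refine ⟨x, ?_, Subtype.ext hx⟩
      rw [Finset.mem_filter]
      refine ⟨Finset.mem_univ _, ?_⟩
      have h11 : e (aeval x.1 P) = e s := by
        rw [← aeval_algHom_apply, hx, hα.2]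
      exact e.injective h11
    · intro x _
      rfl
  set Φ : Finset (f.rootSet f.SplittingField) :=
    Finset.univ.filter (fun x => aeval x.1 P = aeval x₀.1 P) with hΦdef
  have hmem : ∀ x, x ∈ Φ ↔ c x = c x₀ := by
    intro x
    rw [hΦdef, Finset.mem_filter]
    constructor
    · rintro ⟨_, h⟩
      rcases hval x with h4 | h4
      · exact h4.2
      · exact absurd (h.symm.trans h4.1) hpn
    · intro h
      refine ⟨Finset.mem_univ _, ?_⟩
      rcases hval x with h4 | h4
      · exact h4.1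
      · exfalso
        have := h4.2
        rw [h] at this
        exact hx₀ (by omega)
  have hhalf : IsHalf (rinv hf hq hweil) Φ := by
    intro x
    rw [hmem, hmem, hc]
    rcases hval x with h4 | h4
    · rw [h4.2]
      constructor
      · intro _ h; exact hx₀ (by omega)
      · intro _; rfl
    · rw [h4.2]
      constructor
      · intro h _; exact hx₀ (by omega)
      · intro h; exact absurd (by ring) h
  have h5 := hhalf.sum_symm (rinv_rinv hf hq hweil) (fun x => (c x : ℝ) * dev p q (e x.1))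
    (fun x => by simp only [hc, dev_rinv]; push_cast; ring)
  rw [hrel] at h5
  have h7 : ∑ x ∈ Φ, (c x : ℝ) * dev p q (e x.1) = c x₀ * ∑ x ∈ Φ, dev p q (e x.1) := by
    rw [Finset.mul_sum]
    exact Finset.sum_congr rfl fun x hx => by rw [(hmem x).1 hx]
  have h8 : (c x₀ : ℝ) * ∑ x ∈ Φ, dev p q (e x.1) = 0 := by linarith
  have hx₀' : (c x₀ : ℝ) ≠ 0 := by exact_mod_cast hx₀
  have h9 := (mul_eq_zero.1 h8).resolve_left hx₀'
  -- the two possible values of `t`
  have ht2 : t = e (aeval x₀.1 P) ∨ t = e (-aeval x₀.1 P) := by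
    have h10 : (t - e (aeval x₀.1 P)) * (t + e (aeval x₀.1 P)) = 0 := by
      have h11 : (e (aeval x₀.1 P)) ^ 2 = -(n : PadicAlgCl p) := by
        rw [← map_pow, hP0, map_neg, map_natCast]
      linear_combination ht - h11
    rcases mul_eq_zero.1 h10 with h | h
    · left; exact sub_eq_zero.1 h
    · right
      rw [map_neg]
      exact eq_neg_of_add_eq_zero_left h
  rcases ht2 with rfl | rfl
  · rw [h3]
    exact h9
  · rw [h3]
    have h12 : ∀ x : f.rootSet f.SplittingField,
        x ∈ Finset.univ.filter (fun x : f.rootSet f.SplittingField =>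
          aeval x.1 P = -aeval x₀.1 P) ↔ rinv hf hq hweil x ∈ Φ := by
      intro x
      rw [Finset.mem_filter, hmem, hc]
      rcases hval x with h4 | h4
      · rw [h4.2]
        constructor
        · rintro ⟨_, h⟩
          exact absurd (h4.1.symm.trans h) hpn
        · intro h
          exact absurd (by omega : c x₀ = 0) hx₀
      · rw [h4.2]
        constructor
        · intro _; ring
        · intro _; exact ⟨Finset.mem_univ _, h4.1⟩
    have h13 : ∑ x : f.rootSet f.SplittingField with aeval x.1 P = -aeval x₀.1 P,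
        dev p q (e x.1) = ∑ x ∈ Φ, - dev p q (e x.1) := by
      refine Finset.sum_nbij' (rinv hf hq hweil) (rinv hf hq hweil) ?_ ?_ ?_ ?_ ?_
      · intro x hx
        exact (h12 x).1 hx
      · intro x hx
        exact (h12 _).2 (by rw [rinv_rinv]; exact hx)
      · intro x _; exact rinv_rinv hf hq hweil x
      · intro x _; exact rinv_rinv hf hq hweil x
      · intro x _
        rw [dev_rinv]
        ring
    rw [h13, Finset.sum_neg_distrib, h9, neg_zero]

end quad

end Pool.Agent.H855
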