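import Mathlib
import Pool.Agent.H855.Assemble

/-!
# Two coprime local orbits: relations
-/

namespace Pool.Agent.H855

open Polynomial Pool.Agent.H925R2

section

variable {f : ℚ[X]} (hf : Irreducible f) {q : ℚ} (hq : 0 < q)
  (hweil : ∀ z : ℂ, aeval z f = 0 → ‖z‖ ^ 2 = (q : ℝ))

open Classical in
/-- The local orbits of two roots whose local degrees add up to `g` form a half system, provided
they and their inverses are different. -/
theorem half_of_two (g : ℕ) (hdeg : f.natDegree = 2 * g)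
    {p : ℕ} [Fact p.Prime] (e : f.SplittingField →ₐ[ℚ] PadicAlgCl p)
    (x₁ x₂ : f.rootSet f.SplittingField)
    (hsum : (lmin e x₁).natDegree + (lmin e x₂).natDegree = g)
    (h11 : lmin e (rinv hf hq hweil x₁) ≠ lmin e x₁)
    (h22 : lmin e (rinv hf hq hweil x₂) ≠ lmin e x₂)
    (h12 : lmin e x₁ ≠ lmin e x₂)
    (h12' : lmin e (rinv hf hq hweil x₁) ≠ lmin e x₂) :
    Disjoint (lorb e x₁) (lorb e x₂) ∧ IsHalf (rinv hf hq hweil) (lorb e x₁ ∪ lorb e x₂) := by
  have hinv2 : ∀ x y : f.rootSet f.SplittingField, lmin e x = lmin e y →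
      lmin e (rinv hf hq hweil x) = lmin e (rinv hf hq hweil y) := by
    intro x y h
    obtain ⟨σ, hσ, rfl⟩ := exists_decomp_of_lmin e x y h
    rw [← smul_rinv, lmin_smul e σ hσ]
  have hdisj : Disjoint (lorb e x₁) (lorb e x₂) := by
    rw [Finset.disjoint_left]
    intro y h1 h2
    rw [mem_lorb] at h1 h2
    exact h12 (h1.symm.trans h2)
  refine ⟨hdisj, isHalf_of_card (rinv_rinv hf hq hweil) g (by rw [card_roots hf, hdeg]) _ ?_ ?_⟩
  · intro y hy hy'
    rw [Finset.mem_union, mem_lorb, mem_lorb] at hy hy'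
    rcases hy with h | h
    · have h3 := hinv2 _ _ h
      rcases hy' with h4 | h4
      · exact h11 (h3.symm.trans h4)
      · exact h12' (h3.symm.trans h4)
    · have h3 := hinv2 _ _ h
      rcases hy' with h4 | h4
      · have h5 := hinv2 _ _ (h3.symm.trans h4)
        rw [rinv_rinv] at h5
        exact h12' h5.symm
      · exact h22 (h3.symm.trans h4)
  · rw [Finset.card_union_of_disjoint hdisj, card_lorb e hf, card_lorb e hf, hsum]

theorem two_coprime_core (g : ℕ) (hdeg : f.natDegree = 2 * g)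
    {p : ℕ} [Fact p.Prime] (e : f.SplittingField →ₐ[ℚ] PadicAlgCl p)
    (x₁ x₂ : f.rootSet f.SplittingField)
    (hsum : (lmin e x₁).natDegree + (lmin e x₂).natDegree = g)
    (hcop : (lmin e x₁).natDegree.Coprime (lmin e x₂).natDegree)
    (hd₁ : dev p q (e x₁.1) ≠ 0) (hd₂ : dev p q (e x₂.1) ≠ 0)
    (habs : |dev p q (e x₁.1)| ≠ |dev p q (e x₂.1)|)
    (t₁ t₂ : ℤ) (ht : dev p q (e x₁.1) * (lmin e x₁).natDegree * t₂ =
      dev p q (e x₂.1) * (lmin e x₂).natDegree * t₁) (ht₁ : t₁ ≠ 0)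
    (hpar : Odd g ∨ (IsCoprime t₁ ((lmin e x₁).natDegree : ℤ) ∧
      IsCoprime t₂ ((lmin e x₂).natDegree : ℤ)))
    (c : f.rootSet f.SplittingField → ℤ) (hc : ∀ x, c (rinv hf hq hweil x) = - c x)
    (hc0 : ∃ x, c x ≠ 0)
    (hrel : ∀ g : f.Gal, ∑ x : f.rootSet f.SplittingField, (c x : ℝ) *
        dev p q (e (g • x : f.rootSet f.SplittingField).1) = 0) :
    SignType f.Gal c ∧ |(lmin e x₁).natDegree * dev p q (e x₁.1)| =
      |(lmin e x₂).natDegree * dev p q (e x₂.1)| := by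
  classical
  have _ : MulAction.IsPretransitive f.Gal (f.rootSet f.SplittingField) := gal_pretransitive hf
  have hroot : ∀ x : f.rootSet f.SplittingField, aeval (e x.1) f = 0 := by
    intro x
    rw [aeval_algHom_apply, (mem_rootSet.1 x.2).2, map_zero]
  obtain ⟨κ, U, hκ, hU⟩ := exists_int_dev p hf.ne_zero (padic_root_ne_zero hf hq hweil p) hq.ne'
  set w : f.rootSet f.SplittingField → ℤ := fun x => U (e x.1) with hw
  have hdev : ∀ x : f.rootSet f.SplittingField, dev p q (e x.1) = κ * w x := fun x => hU _ (hroot x)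
  have hwanti : ∀ x, w (rinv hf hq hweil x) = - w x := by
    intro x
    have h1 := dev_rinv hf hq hweil p e x
    rw [hdev, hdev, ← mul_neg] at h1
    have h2 := mul_left_cancel₀ hκ.ne' h1
    exact_mod_cast h2
  have hns : ∃ α : PadicAlgCl p, aeval α f = 0 ∧ dev p q α ≠ 0 := ⟨_, hroot x₁, hd₁⟩
  have hne : ∀ x, rinv hf hq hweil x ≠ x := rinv_ne_of_dev hf hq hweil p e hns
  have hrel' : ∀ g : f.Gal, ∑ x, c x * w (g • x) = 0 := by
    intro g
    have h1 := hrel g
    have h2 : ∀ x : f.rootSet f.SplittingField, (c x : ℝ) *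
        dev p q (e (g • x : f.rootSet f.SplittingField).1) = κ * ((c x * w (g • x) : ℤ) : ℝ) := by
      intro x
      rw [hdev]
      push_cast
      ring
    rw [Finset.sum_congr rfl (fun x _ => h2 x), ← Finset.mul_sum] at h1
    have h3 := (mul_eq_zero.1 h1).resolve_left hκ.ne'
    exact_mod_cast h3
  have hwl : ∀ x y : f.rootSet f.SplittingField, lmin e x = lmin e y → w x = w y := by
    intro x y h
    have h1 := dev_eq_of_lmin e q x y h
    rw [hdev, hdev] at h1
    exact_mod_cast mul_left_cancel₀ hκ.ne' h1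
  have hne1 : ∀ x, w x ≠ 0 → lmin e (rinv hf hq hweil x) ≠ lmin e x := by
    intro x hx h
    have h1 := hwl _ _ h
    rw [hwanti] at h1
    omega
  have hw₁ : w x₁ ≠ 0 := by
    intro h; apply hd₁; rw [hdev, h]; simp
  have hw₂ : w x₂ ≠ 0 := by
    intro h; apply hd₂; rw [hdev, h]; simp
  have habs' : |w x₁| ≠ |w x₂| := by
    intro h
    apply habs
    rw [hdev, hdev, abs_mul, abs_mul, ← Int.cast_abs, ← Int.cast_abs, h]
  obtain ⟨hdisj, hΦ⟩ := half_of_two hf hq hweil g hdeg e x₁ x₂ hsum (hne1 x₁ hw₁) (hne1 x₂ hw₂)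
    (fun h => habs' (by rw [hwl _ _ h])) (fun h => habs' (by
      have h1 := hwl _ _ h
      rw [hwanti] at h1
      rw [← h1, abs_neg]))
  have hcard1 := card_lorb e hf x₁
  have hcard2 := card_lorb e hf x₂
  have hcop' : (lorb e x₁).card.Coprime (lorb e x₂).card := by rw [hcard1, hcard2]; exact hcop
  have hn₁ : (lorb e x₁).Nonempty := ⟨x₁, (mem_lorb e x₁ x₁).2 rfl⟩
  have hn₂ : (lorb e x₂).Nonempty := ⟨x₂, (mem_lorb e x₂ x₂).2 rfl⟩
  have hw1 : ∀ x ∈ lorb e x₁, w x = w x₁ := fun x hx => hwl _ _ ((mem_lorb e x₁ x).1 hx)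
  have hw2 : ∀ x ∈ lorb e x₂, w x = w x₂ := fun x hx => hwl _ _ ((mem_lorb e x₂ x).1 hx)
  have hcardR : Fintype.card (f.rootSet f.SplittingField) = 2 * g := by rw [card_roots hf, hdeg]
  have hs : SignType f.Gal c := by
    refine signType_two_blocks (rinv_rinv hf hq hweil) hne (smul_rinv hf hq hweil) g hcardR
      (decomp e) (lorb e x₁) (lorb e x₂) hdisj hΦ
      (fun x hx y hy => lorb_trans e x₁ x y hx hy) (fun d hd x hx => lorb_stable e x₁ x d hd hx)
      (fun x hx y hy => lorb_trans e x₂ x y hx hy) (fun d hd x hx => lorb_stable e x₂ x d hd hx)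
      hcop' hn₁ hn₂ c w hc hwanti (w x₁) (w x₂) t₁ t₂ hw1 hw2 hw₁ hw₂ habs' ?_ ht₁ ?_ hc0 hrel'
    · rw [hcard1, hcard2]
      rw [hdev, hdev] at ht
      have h1 : κ * ((w x₁ * (lmin e x₁).natDegree * t₂ : ℤ) : ℝ) =
          κ * ((w x₂ * (lmin e x₂).natDegree * t₁ : ℤ) : ℝ) := by
        push_cast
        linarith
      exact_mod_cast mul_left_cancel₀ hκ.ne' h1
    · rw [hcard1, hcard2]
      exact hpar
  refine ⟨hs, ?_⟩
  have h1 := two_blocks_balance (rinv_rinv hf hq hweil) (decomp e) (lorb e x₁) (lorb e x₂) hdisj hΦ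
    (fun x hx y hy => lorb_trans e x₁ x y hx hy) (fun d hd x hx => lorb_stable e x₁ x d hd hx)
    (fun x hx y hy => lorb_trans e x₂ x y hx hy) (fun d hd x hx => lorb_stable e x₂ x d hd hx)
    hcop' hn₁ hn₂ c w hc hwanti (w x₁) (w x₂) hw1 hw2 hs hc0
    (by simpa using hrel' 1)
  rw [hcard1, hcard2] at h1
  have h2 : (((|((lmin e x₁).natDegree : ℤ) * w x₁| : ℤ)) : ℝ) =
      ((|((lmin e x₂).natDegree : ℤ) * w x₂| : ℤ) : ℝ) := by rw [h1]
  push_cast at h2
  rw [hdev, hdev]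
  have h3 : ∀ (N : ℕ) (v : ℤ), |(N : ℝ) * (κ * (v : ℝ))| = κ * |(N : ℝ) * (v : ℝ)| := by
    intro N v
    rw [mul_left_comm, abs_mul, abs_of_pos hκ]
  rw [h3, h3, h2]

end

end Pool.Agent.H855
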