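import Mathlib
import Pool.Agent.H855.CoreTwo

/-!
# Slopes in lowest terms and local degrees
-/

namespace Pool.Agent.H855

open Polynomial Pool.Agent.H925R2

/-- The `p`-adic valuation of `α`, normalised so that `p ^ a` has valuation `1`. -/
noncomputable def slope (p : ℕ) [Fact p.Prime] (a : ℕ) (α : PadicAlgCl p) : ℝ :=
  -Real.logb ((p : ℝ) ^ a) ‖α‖

section

variable {p : ℕ} [Fact p.Prime] {a : ℕ}

theorem log_pos_of (ha : 0 < a) : 0 < Real.log ((p : ℝ) ^ a) :=
  Real.log_pos (one_lt_pow₀ (by exact_mod_cast (Fact.out : p.Prime).one_lt) ha.ne')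

theorem dev_slope (ha : 0 < a) (α : PadicAlgCl p) : dev p ((p : ℚ) ^ a) α =
    - Real.log ((p : ℝ) ^ a) * (2 * slope p a α - 1) := dev_pow p a ha α

/-- If the slope of `α` is `c / n` in lowest terms and degree times slope is an integer, then `n`
divides the degree. -/
theorem dvd_degree_of_slope {c n N : ℕ} (hn : 0 < n) (hc : c.Coprime n) {s : ℝ}
    (hs : s = c / n) (hN : ∃ k : ℤ, (N : ℝ) * s = k) : n ∣ N := by
  obtain ⟨k, hk⟩ := hN
  have hn' : (n : ℝ) ≠ 0 := by exact_mod_cast hn.ne'
  rw [hs] at hk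
  have h1 : (N : ℝ) * c = k * n := by
    field_simp at hk
    linarith
  have h2 : (N : ℤ) * c = k * n := by exact_mod_cast h1
  have h3 : (n : ℤ) ∣ (N : ℤ) * c := ⟨k, by rw [h2]; ring⟩
  have h4 : n ∣ N * c := by exact_mod_cast h3
  exact hc.symm.dvd_of_dvd_mul_right h4

end

section

variable {f : ℚ[X]} (hf : Irreducible f) {q : ℚ} (hq : 0 < q)
  (hweil : ∀ z : ℂ, aeval z f = 0 → ‖z‖ ^ 2 = (q : ℝ))

/-- A root and its inverse have the same local degree. -/
theorem natDegree_lmin_rinv {p : ℕ} [Fact p.Prime] (e : f.SplittingField →ₐ[ℚ] PadicAlgCl p)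
    (x : f.rootSet f.SplittingField) :
    (lmin e (rinv hf hq hweil x)).natDegree = (lmin e x).natDegree := by
  classical
  have hinv2 : ∀ x y : f.rootSet f.SplittingField, lmin e x = lmin e y →
      lmin e (rinv hf hq hweil x) = lmin e (rinv hf hq hweil y) := by
    intro x y h
    obtain ⟨σ, hσ, rfl⟩ := exists_decomp_of_lmin e x y h
    rw [← smul_rinv, lmin_smul e σ hσ]
  rw [← card_lorb e hf, ← card_lorb e hf]
  refine Finset.card_bij (fun y _ => rinv hf hq hweil y) ?_ ?_ ?_
  · intro y hy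
    rw [mem_lorb] at hy ⊢
    rw [hinv2 _ _ hy, rinv_rinv]
  · intro y _ z _ h
    have := congrArg (rinv hf hq hweil) h
    rwa [rinv_rinv, rinv_rinv] at this
  · intro y hy
    rw [mem_lorb] at hy
    exact ⟨rinv hf hq hweil y, by rw [mem_lorb, hinv2 _ _ hy], rinv_rinv hf hq hweil y⟩

open Classical in
/-- The local orbits of two roots with different absolute deviations fit into half of the roots. -/
theorem sum_le_of_two (g : ℕ) (hdeg : f.natDegree = 2 * g)
    {p : ℕ} [Fact p.Prime] (e : f.SplittingField →ₐ[ℚ] PadicAlgCl p)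
    (x₁ x₂ : f.rootSet f.SplittingField)
    (h11 : lmin e (rinv hf hq hweil x₁) ≠ lmin e x₁)
    (h22 : lmin e (rinv hf hq hweil x₂) ≠ lmin e x₂)
    (h12 : lmin e x₁ ≠ lmin e x₂)
    (h12' : lmin e (rinv hf hq hweil x₁) ≠ lmin e x₂) :
    (lmin e x₁).natDegree + (lmin e x₂).natDegree ≤ g := by
  have hinv2 : ∀ x y : f.rootSet f.SplittingField, lmin e x = lmin e y →
      lmin e (rinv hf hq hweil x) = lmin e (rinv hf hq hweil y) := by
    intro x y h
    obtain ⟨σ, hσ, rfl⟩ := exists_decomp_of_lmin e x y h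
    rw [← smul_rinv, lmin_smul e σ hσ]
  have hd12 : Disjoint (lorb e x₁) (lorb e x₂) := by
    rw [Finset.disjoint_left]
    intro y h1 h2
    rw [mem_lorb] at h1 h2
    exact h12 (h1.symm.trans h2)
  set Φ := lorb e x₁ ∪ lorb e x₂ with hΦ
  have hΦinv : Disjoint Φ (Φ.image (rinv hf hq hweil)) := by
    rw [Finset.disjoint_left]
    intro y hy hy'
    obtain ⟨z, hz, rfl⟩ := Finset.mem_image.1 hy'
    rw [hΦ, Finset.mem_union, mem_lorb, mem_lorb] at hy hz
    rcases hz with h | h
    · have h3 := hinv2 _ _ h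
      rcases hy with h4 | h4
      · exact h11 (h3.symm.trans h4)
      · exact h12' (h3.symm.trans h4)
    · have h3 := hinv2 _ _ h
      rcases hy with h4 | h4
      · have h5 := hinv2 _ _ (h3.symm.trans h4)
        rw [rinv_rinv] at h5
        exact h12' h5.symm
      · exact h22 (h3.symm.trans h4)
  have h1 : (Φ ∪ Φ.image (rinv hf hq hweil)).card ≤ 2 * g := by
    have h2 := Finset.card_le_univ (Φ ∪ Φ.image (rinv hf hq hweil))
    rwa [card_roots hf, hdeg] at h2
  rw [Finset.card_union_of_disjoint hΦinv, Finset.card_image_of_injective _ (fun a b h => by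
      have := congrArg (rinv hf hq hweil) h
      rwa [rinv_rinv, rinv_rinv] at this), hΦ, Finset.card_union_of_disjoint hd12,
    card_lorb e hf, card_lorb e hf] at h1
  omega

end

end Pool.Agent.H855
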