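import Mathlib
import Pool.Agent.H855.Slopes

/-!
# Conversions used in the final statements
-/

namespace Pool.Agent.H855

open Polynomial Pool.Agent.H925R2

section

variable {p : ℕ} [Fact p.Prime] {a : ℕ} {f : ℚ[X]}

theorem weil_cast (hweil : ∀ z : ℂ, aeval z f = 0 → ‖z‖ ^ 2 = (p : ℝ) ^ a) :
    ∀ z : ℂ, aeval z f = 0 → ‖z‖ ^ 2 = (((p : ℚ) ^ a : ℚ) : ℝ) := by
  intro z hz
  rw [hweil z hz]
  push_cast
  rfl

theorem q_pos (p : ℕ) [Fact p.Prime] (a : ℕ) : (0 : ℚ) < (p : ℚ) ^ a :=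
  pow_pos (by exact_mod_cast (Fact.out : p.Prime).pos) a

open Classical in
/-- Sums of deviations and sums of slopes. -/
theorem sum_slope_of_sum_dev (ha : 0 < a) (S : Finset (f.rootSet (PadicAlgCl p)))
    (h : ∑ α ∈ S, dev p ((p : ℚ) ^ a) α.1 = 0) : ∑ α ∈ S, (slope p a α.1 - 1 / 2) = 0 := by
  have hL := log_pos_of (p := p) ha
  have h1 : ∀ α : f.rootSet (PadicAlgCl p), dev p ((p : ℚ) ^ a) α.1 =
      (-2 * Real.log ((p : ℝ) ^ a)) * (slope p a α.1 - 1 / 2) := by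
    intro α
    rw [dev_slope ha]
    ring
  rw [Finset.sum_congr rfl fun α _ => h1 α, ← Finset.mul_sum] at h
  exact (mul_eq_zero.1 h).resolve_left (mul_ne_zero (by norm_num) hL.ne')

/-- The exterior algebra statement from the absence of relations. -/
theorem tate_of_norel (hf : Irreducible f)
    (hweil : ∀ z : ℂ, aeval z f = 0 → ‖z‖ ^ 2 = (p : ℝ) ^ a)
    (e : f.SplittingField →ₐ[ℚ] PadicAlgCl p)
    (hns : ∃ α : PadicAlgCl p, aeval α f = 0 ∧ dev p ((p : ℚ) ^ a) α ≠ 0)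
    (hno : ∀ c : f.rootSet f.SplittingField → ℤ,
      (∀ x, c (rinv hf (q_pos p a) (weil_cast hweil) x) = - c x) →
      (∀ g : f.Gal, ∑ x : f.rootSet f.SplittingField, (c x : ℝ) *
        dev p ((p : ℚ) ^ a) (e (g • x : f.rootSet f.SplittingField).1) = 0) → ∀ x, c x = 0)
    (Ω : Type*) [Field Ω] [IsAlgClosed Ω] [CharZero Ω]
    (V : Type*) [AddCommGroup V] [Module Ω V] (F : V →ₗ[Ω] V)
    (hF : Submodule.span Ω {v : V | ∃ μ : Ω, aeval μ f = 0 ∧ F v = μ • v} = ⊤)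
    (m s : ℕ) (hs : 0 < s) (x : ExteriorAlgebra Ω V) (hx : x ∈ ⋀[Ω]^(2 * m) V)
    (hFx : ExteriorAlgebra.map (F ^ s) x = (((p : Ω) ^ a) ^ m) ^ s • x) :
    x ∈ Algebra.adjoin Ω
      {y : ExteriorAlgebra Ω V | y ∈ ⋀[Ω]^2 V ∧ ExteriorAlgebra.map F y = (p : Ω) ^ a • y} := by
  refine ext_of_balanced p a hf hweil ?_ F hF m s ?_ x hx hFx
  · intro x hx h
    exact rinv_ne_of_dev hf (q_pos p a) (weil_cast hweil) p e hns
      ⟨x, mem_rootSet.2 ⟨hf.ne_zero, hx⟩⟩ (Subtype.ext h)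
  · intro _ L hlen hL hprod y hy
    exact balanced_of_norel hf (q_pos p a) (weil_cast hweil) p e hno L m s hs hlen hL hprod y hy

end

end Pool.Agent.H855
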