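import Mathlib
import Pool.Agent.H855.Grp

/-!
# A generalisation of the theorem of Jordan on primitive groups

Let a finite group `G` act transitively on the finite set `B` and let `O` be a subset with at least
two elements, different from `B`, such that for each `b` outside of `O` the stabiliser of `b` in a
subgroup acts transitively on `O`. If `G` is primitive, or if `|O|` is coprime to `|B|` and larger than
all proper divisors of `|B|`, then `G` is doubly transitive.
-/

namespace Pool.Agent.H855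

open MulAction

set_option linter.unusedSectionVars false

section jordan

variable {G B : Type*} [Group G] [MulAction G B] [Fintype B]

/-- The orbit of a pair. -/
def typ (G : Type*) {B : Type*} [Group G] [MulAction G B] (a b : B) :
    MulAction.orbitRel.Quotient G (B × B) := Quotient.mk _ (a, b)

theorem typ_smul (g : G) (a b : B) : typ G (g • a) (g • b) = typ G a b :=
  Quotient.sound (show (g • a, g • b) ∈ MulAction.orbit G (a, b) from ⟨g, rfl⟩)

theorem typ_eq {a b a' b' : B} (h : typ G a b = typ G a' b') : ∃ g : G, g • a = a' ∧ g • b = b' := by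
  have h1 : (a', b') ∈ MulAction.orbit G (a, b) := Quotient.exact h.symm
  obtain ⟨g, hg⟩ := h1
  exact ⟨g, congrArg Prod.fst hg, congrArg Prod.snd hg⟩

theorem typ_eq_iff {a b a' b' : B} : typ G a b = typ G a' b' ↔ ∃ g : G, g • a = a' ∧ g • b = b' := by
  refine ⟨typ_eq, ?_⟩
  rintro ⟨g, rfl, rfl⟩
  exact (typ_smul g a b).symm

theorem typ_swap {a b a' b' : B} (h : typ G a b = typ G a' b') : typ G b a = typ G b' a' := by
  obtain ⟨g, rfl, rfl⟩ := typ_eq h
  exact (typ_smul g b a).symm

theorem eq_of_typ_diag {a b c : B} (h : typ G a b = typ G c c) : a = b := by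
  obtain ⟨g, h1, h2⟩ := typ_eq h
  exact smul_left_cancel g (h1.trans h2.symm)

open Classical in
/-- If `g u ∈ O` whenever `g v ∈ O`, then also conversely. -/
theorem mem_iff_of_imp [Finite G] [IsPretransitive G B] (O : Finset B) (u v : B)
    (h : ∀ g : G, g • v ∈ O → g • u ∈ O) (g : G) : g • u ∈ O ↔ g • v ∈ O := by
  have _ : Fintype G := Fintype.ofFinite G
  obtain ⟨h₀, hh⟩ := MulAction.exists_smul_eq G u v
  set S := (Finset.univ : Finset G).filter (fun g => g • u ∈ O)
  set T := (Finset.univ : Finset G).filter (fun g => g • v ∈ O)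
  have hTS : T ⊆ S := by
    intro g hg
    simp only [S, T, Finset.mem_filter, Finset.mem_univ, true_and] at hg ⊢
    exact h g hg
  have hcard : S.card = T.card := by
    refine Finset.card_bij (fun g _ => g * h₀⁻¹) ?_ ?_ ?_
    · intro g hg
      simp only [S, T, Finset.mem_filter, Finset.mem_univ, true_and] at hg ⊢
      rw [mul_smul, ← hh, inv_smul_smul]
      exact hg
    · intro a _ b _ hab
      exact mul_right_cancel hab
    · intro g hg
      refine ⟨g * h₀, ?_, by simp⟩
      simp only [S, T, Finset.mem_filter, Finset.mem_univ, true_and] at hg ⊢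
      rw [mul_smul, hh]
      exact hg
  have hST : T = S := Finset.eq_of_subset_of_card_le hTS hcard.le
  have h1 : g ∈ T ↔ g ∈ S := by rw [hST]
  simp only [S, T, Finset.mem_filter, Finset.mem_univ, true_and] at h1
  exact h1.symm

open Classical in
/-- **Generalised theorem of Jordan.** -/
theorem two_transitive_of_orbit [Finite G] [IsPretransitive G B] (O : Finset B)
    (h2 : 2 ≤ O.card)
    (hsat : ∀ E : Setoid B, (∀ (g : G) a c, E a c → E (g • a) (g • c)) →
      (∀ a c, E a c → (a ∈ O ↔ c ∈ O)) → ∀ a c, E a c → a = c)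
    (hcls : ∀ E : Setoid B, (∀ (g : G) a c, E a c → E (g • a) (g • c)) →
      (∀ a ∈ O, ∀ c ∈ O, E a c) → ∀ a c, E a c)
    (hD : ∀ b, b ∉ O → ∀ y ∈ O, ∀ y' ∈ O, ∃ g : G, g • y = y' ∧ g • b = b)
    (x y x' y' : B) (hxy : x ≠ y) (hxy' : x' ≠ y') : ∃ g : G, g • x = x' ∧ g • y = y' := by
  -- claim 1
  have cl1 : ∀ u v : B, u ≠ v → ∃ b, b ∉ O ∧ ∀ y ∈ O, typ G b y = typ G u v := by
    intro u v huv
    have h1 : ∃ g : G, g • u ∉ O ∧ g • v ∈ O := by
      by_contra hcon
      push Not at hcon
      have h3 : ∀ g : G, g • v ∈ O → g • u ∈ O := by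
        intro g hg
        by_contra hg'
        exact hcon g hg' hg
      apply huv
      let E : Setoid B :=
        { r := fun a c => ∀ g : G, g • a ∈ O ↔ g • c ∈ O
          iseqv := ⟨fun _ _ => Iff.rfl, fun h g => (h g).symm, fun h h' g => (h g).trans (h' g)⟩ }
      refine hsat E ?_ ?_ u v (fun g => mem_iff_of_imp O u v h3 g)
      · intro g a c h k
        rw [← mul_smul, ← mul_smul]
        exact h (k * g)
      · intro a c h
        have := h 1
        rwa [one_smul, one_smul] at this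
    obtain ⟨g, hg1, hg2⟩ := h1
    refine ⟨g • u, hg1, fun y hy => ?_⟩
    obtain ⟨d, hd1, hd2⟩ := hD _ hg1 _ hg2 y hy
    rw [← typ_smul g u v, ← typ_smul d (g • u) (g • v), hd1, hd2]
  -- types from outside are constant
  have hconst : ∀ b, b ∉ O → ∀ y ∈ O, ∀ y' ∈ O, typ G b y = typ G b y' := by
    intro b hb y hy y' hy'
    obtain ⟨g, h3, h4⟩ := hD b hb y hy y' hy'
    rw [← typ_smul g b y, h3, h4]
  -- step A
  have stA : ∀ x₁ ∈ O, ∀ x₂ ∈ O, x₁ ≠ x₂ → ∀ b, b ∉ O → (∀ y ∈ O, typ G b y = typ G x₂ x₁) →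
      ∀ z, z ∉ O → typ G z x₁ ≠ typ G x₁ x₂ → typ G z b = typ G z x₁ := by
    intro x₁ hx₁ x₂ hx₂ hne b hb hbt z hz hzt
    set j := typ G z x₁ with hj
    have hyb : ∀ y ∈ O, typ G y b = typ G x₁ x₂ := fun y hy => typ_swap (hbt y hy)
    obtain ⟨g, hg1, hg2⟩ := typ_eq (hyb x₁ hx₁).symm
    set Q := (Finset.univ : Finset B).filter (fun t => t ∉ O ∧ typ G t x₁ = j) with hQ
    set Z := (Finset.univ : Finset B).filter (fun t => typ G t x₁ = j ∧ typ G t x₂ = j) with hZ
    set Z' := (Finset.univ : Finset B).filter (fun t => typ G t x₁ = j ∧ typ G t b = j) with hZ'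
    have h3 : Q ⊆ Z := by
      intro t ht
      simp only [hQ, hZ, Finset.mem_filter, Finset.mem_univ, true_and] at ht ⊢
      exact ⟨ht.2, by rw [← ht.2]; exact hconst t ht.1 x₂ hx₂ x₁ hx₁⟩
    have h4 : Z.card = Z'.card := by
      refine Finset.card_bij (fun t _ => g • t) ?_ ?_ ?_
      · intro t ht
        simp only [hZ, hZ', Finset.mem_filter, Finset.mem_univ, true_and] at ht ⊢
        refine ⟨?_, ?_⟩
        · rw [← ht.1, ← typ_smul g t x₁, hg1]
        · rw [← ht.2, ← typ_smul g t x₂, hg2]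
      · intro s _ t _ hst
        exact smul_left_cancel g hst
      · intro t ht
        refine ⟨g⁻¹ • t, ?_, by simp⟩
        simp only [hZ, hZ', Finset.mem_filter, Finset.mem_univ, true_and] at ht ⊢
        refine ⟨?_, ?_⟩
        · rw [← ht.1, ← typ_smul g (g⁻¹ • t) x₁, smul_inv_smul, hg1]
        · rw [← ht.2, ← typ_smul g (g⁻¹ • t) x₂, smul_inv_smul, hg2]
    have h5 : Z' ⊆ Q := by
      intro t ht
      simp only [hQ, hZ', Finset.mem_filter, Finset.mem_univ, true_and] at ht ⊢
      refine ⟨fun hto => hzt ?_, ht.1⟩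
      rw [← hyb t hto, ht.2]
    have h6 : Z' = Q := Finset.eq_of_subset_of_card_le h5
      (by rw [← h4]; exact Finset.card_le_card h3)
    have h7 : z ∈ Q := by
      simp only [hQ, Finset.mem_filter, Finset.mem_univ, true_and]
      exact ⟨hz, rfl⟩
    rw [← h6] at h7
    simp only [hZ', Finset.mem_filter, Finset.mem_univ, true_and] at h7
    exact h7.2
  -- step B
  have stB : ∀ x₁ ∈ O, ∀ x₂ ∈ O, x₁ ≠ x₂ → typ G x₂ x₁ = typ G x₁ x₂ := by
    intro x₁ hx₁ x₂ hx₂ hne
    by_contra hcon
    obtain ⟨b, hb, hbt⟩ := cl1 x₂ x₁ hne.symm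
    have h3 := stA x₁ hx₁ x₂ hx₂ hne b hb hbt b hb (by rw [hbt x₁ hx₁]; exact hcon)
    have h4 := eq_of_typ_diag h3.symm
    exact hb (h4 ▸ hx₁)
  -- step C
  have stC : ∀ x₁ ∈ O, ∀ x₂ ∈ O, x₁ ≠ x₂ → ∀ x₃ ∈ O, ∀ x₄ ∈ O, x₃ ≠ x₄ →
      typ G x₁ x₂ = typ G x₃ x₄ := by
    intro x₁ hx₁ x₂ hx₂ hne x₃ hx₃ x₄ hx₄ hne'
    by_contra hcon
    obtain ⟨b, hb, hbt⟩ := cl1 x₂ x₁ hne.symm
    obtain ⟨b', hb', hbt'⟩ := cl1 x₄ x₃ hne'.symm
    have s1 := stB x₁ hx₁ x₂ hx₂ hne
    have s2 := stB x₃ hx₃ x₄ hx₄ hne'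
    have h3 := stA x₁ hx₁ x₂ hx₂ hne b hb hbt b' hb' (by
      rw [hbt' x₁ hx₁, s2]; exact fun h => hcon h.symm)
    have h4 := stA x₃ hx₃ x₄ hx₄ hne' b' hb' hbt' b hb (by
      rw [hbt x₃ hx₃, s1]; exact hcon)
    rw [hbt' x₁ hx₁] at h3
    rw [hbt x₃ hx₃] at h4
    have h5 := typ_swap h3
    rw [h4] at h5
    apply hcon
    rw [← s1, h5]
  -- the equivalence relation
  obtain ⟨x₁, hx₁, x₂, hx₂, hne⟩ := Finset.one_lt_card.1 (by omega : 1 < O.card)
  set γ := typ G x₁ x₂ with hγ
  have hsym : ∀ a c, typ G a c = γ → typ G c a = γ := by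
    intro a c h
    rw [hγ, ← stB x₁ hx₁ x₂ hx₂ hne]
    exact typ_swap h
  let N : B → Finset B := fun a => Finset.univ.filter (fun t => t = a ∨ typ G t a = γ)
  have hmemN : ∀ a t, t ∈ N a ↔ t = a ∨ typ G t a = γ := by
    intro a t
    simp only [N, Finset.mem_filter, Finset.mem_univ, true_and]
  have hNO : ∀ x ∈ O, ∀ t, t ∈ N x ↔ (t ∈ O ∨ typ G t x₁ = γ) := by
    intro x hx t
    rw [hmemN]
    by_cases ht : t ∈ O
    · refine ⟨fun _ => Or.inl ht, fun _ => ?_⟩
      by_cases h3 : t = x
      · exact Or.inl h3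
      · exact Or.inr (stC t ht x hx h3 x₁ hx₁ x₂ hx₂ hne)
    · constructor
      · rintro (h3 | h3)
        · exact absurd (h3 ▸ hx) ht
        · exact Or.inr (by rw [hconst t ht x₁ hx₁ x hx]; exact h3)
      · rintro (h3 | h3)
        · exact absurd h3 ht
        · exact Or.inr (by rw [hconst t ht x hx x₁ hx₁]; exact h3)
  have hNg : ∀ (g : G) a t, t ∈ N a ↔ g • t ∈ N (g • a) := by
    intro g a t
    rw [hmemN, hmemN, typ_smul]
    constructor
    · rintro (h | h)
      · exact Or.inl (by rw [h])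
      · exact Or.inr h
    · rintro (h | h)
      · exact Or.inl (smul_left_cancel g h)
      · exact Or.inr h
  have hNeq : ∀ a c, typ G a c = γ → N a = N c := by
    intro a c hac
    obtain ⟨g, h3, h4⟩ := typ_eq (hac.symm : typ G x₁ x₂ = typ G a c)
    ext t
    rw [hNg g⁻¹ a t, hNg g⁻¹ c t, ← h3, ← h4, inv_smul_smul, inv_smul_smul, hNO x₁ hx₁, hNO x₂ hx₂]
  let E : Setoid B :=
    { r := fun a c => N a = N c
      iseqv := ⟨fun _ => rfl, fun h => h.symm, fun h h' => h.trans h'⟩ }
  have hE : ∀ a c, E a c ↔ c ∈ N a := by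
    intro a c
    constructor
    · intro h
      have h3 : c ∈ N c := (hmemN c c).2 (Or.inl rfl)
      have h4 : N a = N c := h
      rw [h4]; exact h3
    · intro h
      rcases (hmemN a c).1 h with h3 | h3
      · subst h3; exact E.refl _
      · exact hNeq a c (hsym _ _ h3)
  have hEg : ∀ (g : G) a c, E a c → E (g • a) (g • c) := by
    intro g a c h
    rw [hE] at h ⊢
    exact (hNg g a c).1 h
  have hOE : ∀ a ∈ O, ∀ c ∈ O, E a c := by
    intro a ha c hc
    rw [hE, hNO a ha]
    exact Or.inl hc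
  have hfullE := hcls E hEg hOE
  have hall : ∀ a c, a ≠ c → typ G a c = γ := by
    intro a c hac
    have h5 : a ∈ N c := (hE c a).1 (hfullE c a)
    rcases (hmemN c a).1 h5 with h | h
    · exact absurd h hac
    · exact h
  exact typ_eq ((hall x y hxy).trans (hall x' y' hxy').symm)

/-- An invariant equivalence relation for which a set of coprime cardinality is saturated. -/
theorem sat_of_coprime [IsPretransitive G B] (O : Finset B)
    (hcop : O.card.Coprime (Fintype.card B)) (E : Setoid B)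
    (hE : ∀ (g : G) a c, E a c → E (g • a) (g • c)) (hO : ∀ a c, E a c → (a ∈ O ↔ c ∈ O))
    (a c : B) (h : E a c) : a = c := by
  classical
  have hle : O.card ≤ Fintype.card B := Finset.card_le_univ O
  exact eq_of_confined (G := G) (fun a c => E a c) hE O
    (by rw [Nat.coprime_sub_self_right hle]; exact hcop) hO a c h

open Classical in
/-- An invariant equivalence relation with a large class. -/
theorem cls_of_large [IsPretransitive G B] (O : Finset B)
    (h2 : 2 ≤ O.card) (hdiv : ∀ d, d ∣ Fintype.card B → d < Fintype.card B → d < O.card)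
    (E : Setoid B) (hE : ∀ (g : G) a c, E a c → E (g • a) (g • c))
    (hO : ∀ a ∈ O, ∀ c ∈ O, E a c) (a c : B) : E a c := by
  obtain ⟨x₁, hx₁⟩ := Finset.card_pos.1 (by omega : 0 < O.card)
  have hcardN : ∀ a, (Finset.univ.filter (fun t => E a t)).card =
      (Finset.univ.filter (fun t => E x₁ t)).card := by
    intro a
    obtain ⟨g, rfl⟩ := MulAction.exists_smul_eq G x₁ a
    symm
    refine Finset.card_bij (fun t _ => g • t) (fun t ht => ?_)
      (fun s _ t _ h => smul_left_cancel g h) fun t ht => ⟨g⁻¹ • t, ?_, by simp⟩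
    · simp only [Finset.mem_filter, Finset.mem_univ, true_and] at ht ⊢
      exact hE g x₁ t ht
    · simp only [Finset.mem_filter, Finset.mem_univ, true_and] at ht ⊢
      have := hE g⁻¹ _ _ ht
      rwa [inv_smul_smul] at this
  have hdvd : (Finset.univ.filter (fun t => E x₁ t)).card ∣ Fintype.card B := by
    rw [← Finset.card_univ]
    exact dvd_card_of_saturated E _ (fun a => hcardN a) Finset.univ
      (fun _ _ _ _ => Finset.mem_univ _)
  have hfull : (Finset.univ.filter (fun t => E x₁ t)).card = Fintype.card B := by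
    by_contra hcon
    have h3 := lt_of_le_of_ne (Finset.card_le_univ (Finset.univ.filter (fun t => E x₁ t))) hcon
    have h4 := hdiv _ hdvd h3
    have h5 : O.card ≤ (Finset.univ.filter (fun t => E x₁ t)).card := by
      apply Finset.card_le_card
      intro t ht
      simp only [Finset.mem_filter, Finset.mem_univ, true_and]
      exact hO x₁ hx₁ t ht
    omega
  have h3 : ∀ t, E x₁ t := by
    intro t
    have h4 : Finset.univ.filter (fun t => E x₁ t) = Finset.univ := Finset.eq_univ_of_card _ hfull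
    have h5 : t ∈ Finset.univ.filter (fun t => E x₁ t) := by rw [h4]; exact Finset.mem_univ _
    simpa using h5
  exact E.trans (E.symm (h3 a)) (h3 c)

end jordan

end Pool.Agent.H855
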