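import Mathlib
import Pool.Agent.H855.Pairs
import Pool.Agent.H855.Jordan

/-!
# Orbits of pairs and double transitivity on the pairs
-/

namespace Pool.Agent.H855

open MulAction Pool.Agent.H925R2

set_option linter.unusedSectionVars false

variable {R : Type*} [Fintype R] [DecidableEq R] {inv : R → R}
variable {G : Type*} [Group G] [Finite G] [MulAction G R]

theorem card_image_mk_two (hinv : ∀ x, inv (inv x) = x)
    [DecidableEq (Quotient (pairSetoid hinv))] (hne : ∀ x, inv x ≠ x) (S : Finset R)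
    (hS : ∀ x ∈ S, inv x ∈ S) :
    S.card = 2 * (S.image (Quotient.mk (pairSetoid hinv))).card := by
  rw [Finset.card_eq_sum_card_fiberwise (f := Quotient.mk (pairSetoid hinv)) (s := S)
    (t := S.image (Quotient.mk (pairSetoid hinv))) (fun x hx => Finset.mem_image_of_mem _ hx)]
  have h1 : ∀ b ∈ S.image (Quotient.mk (pairSetoid hinv)),
      (S.filter (fun x => Quotient.mk (pairSetoid hinv) x = b)).card = 2 := by
    intro b hb
    obtain ⟨x, hx, rfl⟩ := Finset.mem_image.1 hb
    have h2 : S.filter (fun y => Quotient.mk (pairSetoid hinv) y =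
        Quotient.mk (pairSetoid hinv) x) = {x, inv x} := by
      ext y
      rw [Finset.mem_filter, Finset.mem_insert, Finset.mem_singleton]
      constructor
      · rintro ⟨_, h⟩
        exact (Quotient.exact h : y = x ∨ y = inv x)
      · rintro (h | h)
        · exact ⟨h ▸ hx, by rw [h]⟩
        · exact ⟨h ▸ hS x hx, Quotient.sound (Or.inr h)⟩
    rw [h2, Finset.card_pair (hne x).symm]
  rw [Finset.sum_congr rfl h1, Finset.sum_const, smul_eq_mul, mul_comm]

theorem mem_image_mk_closed (hinv : ∀ x, inv (inv x) = x)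
    [DecidableEq (Quotient (pairSetoid hinv))] (S : Finset R) (hS : ∀ x ∈ S, inv x ∈ S) (x : R) :
    Quotient.mk (pairSetoid hinv) x ∈ S.image (Quotient.mk (pairSetoid hinv)) ↔ x ∈ S := by
  rw [mem_image_mk]
  constructor
  · rintro (h | h)
    · exact h
    · have := hS _ h
      rwa [hinv] at this
  · exact Or.inl

open Classical in
/-- **Two sets of pairs of coprime cardinalities.** -/
theorem pair_trans_coprime (hinv : ∀ x, inv (inv x) = x) (hne : ∀ x, inv x ≠ x)
    (hG : ∀ (g : G) (x : R), g • inv x = inv (g • x)) (D : Subgroup G) (S T : Finset R)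
    (hS : ∀ x ∈ S, inv x ∈ S) (hT : ∀ x ∈ T, inv x ∈ T)
    (hDS : ∀ d ∈ D, ∀ x ∈ S, d • x ∈ S) (hDT : ∀ d ∈ D, ∀ x ∈ T, d • x ∈ T)
    (tS : ∀ x ∈ S, ∀ y ∈ S, ∃ d ∈ D, d • x = y ∨ d • x = inv y)
    (tT : ∀ x ∈ T, ∀ y ∈ T, ∃ d ∈ D, d • x = y ∨ d • x = inv y)
    (n m : ℕ) (hSn : S.card = 2 * n) (hTm : T.card = 2 * m) (hcop : n.Coprime m)
    (y : R) (hy : y ∈ S) (y' : R) (hy' : y' ∈ S) (b : R) (hb : b ∈ T) :
    ∃ d ∈ D, (d • y = y' ∨ d • y = inv y') ∧ (d • b = b ∨ d • b = inv b) := by
  let act : MulAction G (Quotient (pairSetoid hinv)) := pairAction hinv hG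
  have hsm : ∀ (g : G) (x : R), g • (Quotient.mk (pairSetoid hinv) x) =
      Quotient.mk (pairSetoid hinv) (g • x) := fun g x => rfl
  have horb : ∀ (U : Finset R), (∀ x ∈ U, inv x ∈ U) → (∀ d ∈ D, ∀ x ∈ U, d • x ∈ U) →
      (∀ x ∈ U, ∀ y ∈ U, ∃ d ∈ D, d • x = y ∨ d • x = inv y) → ∀ x ∈ U,
      orbit D (Quotient.mk (pairSetoid hinv) x) =
        (U.image (Quotient.mk (pairSetoid hinv)) : Set (Quotient (pairSetoid hinv))) := by
    intro U hU hDU tU x hx
    ext z
    constructor
    · rintro ⟨d, rfl⟩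
      change d.1 • (Quotient.mk (pairSetoid hinv) x) ∈ _
      rw [hsm]
      exact Finset.mem_coe.2 (Finset.mem_image_of_mem _ (hDU d.1 d.2 x hx))
    · intro hz
      obtain ⟨u, hu, rfl⟩ := Finset.mem_image.1 (Finset.mem_coe.1 hz)
      obtain ⟨d, hd, h⟩ := tU x hx u hu
      refine ⟨⟨d, hd⟩, ?_⟩
      change d • (Quotient.mk (pairSetoid hinv) x) = _
      rw [hsm]
      exact Quotient.sound h
  have hcS : (S.image (Quotient.mk (pairSetoid hinv))).card = n := by
    have := card_image_mk_two hinv hne S hS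
    omega
  have hcT : (T.image (Quotient.mk (pairSetoid hinv))).card = m := by
    have := card_image_mk_two hinv hne T hT
    omega
  obtain ⟨h, hh, hh'⟩ := trans_of_coprime_index (G := D)
    (stabilizer D (Quotient.mk (pairSetoid hinv) b)) (Quotient.mk (pairSetoid hinv) y) (by
    rw [index_stabilizer, horb S hS hDS tS y hy, horb T hT hDT tT b hb, Set.ncard_coe_finset,
      Set.ncard_coe_finset, hcS, hcT]
    exact hcop) (Quotient.mk (pairSetoid hinv) y') (by
      rw [horb S hS hDS tS y hy]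
      exact Finset.mem_coe.2 (Finset.mem_image_of_mem _ hy'))
  have h1 : h.1 • (Quotient.mk (pairSetoid hinv) y) = Quotient.mk (pairSetoid hinv) y' := hh'
  have h2 : h.1 • (Quotient.mk (pairSetoid hinv) b) = Quotient.mk (pairSetoid hinv) b := hh
  rw [hsm] at h1 h2
  exact ⟨h.1, h.2, Quotient.exact h1, Quotient.exact h2⟩

/-- The group has no invariant equivalence relation on the pairs except for the two trivial ones. -/
def PairPrimitive (G : Type*) {R : Type*} [Group G] [MulAction G R] (inv : R → R) : Prop :=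
  ∀ E : Setoid R, (∀ x, E x (inv x)) → (∀ (g : G) x y, E x y → E (g • x) (g • y)) →
    (∀ x y, E x y → y = x ∨ y = inv x) ∨ (∀ x y, E x y)

open Classical in
/-- **Double transitivity on the pairs.** -/
theorem pairs_of_orbit [IsPretransitive G R]
    (hinv : ∀ x, inv (inv x) = x) (hne : ∀ x, inv x ≠ x)
    (hG : ∀ (g : G) (x : R), g • inv x = inv (g • x))
    (g n : ℕ) (hcard : Fintype.card R = 2 * g)
    (S : Finset R) (hS : ∀ x ∈ S, inv x ∈ S) (hSn : S.card = 2 * n)
    (h2 : 2 ≤ n) (hng : n < g)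
    (hprim : (n.Coprime g ∧ ∀ d, d ∣ g → d < g → d < n) ∨ PairPrimitive G inv)
    (hD : ∀ b, b ∉ S → ∀ y ∈ S, ∀ y' ∈ S,
      ∃ g : G, (g • y = y' ∨ g • y = inv y') ∧ (g • b = b ∨ g • b = inv b))
    (x y x' y' : R) (h1 : y ≠ x) (h1' : y ≠ inv x) (h3 : y' ≠ x') (h4 : y' ≠ inv x') :
    ∃ g : G, (g • x = x' ∨ g • x = inv x') ∧ (g • y = y' ∨ g • y = inv y') := by
  let act : MulAction G (Quotient (pairSetoid hinv)) := pairAction hinv hG
  have hsm : ∀ (g : G) (x : R), g • (Quotient.mk (pairSetoid hinv) x) =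
      Quotient.mk (pairSetoid hinv) (g • x) := fun g x => rfl
  have hpre : IsPretransitive G (Quotient (pairSetoid hinv)) := by
    refine ⟨fun a b => ?_⟩
    obtain ⟨x, rfl⟩ := Quotient.exists_rep a
    obtain ⟨y, rfl⟩ := Quotient.exists_rep b
    obtain ⟨g, hg⟩ := MulAction.exists_smul_eq G x y
    exact ⟨g, by rw [hsm, hg]⟩
  set O : Finset (Quotient (pairSetoid hinv)) := S.image (Quotient.mk (pairSetoid hinv)) with hO
  have hOcard : O.card = n := by
    have := card_image_mk_two hinv hne S hS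
    rw [← hO] at this
    omega
  have hcardB : Fintype.card (Quotient (pairSetoid hinv)) = g := by
    have h5 := card_pairs hinv hne
    rw [← Nat.card_eq_fintype_card]
    omega
  have hprim' : PairPrimitive G inv → ∀ E : Setoid (Quotient (pairSetoid hinv)),
      (∀ (g : G) a c, E a c → E (g • a) (g • c)) → (∀ a c, E a c → a = c) ∨ (∀ a c, E a c) := by
    intro hp E hE
    rcases hp (E.comap (Quotient.mk (pairSetoid hinv))) (fun x => by
        have h5 : Quotient.mk (pairSetoid hinv) x = Quotient.mk (pairSetoid hinv) (inv x) :=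
          Quotient.sound (Or.inr (hinv x).symm)
        rw [Setoid.comap_rel, ← h5]) (fun g x y h => by
        rw [Setoid.comap_rel] at h ⊢
        rw [← hsm, ← hsm]
        exact hE g _ _ h) with h5 | h5
    · left
      intro a c hac
      obtain ⟨x, rfl⟩ := Quotient.exists_rep a
      obtain ⟨y, rfl⟩ := Quotient.exists_rep c
      rcases h5 x y hac with h6 | h6
      · rw [h6]
      · exact Quotient.sound (Or.inr (by rw [h6, hinv]))
    · right
      intro a c
      obtain ⟨x, rfl⟩ := Quotient.exists_rep a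
      obtain ⟨y, rfl⟩ := Quotient.exists_rep c
      exact h5 x y
  obtain ⟨o, ho⟩ := Finset.card_pos.1 (by omega : 0 < O.card)
  obtain ⟨o', ho', hoo⟩ := Finset.one_lt_card.1 (by omega : 1 < O.card) |>.imp
    (fun _ h => h)
  obtain ⟨z, hz⟩ : ∃ z, z ∉ O := by
    by_contra hcon
    push Not at hcon
    have h5 : O = Finset.univ := Finset.eq_univ_iff_forall.2 hcon
    rw [h5, Finset.card_univ, hcardB] at hOcard
    omega
  have key := two_transitive_of_orbit (G := G) O (by rw [hOcard]; exact h2)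
    (by
      intro E hE hO a c hac
      rcases hprim with ⟨hcop, _⟩ | hp
      · exact sat_of_coprime O (by rw [hOcard, hcardB]; exact hcop) E hE hO a c hac
      · rcases hprim' hp E hE with h5 | h5
        · exact h5 a c hac
        · exact absurd ((hO o z (h5 o z)).1 ho) hz)
    (by
      intro E hE hO a c
      rcases hprim with ⟨_, hdiv⟩ | hp
      · exact cls_of_large O (by rw [hOcard]; exact h2) (by rw [hOcard, hcardB]; exact hdiv)
          E hE hO a c
      · rcases hprim' hp E hE with h5 | h5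
        · obtain ⟨u, hu, hou⟩ := hoo
          exact absurd (h5 o' u (hO o' ho' u hu)) hou
        · exact h5 a c) (by
      intro b hb a ha a' ha'
      obtain ⟨x, hx, rfl⟩ := Finset.mem_image.1 ha
      obtain ⟨x', hx', rfl⟩ := Finset.mem_image.1 ha'
      obtain ⟨b, rfl⟩ := Quotient.exists_rep b
      rw [hO, mem_image_mk_closed hinv S hS] at hb
      obtain ⟨g, hg1, hg2⟩ := hD b hb x hx x' hx'
      refine ⟨g, ?_, ?_⟩
      · rw [hsm]; exact Quotient.sound hg1
      · rw [hsm]; exact Quotient.sound hg2)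
    (Quotient.mk (pairSetoid hinv) x) (Quotient.mk (pairSetoid hinv) y)
    (Quotient.mk (pairSetoid hinv) x') (Quotient.mk (pairSetoid hinv) y')
    (fun h => by
      rcases (Quotient.exact h : x = y ∨ x = inv y) with h' | h'
      · exact h1 h'.symm
      · exact h1' (by rw [h', hinv]))
    (fun h => by
      rcases (Quotient.exact h : x' = y' ∨ x' = inv y') with h' | h'
      · exact h3 h'.symm
      · exact h4 (by rw [h', hinv]))
  obtain ⟨g, hg1, hg2⟩ := key
  exact ⟨g, Quotient.exact hg1, Quotient.exact hg2⟩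

/-- If the pair stabilisers are transitive on a block of odd size, so are the stabilisers. -/
theorem stab_trans_of_odd (hG : ∀ (g : G) (x : R), g • inv x = inv (g • x))
    (D : Subgroup G) (O : Finset R)
    (h1' : ∀ d ∈ D, ∀ x ∈ O, d • x ∈ O) (hodd : Odd O.card) (b : R)
    (hinv : ∀ x, inv (inv x) = x)
    (hp : ∀ y ∈ O, ∀ y' ∈ O, ∃ d ∈ D, d • y = y' ∧ (d • b = b ∨ d • b = inv b))
    (y : R) (hy : y ∈ O) (y' : R) (hy' : y' ∈ O) : ∃ d ∈ D, d • y = y' ∧ d • b = b := by
  let H : Subgroup G :=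
    { carrier := {d | d ∈ D ∧ (d • b = b ∨ d • b = inv b)}
      one_mem' := ⟨D.one_mem, Or.inl (one_smul _ _)⟩
      mul_mem' := by
        rintro d e ⟨hd, hd'⟩ ⟨he, he'⟩
        refine ⟨D.mul_mem hd he, ?_⟩
        rw [mul_smul]
        rcases he' with he' | he' <;> rcases hd' with hd' | hd' <;> rw [he']
        · exact Or.inl hd'
        · exact Or.inr hd'
        · rw [hG, hd']; exact Or.inr rfl
        · rw [hG, hd', hinv]; exact Or.inl rfl
      inv_mem' := by
        rintro d ⟨hd, hd'⟩
        refine ⟨D.inv_mem hd, ?_⟩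
        rcases hd' with hd' | hd'
        · left; rw [inv_smul_eq_iff, hd']
        · right; rw [inv_smul_eq_iff, hG, hd', hinv] }
  have hHorb : ∀ z ∈ O, orbit H z = (O : Set R) := by
    intro z hz
    ext u
    constructor
    · rintro ⟨d, rfl⟩
      exact h1' d.1 d.2.1 z hz
    · intro hu
      obtain ⟨d, hd, h3, h4⟩ := hp z hz u hu
      exact ⟨⟨d, hd, h4⟩, h3⟩
  have hborb : orbit H b ⊆ {b, inv b} := by
    rintro _ ⟨d, rfl⟩
    rcases d.2.2 with h | h
    · left; exact h
    · right; exact h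
  have hcard : (orbit H b).ncard ≤ 2 :=
    (Set.ncard_le_ncard hborb (Set.toFinite _)).trans (Set.ncard_insert_le _ _ |>.trans (by simp))
  have hpos : 0 < (orbit H b).ncard := by
    rw [Set.ncard_pos (Set.toFinite _)]
    exact ⟨b, mem_orbit_self b⟩
  obtain ⟨h, hh, hh'⟩ := trans_of_coprime_index (G := H) (stabilizer H b) y (by
    rw [index_stabilizer, hHorb y hy, Set.ncard_coe_finset]
    have h3 : (orbit H b).ncard = 1 ∨ (orbit H b).ncard = 2 := by omega
    rcases h3 with h3 | h3 <;> rw [h3]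
    · exact Nat.coprime_one_right _
    · exact (Nat.coprime_two_right).2 hodd) y' (by rw [hHorb y hy]; exact hy')
  exact ⟨h.1, h.2.1, hh', hh⟩

end Pool.Agent.H855
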