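import Mathlib
import Pool.Agent.H855.TwoGraph

/-!
# Two-graphs in which a block is seen uniformly from outside

Let `C` be the matrix of a regular two-graph on `g` pairs, with eigenvalues `a'` and `-a`,
`a a' = g - 1`. If there is a block `O` of `n` roots (no two of them in one pair), `2 ≤ n ≤ g - 2`, such
that `C b y` does not depend on `y ∈ O` for `b` outside, then `a = 1` or `a' = 1`: the two-graph is
trivial.
-/

namespace Pool.Agent.H855

open Pool.Agent.H925R2

set_option linter.unusedSectionVars false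

/-- The numerical lemma. -/
theorem unit_of_eqs {n m k κ a a' : ℤ} (hn : 2 ≤ n) (hm : 2 ≤ m)
    (haa : a * a' = n + m - 1) (h1 : k + κ = a' - a) (h2 : k * κ = (n - 1) * (m - 1))
    (hk : |k| ≤ n - 1) (hκ : |κ| ≤ m - 1) : a = 1 ∨ a' = 1 ∨ a = -1 ∨ a' = -1 := by
  have hk' := abs_le.1 hk
  have hκ' := abs_le.1 hκ
  have hp : 0 < k * κ := by rw [h2]; nlinarith
  have hcase : (k = n - 1 ∧ κ = m - 1) ∨ (k = -(n - 1) ∧ κ = -(m - 1)) := by
    rcases lt_trichotomy k 0 with hk0 | hk0 | hk0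
    · have hκ0 : κ < 0 := by
        by_contra h
        push Not at h
        nlinarith
      right
      have e1 : k = -(n - 1) := by
        by_contra h
        have h3 : -(n - 1) < k := lt_of_le_of_ne hk'.1 (Ne.symm h)
        nlinarith
      have e2 : κ = -(m - 1) := by
        by_contra h
        have h3 : -(m - 1) < κ := lt_of_le_of_ne hκ'.1 (Ne.symm h)
        nlinarith
      exact ⟨e1, e2⟩
    · rw [hk0] at hp; simp at hp
    · have hκ0 : 0 < κ := by
        by_contra h
        push Not at h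
        nlinarith
      left
      have e1 : k = n - 1 := by
        by_contra h
        have h3 : k < n - 1 := lt_of_le_of_ne hk'.2 h
        nlinarith
      have e2 : κ = m - 1 := by
        by_contra h
        have h3 : κ < m - 1 := lt_of_le_of_ne hκ'.2 h
        nlinarith
      exact ⟨e1, e2⟩
  rcases hcase with ⟨e1, e2⟩ | ⟨e1, e2⟩
  · rw [e1, e2] at h1
    have h3 : (a - 1) * (a' + 1) = 0 := by
      have h4 : (a - 1) * (a' + 1) = a * a' - (a' - a) - 1 := by ring
      rw [h4, haa, ← h1]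
      ring
    rcases mul_eq_zero.1 h3 with h | h
    · left; linarith
    · right; right; right; linarith
  · rw [e1, e2] at h1
    have h3 : (a + 1) * (a' - 1) = 0 := by
      have h4 : (a + 1) * (a' - 1) = a * a' + (a' - a) - 1 := by ring
      rw [h4, haa, ← h1]
      ring
    rcases mul_eq_zero.1 h3 with h | h
    · right; right; left; linarith
    · right; left; linarith

section

variable {R : Type*} [Fintype R] [DecidableEq R] {inv : R → R}

/-- The half system adapted to a block seen uniformly. -/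
theorem exists_adapted (hinv : ∀ x, inv (inv x) = x)
    (C : R → R → ℤ)
    (hC1 : ∀ x y, y ≠ x → y ≠ inv x → C x y = 1 ∨ C x y = -1)
    (hCi : ∀ x y, C x (inv y) = -C x y) (hCs : ∀ x y, C x y = C y x)
    (O : Finset R) (hO : ∀ x ∈ O, inv x ∉ O) (hOn : O.Nonempty)
    (hconst : ∀ b, b ∉ O → inv b ∉ O → ∀ y ∈ O, ∀ y' ∈ O, C b y = C b y') :
    ∃ Φ : Finset R, Disjoint O Φ ∧ IsHalf inv (O ∪ Φ) ∧
      ∀ b ∈ Φ, b ∉ O ∧ inv b ∉ O ∧ ∀ y ∈ O, C b y = 1 := by
  classical
  obtain ⟨o, ho⟩ := hOn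
  have hCi' : ∀ x y, C (inv x) y = -C x y := fun x y => by rw [hCs, hCi, hCs]
  have hval : ∀ b, b ∉ O → inv b ∉ O → C b o = 1 ∨ C b o = -1 := by
    intro b hb hb'
    refine hC1 b o (fun h => hb (h ▸ ho)) (fun h => hb' (h ▸ ho))
  refine ⟨Finset.univ.filter (fun b => b ∉ O ∧ inv b ∉ O ∧ C b o = 1), ?_, ?_, ?_⟩
  · rw [Finset.disjoint_left]
    intro y hy hy'
    rw [Finset.mem_filter] at hy'
    exact hy'.2.1 hy
  · intro x
    simp only [Finset.mem_union, Finset.mem_filter, Finset.mem_univ, true_and, hinv, hCi']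
    by_cases h1 : x ∈ O
    · simp [h1, hO x h1]
    · by_cases h2 : inv x ∈ O
      · simp [h1, h2]
      · rcases hval x h1 h2 with h3 | h3
        · simp [h1, h2, h3]
        · simp [h1, h2, h3]
  · intro b hb
    simp only [Finset.mem_filter, Finset.mem_univ, true_and] at hb
    exact ⟨hb.1, hb.2.1, fun y hy => by rw [hconst b hb.1 hb.2.1 y hy o ho, hb.2.2]⟩

/-- **A uniform block of size between `2` and `g - 2` makes the two-graph trivial.** -/
theorem unit_eig (hinv : ∀ x, inv (inv x) = x) (hne : ∀ x, inv x ≠ x)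
    (g : ℕ) (hcard : Fintype.card R = 2 * g)
    (C : R → R → ℤ) (a a' : ℤ) (ha : 0 < a) (ha' : 0 < a') (haa : a * a' = (g : ℤ) - 1)
    (hC0 : ∀ x y, y = x ∨ y = inv x → C x y = 0)
    (hC1 : ∀ x y, y ≠ x → y ≠ inv x → C x y = 1 ∨ C x y = -1)
    (hCi : ∀ x y, C x (inv y) = -C x y) (hCs : ∀ x y, C x y = C y x)
    (hCC : ∀ x z, ∑ y, C x y * C z y = 2 * (a' - a) * C x z +
        (if z = x then 2 * (a * a') else 0) + (if z = inv x then -(2 * (a * a')) else 0))
    (O : Finset R) (hO : ∀ x ∈ O, inv x ∉ O) (h2 : 2 ≤ O.card) (hm : O.card + 2 ≤ g)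
    (hconst : ∀ b, b ∉ O → inv b ∉ O → ∀ y ∈ O, ∀ y' ∈ O, C b y = C b y') : a = 1 ∨ a' = 1 := by
  classical
  have hOn : O.Nonempty := by rw [← Finset.card_pos]; omega
  obtain ⟨Φ, hdisj, hhalf, hΦ⟩ := exists_adapted hinv C hC1 hCi hCs O hO hOn hconst
  have hcardU : O.card + Φ.card = g := by
    have h := hhalf.card hinv
    rw [hcard, Finset.card_union_of_disjoint hdisj] at h
    omega
  have hΦn : Φ.Nonempty := by rw [← Finset.card_pos]; omega
  have hsum : ∀ x z, ∑ y, C x y * C z y =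
      2 * (∑ y ∈ O, C x y * C z y + ∑ y ∈ Φ, C x y * C z y) := by
    intro x z
    rw [hhalf.sum_symm hinv (fun y => C x y * C z y) (fun y => by simp only [hCi]; ring),
      Finset.sum_union hdisj]
    ring
  have hone : ∀ x ∈ O, ∀ b ∈ Φ, C x b = 1 := fun x hx b hb => by rw [hCs]; exact (hΦ b hb).2.2 x hx
  -- first equation
  have eq1 : ∀ x ∈ O, ∀ b ∈ Φ, ∑ y ∈ O, C x y + ∑ y ∈ Φ, C b y = a' - a := by
    intro x hx b hb
    have h3 := hCC x b
    obtain ⟨hb1, hb2, hb3⟩ := hΦ b hb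
    have e1 : b ≠ x := fun h => hb1 (h.symm ▸ hx)
    have e2 : b ≠ inv x := fun h => hb2 (by rw [h, hinv]; exact hx)
    rw [if_neg e1, if_neg e2,
      hone x hx b hb, hsum, Finset.sum_congr rfl (fun y hy => by rw [hb3 y hy, mul_one] :
        ∀ y ∈ O, C x y * C b y = C x y),
      Finset.sum_congr rfl (fun y hy => by rw [hone x hx y hy, one_mul] :
        ∀ y ∈ Φ, C x y * C b y = C b y)] at h3
    linarith
  obtain ⟨o, ho⟩ := hOn
  obtain ⟨b, hb⟩ := hΦn
  set k := ∑ y ∈ O, C o y with hk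
  set κ := ∑ y ∈ Φ, C b y with hκ
  have hkc : ∀ x ∈ O, ∑ y ∈ O, C x y = k := by
    intro x hx
    have h3 := eq1 x hx b hb
    have h4 := eq1 o ho b hb
    linarith
  have hs := eq1 o ho b hb
  rw [← hk, ← hκ] at hs
  -- second equation
  have eq2 : k * k + (O.card : ℤ) * Φ.card = (a' - a) * k + a * a' := by
    have h3 : ∑ z ∈ O, ∑ y, C o y * C z y = ∑ z ∈ O, (2 * (a' - a) * C o z +
        (if z = o then 2 * (a * a') else 0) + (if z = inv o then -(2 * (a * a')) else 0)) :=
      Finset.sum_congr rfl fun z _ => hCC o z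
    rw [Finset.sum_add_distrib, Finset.sum_add_distrib, ← Finset.mul_sum, ← hk,
      Finset.sum_ite_eq' O o, if_pos ho, Finset.sum_ite_eq' O (inv o), if_neg (hO o ho),
      Finset.sum_congr rfl (fun z _ => hsum o z), ← Finset.mul_sum, Finset.sum_add_distrib] at h3
    have h4 : ∑ z ∈ O, ∑ y ∈ O, C o y * C z y = k * k := by
      rw [Finset.sum_comm]
      have : ∀ y ∈ O, ∑ z ∈ O, C o y * C z y = C o y * k := by
        intro y hy
        rw [← Finset.mul_sum, ← hkc y hy]
        congr 1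
        exact Finset.sum_congr rfl fun z _ => hCs z y
      rw [Finset.sum_congr rfl this, ← Finset.sum_mul, hk]
    have h5 : ∑ z ∈ O, ∑ y ∈ Φ, C o y * C z y = (O.card : ℤ) * Φ.card := by
      have : ∀ z ∈ O, ∑ y ∈ Φ, C o y * C z y = (Φ.card : ℤ) := by
        intro z hz
        rw [Finset.sum_congr rfl (fun y hy => by rw [hone o ho y hy, hone z hz y hy, one_mul] :
          ∀ y ∈ Φ, C o y * C z y = 1)]
        simp
      rw [Finset.sum_congr rfl this, Finset.sum_const, nsmul_eq_mul]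
    rw [h4, h5] at h3
    linarith
  have hkκ : k * κ = ((O.card : ℤ) - 1) * ((Φ.card : ℤ) - 1) := by
    have h3 : κ = (a' - a) - k := by linarith
    have h4 : (g : ℤ) = (O.card : ℤ) + Φ.card := by rw [← hcardU]; push_cast; ring
    have h5 : k * κ = (a' - a) * k - k * k := by rw [h3]; ring
    rw [h5]
    have h6 : a * a' = (O.card : ℤ) + Φ.card - 1 := by rw [haa, h4]
    linarith [eq2, h6]
  have habs : ∀ (S : Finset R) (x : R), x ∈ S → |∑ y ∈ S, C x y| ≤ (S.card : ℤ) - 1 := by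
    intro S x hx
    rw [← Finset.add_sum_erase S _ hx, hC0 x x (Or.inl rfl), zero_add]
    refine (Finset.abs_sum_le_sum_abs _ _).trans ?_
    have h3 : ∑ y ∈ S.erase x, |C x y| ≤ ∑ y ∈ S.erase x, (1 : ℤ) := by
      refine Finset.sum_le_sum fun y hy => ?_
      by_cases h4 : y = inv x
      · rw [hC0 x y (Or.inr h4), abs_zero]; exact zero_le_one
      · rcases hC1 x y (Finset.ne_of_mem_erase hy) h4 with h | h <;> rw [h] <;> simp
    refine h3.trans ?_
    rw [Finset.sum_const, nsmul_eq_mul, mul_one, Finset.card_erase_of_mem hx]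
    have : 0 < S.card := Finset.card_pos.2 ⟨x, hx⟩
    omega
  have hcast : a * a' = (O.card : ℤ) + Φ.card - 1 := by
    rw [haa, ← hcardU]; push_cast; ring
  rcases unit_of_eqs (by exact_mod_cast h2) (by
      have : 2 ≤ Φ.card := by omega
      exact_mod_cast this) hcast hs hkκ (habs O o ho) (habs Φ b hb) with h | h | h | h
  · exact Or.inl h
  · exact Or.inr h
  · omega
  · omega

/-- **The case of one more pair.** -/
theorem unit_eig_last (hinv : ∀ x, inv (inv x) = x) (hne : ∀ x, inv x ≠ x)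
    (g : ℕ) (hcard : Fintype.card R = 2 * g)
    (C : R → R → ℤ) (a a' : ℤ) (ha : 0 < a) (ha' : 0 < a') (haa : a * a' = (g : ℤ) - 1)
    (hC0 : ∀ x y, y = x ∨ y = inv x → C x y = 0)
    (hC1 : ∀ x y, y ≠ x → y ≠ inv x → C x y = 1 ∨ C x y = -1)
    (hCi : ∀ x y, C x (inv y) = -C x y) (hCs : ∀ x y, C x y = C y x)
    (w : R → ℤ) (hw : ∀ x, w (inv x) = -w x) (hCw : ∀ x, ∑ y, C x y * w y = -2 * a * w x)
    (O : Finset R) (hO : ∀ x ∈ O, inv x ∉ O) (hOn : O.Nonempty) (hm : O.card + 1 = g)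
    (hconst : ∀ b, b ∉ O → inv b ∉ O → ∀ y ∈ O, ∀ y' ∈ O, C b y = C b y')
    (w₁ : ℤ) (hw₁ : ∀ y ∈ O, w y = w₁)
    (b : R) (hb : b ∉ O) (hb' : inv b ∉ O)
    (hnum : ∀ t : ℤ, t ∣ (O.card : ℤ) → 1 < |t| → |t| < O.card → w b ≠ t * w₁) :
    a = 1 ∨ a' = 1 := by
  classical
  obtain ⟨Φ, hdisj, hhalf, hΦ⟩ := exists_adapted hinv C hC1 hCi hCs O hO hOn hconst
  have hcardU : O.card + Φ.card = g := by
    have h := hhalf.card hinv
    rw [hcard, Finset.card_union_of_disjoint hdisj] at h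
    omega
  have hΦ1 : Φ.card = 1 := by omega
  obtain ⟨b₀, hb₀⟩ := Finset.card_eq_one.1 hΦ1
  have hb₀Φ : b₀ ∈ Φ := by rw [hb₀]; exact Finset.mem_singleton_self _
  obtain ⟨h1, h2, h3⟩ := hΦ b₀ hb₀Φ
  have hbb : b = b₀ ∨ inv b = b₀ := by
    by_cases h : b ∈ O ∪ Φ
    · rcases Finset.mem_union.1 h with h | h
      · exact absurd h hb
      · rw [hb₀, Finset.mem_singleton] at h; exact Or.inl h
    · rw [hhalf b, not_not] at h
      rcases Finset.mem_union.1 h with h | h
      · exact absurd h hb'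
      · rw [hb₀, Finset.mem_singleton] at h; exact Or.inr h
  have heig := hCw b₀
  rw [hhalf.sum_symm hinv (fun y => C b₀ y * w y) (fun y => by simp only [hCi, hw]; ring),
    Finset.sum_union hdisj, Finset.sum_congr rfl (fun y hy => by rw [h3 y hy, one_mul, hw₁ y hy] :
      ∀ y ∈ O, C b₀ y * w y = w₁), hb₀, Finset.sum_singleton, hC0 b₀ b₀ (Or.inl rfl), zero_mul,
    Finset.sum_const, nsmul_eq_mul, add_zero] at heig
  have hn : (O.card : ℤ) = a * a' := by
    rw [haa, ← hm]; push_cast; ring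
  have h4 : a * (w b₀ + a' * w₁) = 0 := by
    rw [hn] at heig
    linarith
  have h5 : w b₀ = -a' * w₁ := by
    have := (mul_eq_zero.1 h4).resolve_left ha.ne'
    linarith
  by_contra hcon
  push Not at hcon
  have ha2 : 2 ≤ a := by have := hcon.1; omega
  have ha2' : 2 ≤ a' := by have := hcon.2; omega
  have hlt : a' < a * a' := by nlinarith
  rcases hbb with h | h
  · refine hnum (-a') ?_ ?_ ?_ (by rw [h, h5])
    · rw [hn, neg_dvd]; exact Dvd.intro_left _ rfl
    · rw [abs_neg, abs_of_pos ha']; omega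
    · rw [abs_neg, abs_of_pos ha', hn]; exact hlt
  · refine hnum a' ?_ ?_ ?_ ?_
    · rw [hn]; exact Dvd.intro_left _ rfl
    · rw [abs_of_pos ha']; omega
    · rw [abs_of_pos ha', hn]; exact hlt
    · have h6 : w b = -w b₀ := by rw [← h, hw]; ring
      rw [h6, h5]; ring

end

end Pool.Agent.H855
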