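import Mathlib
import Pool.Graph.R_seed8.H925R2.Rational
import Pool.Agent.H855.Local
import Pool.Agent.H855.PairOrb
import Pool.Agent.H855.Unit
import Pool.Agent.H855.Assemble

/-!
# The places of the maximal real subfield and the decomposition group
-/

namespace Pool.Agent.H855

open Polynomial Pool.Agent.H925R2

set_option linter.unusedSectionVars false

section

variable {f : ℚ[X]} (hf : Irreducible f) {q : ℚ} (hq : 0 < q)
  (hweil : ∀ z : ℂ, aeval z f = 0 → ‖z‖ ^ 2 = (q : ℝ))
  {p : ℕ} [Fact p.Prime] (e : f.SplittingField →ₐ[ℚ] PadicAlgCl p)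

/-- The minimal polynomial over `ℚ_p` of the embedded number `x + q / x`. -/
noncomputable def pmin (q : ℚ) (x : f.rootSet f.SplittingField) : ℚ_[p][X] :=
  minpoly ℚ_[p] (e (x.1 + (q : f.SplittingField) / x.1))

theorem pmin_smul (σ : f.Gal) (hσ : σ ∈ decomp e) (x : f.rootSet f.SplittingField) :
    pmin e q (σ • x) = pmin e q x := by
  obtain ⟨τ, hτ⟩ := hσ
  unfold pmin
  rw [smul_coe]
  have h1 := hτ (x.1 + (q : f.SplittingField) / x.1)
  have h2 : minpoly ℚ_[p] (τ (e (x.1 + (q : f.SplittingField) / x.1))) =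
      minpoly ℚ_[p] (e (x.1 + (q : f.SplittingField) / x.1)) := minpoly.algEquiv_eq τ _
  rw [h1, map_add, map_div₀, map_ratCast] at h2
  exact h2

theorem add_rinv (x : f.rootSet f.SplittingField) :
    (rinv hf hq hweil x).1 + (q : f.SplittingField) / (rinv hf hq hweil x).1 =
      x.1 + (q : f.SplittingField) / x.1 := by
  rw [rinv_coe]
  have hx0 := root_ne_zero hq hweil x.1 ((mem_rootSet.1 x.2).2)
  have hq0 : (q : f.SplittingField) ≠ 0 := by exact_mod_cast hq.ne'
  field_simp
  ring

theorem pmin_rinv (x : f.rootSet f.SplittingField) :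
    pmin e q (rinv hf hq hweil x) = pmin e q x := by
  unfold pmin
  rw [add_rinv]

theorem eq_or_of_add_eq (x y : f.rootSet f.SplittingField)
    (h : x.1 + (q : f.SplittingField) / x.1 = y.1 + (q : f.SplittingField) / y.1) :
    x = y ∨ x = rinv hf hq hweil y := by
  have hx := root_ne_zero hq hweil x.1 ((mem_rootSet.1 x.2).2)
  have hy := root_ne_zero hq hweil y.1 ((mem_rootSet.1 y.2).2)
  rcases (trace_eq_iff hy hx).1 h.symm with h1 | h1
  · exact Or.inl (Subtype.ext h1)
  · exact Or.inr (Subtype.ext (by rw [h1, rinv_coe]))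

theorem exists_decomp_of_pmin (x y : f.rootSet f.SplittingField)
    (h : pmin e q x = pmin e q y) :
    ∃ σ ∈ decomp e, σ • x = y ∨ σ • x = rinv hf hq hweil y := by
  have hn : Normal ℚ_[p] (PadicAlgCl p) := inferInstance
  obtain ⟨τ, hτ⟩ := (Normal.minpoly_eq_iff_mem_orbit (PadicAlgCl p)).1 h.symm
  obtain ⟨σ, hσ, hσ'⟩ := exists_mem_decomp e τ
  have h1 := hσ' (x.1 + (q : f.SplittingField) / x.1)
  have h2 : τ (e (x.1 + (q : f.SplittingField) / x.1)) =
    e (y.1 + (q : f.SplittingField) / y.1) := hτ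
  rw [h2] at h1
  have h3 := e.injective h1
  rw [map_add, map_div₀, map_ratCast] at h3
  refine ⟨σ, hσ, ?_⟩
  exact eq_or_of_add_eq hf hq hweil (σ • x) y h3.symm

open Classical in
/-- The local orbit of pairs of a root. -/
noncomputable def porb (q : ℚ) (x : f.rootSet f.SplittingField) :
    Finset (f.rootSet f.SplittingField) :=
  Finset.univ.filter (fun y => pmin e q y = pmin e q x)

theorem mem_porb (x y : f.rootSet f.SplittingField) :
    y ∈ porb e q x ↔ pmin e q y = pmin e q x := by
  classical
  simp [porb]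

include hf hq hweil in
theorem card_porb (hne : ∀ x, rinv hf hq hweil x ≠ x) (x : f.rootSet f.SplittingField) :
    (porb e q x).card = 2 * (pmin e q x).natDegree := by
  classical
  have hint : IsIntegral ℚ_[p] (e (x.1 + (q : f.SplittingField) / x.1)) :=
    Algebra.IsIntegral.isIntegral _
  have hsep : (pmin e q x).Separable := (minpoly.irreducible hint).separable
  have hsplit : ((pmin e q x).map (algebraMap ℚ_[p] (PadicAlgCl p))).Splits :=
    IsAlgClosed.splits _
  have h1 : Fintype.card ((pmin e q x).rootSet (PadicAlgCl p)) = (pmin e q x).natDegree :=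
    card_rootSet_eq_natDegree hsep hsplit
  have hroots : ∀ y : f.rootSet f.SplittingField, pmin e q y = pmin e q x →
      e (y.1 + (q : f.SplittingField) / y.1) ∈ (pmin e q x).rootSet (PadicAlgCl p) := by
    intro y hy
    rw [mem_rootSet]
    refine ⟨minpoly.ne_zero hint, ?_⟩
    rw [← hy]
    exact minpoly.aeval _ _
  let F : f.rootSet f.SplittingField → PadicAlgCl p :=
    fun y => e (y.1 + (q : f.SplittingField) / y.1)
  have h2 := Finset.card_eq_sum_card_fiberwise (f := F) (s := porb e q x)
    (t := ((pmin e q x).rootSet (PadicAlgCl p)).toFinset) (fun y hy => by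
      rw [Finset.mem_coe, Set.mem_toFinset]
      exact hroots y ((mem_porb e x y).1 hy))
  rw [h2]
  have h3 : ∀ β ∈ ((pmin e q x).rootSet (PadicAlgCl p)).toFinset,
      ((porb e q x).filter (fun y => F y = β)).card = 2 := by
    intro β hβ
    rw [Set.mem_toFinset, mem_rootSet] at hβ
    have h4 : pmin e q x = minpoly ℚ_[p] β :=
      minpoly.eq_of_irreducible_of_monic (minpoly.irreducible hint) hβ.2 (minpoly.monic hint)
    have hn : Normal ℚ_[p] (PadicAlgCl p) := inferInstance
    obtain ⟨τ, hτ⟩ := (Normal.minpoly_eq_iff_mem_orbit (PadicAlgCl p)).1 h4.symm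
    obtain ⟨σ, hσ, hσ'⟩ := exists_mem_decomp e τ
    have h5 : F (σ • x) = β := by
      have h6 := hσ' (x.1 + (q : f.SplittingField) / x.1)
      have h7 : τ (e (x.1 + (q : f.SplittingField) / x.1)) = β := hτ
      rw [h7, map_add, map_div₀, map_ratCast] at h6
      exact h6.symm
    have h8 : (porb e q x).filter (fun y => F y = β) =
        {σ • x, rinv hf hq hweil (σ • x)} := by
      ext y
      rw [Finset.mem_filter, Finset.mem_insert, Finset.mem_singleton, mem_porb]
      constructor
      · rintro ⟨_, hy⟩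
        rw [← h5] at hy
        exact eq_or_of_add_eq hf hq hweil y (σ • x) (e.injective hy)
      · rintro (hy | hy)
        · rw [hy]
          exact ⟨pmin_smul e σ hσ x, h5⟩
        · rw [hy]
          refine ⟨by rw [pmin_rinv, pmin_smul e σ hσ x], ?_⟩
          rw [← h5]
          change e _ = e _
          rw [add_rinv]
    rw [h8, Finset.card_pair (hne _).symm]
  rw [Finset.sum_congr rfl h3, Finset.sum_const, smul_eq_mul, Set.toFinset_card, h1, mul_comm]

include hf hq hweil in
/-- If the local degrees agree, the local orbit contains no pair. -/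
theorem rinv_notMem_of_degree (hne : ∀ x, rinv hf hq hweil x ≠ x)
    (x : f.rootSet f.SplittingField) (h : (lmin e x).natDegree = (pmin e q x).natDegree)
    (y : f.rootSet f.SplittingField) (hy : y ∈ lorb e x) : rinv hf hq hweil y ∉ lorb e x := by
  classical
  intro hy'
  -- then the local orbit is closed under the involution
  have hcl : ∀ z ∈ lorb e x, rinv hf hq hweil z ∈ lorb e x := by
    intro z hz
    obtain ⟨σ, hσ, rfl⟩ := lorb_trans e x y z hy hz
    rw [← smul_rinv]
    exact lorb_stable e x _ σ hσ hy'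
  have hsub : porb e q x ⊆ lorb e x := by
    intro z hz
    rw [mem_porb] at hz
    obtain ⟨σ, hσ, h1 | h1⟩ := exists_decomp_of_pmin hf hq hweil e x z hz.symm
    · rw [← h1]
      exact lorb_stable e x _ σ hσ ((mem_lorb e x x).2 rfl)
    · have h2 : rinv hf hq hweil z ∈ lorb e x := by
        rw [← h1]
        exact lorb_stable e x _ σ hσ ((mem_lorb e x x).2 rfl)
      have h3 := hcl _ h2
      rwa [rinv_rinv] at h3
  have h1 := Finset.card_le_card hsub
  rw [card_porb hf hq hweil e hne, card_lorb e hf, h] at h1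
  have h2 : 0 < (pmin e q x).natDegree := by
    rw [← h]
    exact minpoly.natDegree_pos (Algebra.IsIntegral.isIntegral _)
  omega

/-- The hypotheses on the place: the degree `n` is coprime to the other degrees, and either the group
is primitive on the pairs or `n` is coprime to `g` and larger than all proper divisors of `g`. -/
structure GoodPlace (g n : ℕ) (x₁ : f.rootSet f.SplittingField) : Prop where
  deg : (pmin e q x₁).natDegree = n
  two_le : 2 ≤ n
  lt : n < g
  prim : (n.Coprime g ∧ ∀ d, d ∣ g → d < g → d < n) ∨ PairPrimitive f.Gal (rinv hf hq hweil)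
  other : ∀ b, pmin e q b ≠ pmin e q x₁ → n.Coprime (pmin e q b).natDegree

variable {g n : ℕ} {x₁ : f.rootSet f.SplittingField}

include hf hq hweil in
theorem pairs_of_place (hne : ∀ x, rinv hf hq hweil x ≠ x) (hdeg : f.natDegree = 2 * g)
    (h : GoodPlace hf hq hweil e g n x₁)
    (x y x' y' : f.rootSet f.SplittingField) (h1 : y ≠ x) (h1' : y ≠ rinv hf hq hweil x)
    (h3 : y' ≠ x') (h4 : y' ≠ rinv hf hq hweil x') :
    ∃ g : f.Gal, (g • x = x' ∨ g • x = rinv hf hq hweil x') ∧
      (g • y = y' ∨ g • y = rinv hf hq hweil y') := by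
  classical
  have _ : MulAction.IsPretransitive f.Gal (f.rootSet f.SplittingField) := gal_pretransitive hf
  refine pairs_of_orbit (G := f.Gal) (rinv_rinv hf hq hweil) hne (smul_rinv hf hq hweil) g n
    (by rw [card_roots hf, hdeg]) (porb e q x₁) ?_ (by rw [card_porb hf hq hweil e hne, h.deg])
    h.two_le h.lt h.prim ?_ x y x' y' h1 h1' h3 h4
  · intro z hz
    rw [mem_porb] at hz ⊢
    rw [pmin_rinv, hz]
  · intro b hb y hy y' hy'
    rw [mem_porb] at hb
    obtain ⟨d, _, hd⟩ := pair_trans_coprime (rinv_rinv hf hq hweil) hne (smul_rinv hf hq hweil)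
      (decomp e) (porb e q x₁) (porb e q b)
      (fun z hz => by rw [mem_porb] at hz ⊢; rw [pmin_rinv, hz])
      (fun z hz => by rw [mem_porb] at hz ⊢; rw [pmin_rinv, hz])
      (fun d hd z hz => by rw [mem_porb] at hz ⊢; rw [pmin_smul e d hd, hz])
      (fun d hd z hz => by rw [mem_porb] at hz ⊢; rw [pmin_smul e d hd, hz])
      (fun u hu v hv => exists_decomp_of_pmin hf hq hweil e u v (by
        rw [mem_porb] at hu hv; rw [hu, hv]))
      (fun u hu v hv => exists_decomp_of_pmin hf hq hweil e u v (by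
        rw [mem_porb] at hu hv; rw [hu, hv]))
      n (pmin e q b).natDegree (by rw [card_porb hf hq hweil e hne, h.deg])
      (by rw [card_porb hf hq hweil e hne]) (h.other b hb) y hy y' hy' b
      ((mem_porb e b b).2 rfl)
    exact ⟨d, hd⟩

include hf hq hweil in
/-- The stabilisers of the roots outside of the block are transitive on it. -/
theorem stab_trans_of_place (hne : ∀ x, rinv hf hq hweil x ≠ x)
    (h : GoodPlace hf hq hweil e g n x₁) (hsplit : (lmin e x₁).natDegree = n)
    (hodd : Odd n ∨ ∀ b, pmin e q b ≠ pmin e q x₁ →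
      (lmin e b).natDegree = (pmin e q b).natDegree)
    (b : f.rootSet f.SplittingField) (hb : b ∉ lorb e x₁) (hb' : rinv hf hq hweil b ∉ lorb e x₁)
    (y : f.rootSet f.SplittingField) (hy : y ∈ lorb e x₁)
    (y' : f.rootSet f.SplittingField) (hy' : y' ∈ lorb e x₁) :
    ∃ d ∈ decomp e, d • y = y' ∧ d • b = b := by
  classical
  have hOi := rinv_notMem_of_degree hf hq hweil e hne x₁ (by rw [hsplit, h.deg])
  have hbp : pmin e q b ≠ pmin e q x₁ := by
    intro hcon
    obtain ⟨σ, hσ, h1 | h1⟩ := exists_decomp_of_pmin hf hq hweil e x₁ b hcon.symm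
    · exact hb (h1 ▸ lorb_stable e x₁ _ σ hσ ((mem_lorb e x₁ x₁).2 rfl))
    · exact hb' (h1 ▸ lorb_stable e x₁ _ σ hσ ((mem_lorb e x₁ x₁).2 rfl))
  have hlp : ∀ z ∈ lorb e x₁, z ∈ porb e q x₁ := by
    intro z hz
    obtain ⟨σ, hσ, rfl⟩ := lorb_trans e x₁ x₁ z ((mem_lorb e x₁ x₁).2 rfl) hz
    rw [mem_porb, pmin_smul e σ hσ]
  rcases hodd with hodd | hsp
  swap
  · have horb : ∀ u : f.rootSet f.SplittingField,
        MulAction.orbit (decomp e) u = (lorb e u : Set (f.rootSet f.SplittingField)) := by
      intro u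
      ext z
      constructor
      · rintro ⟨d, rfl⟩
        exact Finset.mem_coe.2 (lorb_stable e u u d.1 d.2 ((mem_lorb e u u).2 rfl))
      · intro hz
        obtain ⟨d, hd, h1⟩ := lorb_trans e u u z ((mem_lorb e u u).2 rfl) (Finset.mem_coe.1 hz)
        exact ⟨⟨d, hd⟩, h1⟩
    have hyx : lorb e y = lorb e x₁ := by
      ext z
      rw [mem_lorb, mem_lorb, (mem_lorb e x₁ y).1 hy]
    obtain ⟨d, hd, hd'⟩ := trans_of_coprime_index (G := decomp e)
      (MulAction.stabilizer (decomp e) b) y (by
        rw [MulAction.index_stabilizer, horb y, horb b, Set.ncard_coe_finset, Set.ncard_coe_finset,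
          hyx, card_lorb e hf, card_lorb e hf, hsplit, hsp b hbp]
        exact h.other b hbp) y' (by rw [horb y, hyx]; exact Finset.mem_coe.2 hy')
    exact ⟨d.1, d.2, hd', hd⟩
  refine stab_trans_of_odd (G := f.Gal) (smul_rinv hf hq hweil) (decomp e) (lorb e x₁)
    (fun d hd x hx => lorb_stable e x₁ x d hd hx) (by rw [card_lorb e hf, hsplit]; exact hodd) b
    (rinv_rinv hf hq hweil) ?_ y hy y' hy'
  intro y hy y' hy'
  obtain ⟨d, hd, hd1, hd2⟩ := pair_trans_coprime (rinv_rinv hf hq hweil) hne
      (smul_rinv hf hq hweil) (decomp e) (porb e q x₁) (porb e q b)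
      (fun z hz => by rw [mem_porb] at hz ⊢; rw [pmin_rinv, hz])
      (fun z hz => by rw [mem_porb] at hz ⊢; rw [pmin_rinv, hz])
      (fun d hd z hz => by rw [mem_porb] at hz ⊢; rw [pmin_smul e d hd, hz])
      (fun d hd z hz => by rw [mem_porb] at hz ⊢; rw [pmin_smul e d hd, hz])
      (fun u hu v hv => exists_decomp_of_pmin hf hq hweil e u v (by
        rw [mem_porb] at hu hv; rw [hu, hv]))
      (fun u hu v hv => exists_decomp_of_pmin hf hq hweil e u v (by
        rw [mem_porb] at hu hv; rw [hu, hv]))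
      n (pmin e q b).natDegree (by rw [card_porb hf hq hweil e hne, h.deg])
      (by rw [card_porb hf hq hweil e hne]) (h.other b hbp) y (hlp y hy) y' (hlp y' hy') b
      ((mem_porb e b b).2 rfl)
  refine ⟨d, hd, ?_, hd2⟩
  rcases hd1 with hd1 | hd1
  · exact hd1
  · exact absurd (hd1 ▸ lorb_stable e x₁ y d hd hy) (hOi y' hy')

end

end Pool.Agent.H855
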