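import Mathlib
import Pool.Graph.R_seed8.H925R2.Rational
import Pool.Graph.R_seed8.H485R3.Group
import Pool.Agent.H855.Place
import Pool.Agent.H855.Final

/-!
# Relations between the valuations and roots of unity
-/

namespace Pool.Agent.H855

open Polynomial Pool.Agent.H925R2

set_option linter.unusedSectionVars false

theorem normal_gen {F : Type*} [Field F] (f : F[X]) : Normal F f.SplittingField :=
  Normal.of_isSplittingField f

theorem normal_sf (f : ℚ[X]) : Normal ℚ f.SplittingField := by
  have h := normal_gen f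
  convert h
  exact Subsingleton.elim _ _

theorem prod_zpow_const {ι : Type*} (s : Finset ι) (r : ℝ) (hr : r ≠ 0) (k : ι → ℤ) :
    ∏ i ∈ s, r ^ k i = r ^ ∑ i ∈ s, k i := by
  classical
  induction s using Finset.induction_on with
  | empty => simp
  | insert i s hi ih => rw [Finset.prod_insert hi, Finset.sum_insert hi, ih, zpow_add₀ hr]

section

variable {p : ℕ} [Fact p.Prime] {a : ℕ} {f : ℚ[X]} (hf : Irreducible f)
  (hweil : ∀ z : ℂ, aeval z f = 0 → ‖z‖ ^ 2 = (p : ℝ) ^ a)
  (hint : ∀ z : ℂ, aeval z f = 0 → IsIntegral ℤ z)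

include hf hint in
theorem isIntegral_root (x : f.SplittingField) (hx : aeval x f = 0) : IsIntegral ℤ x := by
  let j : f.SplittingField →ₐ[ℚ] ℂ := IsAlgClosed.lift
  have h1 : IsIntegral ℤ (j x) := hint _ (by rw [aeval_algHom_apply, hx, map_zero])
  have h2 : (j : f.SplittingField →+* ℂ).toIntAlgHom x = j x := rfl
  rw [← h2] at h1
  exact (isIntegral_algHom_iff ((j : f.SplittingField →+* ℂ).toIntAlgHom)
    (RingHom.injective (j : f.SplittingField →+* ℂ))).1 h1

include hf hweil hint in
/-- The roots are units at the other primes. -/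
theorem norm_root_eq_one (l : ℕ) [Fact l.Prime] (hl : l ≠ p)
    (e' : f.SplittingField →ₐ[ℚ] PadicAlgCl l) (x : f.rootSet f.SplittingField) :
    ‖e' x.1‖ = 1 := by
  have hle : ∀ y : f.rootSet f.SplittingField, ‖e' y.1‖ ≤ 1 := by
    intro y
    apply Pool.Agent.H485R3.norm_le_one_of_isIntegral
    have h1 := isIntegral_root hf hint y.1 (mem_rootSet.1 y.2).2
    exact h1.map ((e' : f.SplittingField →+* PadicAlgCl l).toIntAlgHom)
  have h1 := hle x
  have h2 := hle (rinv hf (q_pos p a) (weil_cast hweil) x)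
  have hx0 := root_ne_zero (q_pos p a) (weil_cast hweil) x.1 ((mem_rootSet.1 x.2).2)
  have h3 : ‖e' x.1‖ * ‖e' (rinv hf (q_pos p a) (weil_cast hweil) x).1‖ = 1 := by
    rw [← norm_mul, ← map_mul, rinv_coe, mul_div_cancel₀ _ hx0, map_ratCast]
    have h4 : ((((p : ℚ) ^ a : ℚ)) : PadicAlgCl l) =
        algebraMap ℚ_[l] (PadicAlgCl l) ((p : ℚ_[l]) ^ a) := by
      push_cast
      rfl
    rw [h4, PadicAlgCl.norm_extends, norm_pow]
    have h5 : ‖(p : ℚ_[l])‖ = 1 := by
      have hcop : (p : ℤ).natAbs.Coprime l := by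
        rw [Int.natAbs_natCast]
        exact (Nat.coprime_primes (Fact.out : p.Prime) (Fact.out : l.Prime)).2 hl.symm
      have h6 : ¬ ‖((p : ℤ) : ℚ_[l])‖ < 1 := by
        rw [Padic.norm_intCast_lt_one_iff]
        intro h7
        have h8 : l ∣ p := by exact_mod_cast h7
        exact hl ((Nat.prime_dvd_prime_iff_eq (Fact.out : l.Prime) (Fact.out : p.Prime)).1 h8)
      have h7 : ‖((p : ℤ) : ℚ_[l])‖ ≤ 1 := Padic.norm_int_le_one _
      have h8 := le_antisymm h7 (not_lt.1 h6)
      exact_mod_cast h8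
    rw [h5, one_pow]
  have h4 : 0 ≤ ‖e' x.1‖ := norm_nonneg _
  nlinarith [norm_nonneg (e' (rinv hf (q_pos p a) (weil_cast hweil) x).1)]

include hf hweil hint in
/-- **Roots of unity from relations of degree zero.** -/
theorem torsion_of_rel (e : f.SplittingField →ₐ[ℚ] PadicAlgCl p)
    (k : f.rootSet f.SplittingField → ℤ) (hk : ∑ x, k x = 0)
    (hrel : ∀ σ : f.Gal, ∑ x : f.rootSet f.SplittingField, (k x : ℝ) *
      dev p ((p : ℚ) ^ a) (e (σ • x : f.rootSet f.SplittingField).1) = 0) :
    ∃ N : ℕ, 0 < N ∧ (∏ x : f.rootSet f.SplittingField, x.1 ^ k x) ^ N = 1 := by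
  classical
  have hnormal : Normal ℚ f.SplittingField := normal_sf f
  set u := ∏ x : f.rootSet f.SplittingField, x.1 ^ k x with hu
  have hx0 : ∀ x : f.rootSet f.SplittingField, x.1 ≠ 0 := fun x =>
    root_ne_zero (q_pos p a) (weil_cast hweil) x.1 ((mem_rootSet.1 x.2).2)
  have hp0 : (0 : ℝ) < (p : ℝ) ^ a := pow_pos (by exact_mod_cast (Fact.out : p.Prime).pos) _
  apply Pool.Agent.H485R3.pow_eq_one_of_norm
  · apply Pool.Agent.H485R3.isIntegral_of_norm_le
    intro l _ e'
    by_cases hl : l = p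
    · subst hl
      obtain ⟨σ, hσ⟩ := Pool.Agent.H485R3.exists_gal e e'
      have h1 : ‖e' u‖ = 1 := by
        have hpos : 0 < ‖e' u‖ := by
          rw [norm_pos_iff]
          refine (map_ne_zero e').2 ?_
          exact Finset.prod_ne_zero_iff.2 fun x _ => zpow_ne_zero _ (hx0 x)
        have h2 : Real.log ‖e' u‖ = 0 := by
          rw [hu, map_prod, norm_prod, Real.log_prod (fun x _ => by
            rw [map_zpow₀, norm_zpow]
            exact zpow_ne_zero _ (norm_ne_zero_iff.2 ((map_ne_zero e').2 (hx0 x))))]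
          have h3 := hrel σ
          have h4 : ∀ x : f.rootSet f.SplittingField, (k x : ℝ) *
              dev l ((l : ℚ) ^ a) (e (σ • x : f.rootSet f.SplittingField).1) =
              2 * Real.log ‖e' (x.1 ^ k x)‖ -
                k x * Real.log ‖((((l : ℚ) ^ a : ℚ)) : PadicAlgCl l)‖ := by
            intro x
            rw [map_zpow₀, norm_zpow, Real.log_zpow, hσ]
            unfold dev
            have h5 : ((σ • x : f.rootSet f.SplittingField).1) =
              (σ : f.SplittingField ≃ₐ[ℚ] f.SplittingField) x.1 := rfl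
            rw [h5]
            ring
          have h3' : ∑ x : f.rootSet f.SplittingField, (2 * Real.log ‖e' (x.1 ^ k x)‖ -
              k x * Real.log ‖((((l : ℚ) ^ a : ℚ)) : PadicAlgCl l)‖) = 0 := by
            rw [← h3]
            exact Finset.sum_congr rfl fun x _ => (h4 x).symm
          rw [Finset.sum_sub_distrib, ← Finset.mul_sum, ← Finset.sum_mul] at h3'
          have h6 : (∑ x : f.rootSet f.SplittingField, (k x : ℝ)) = 0 := by exact_mod_cast hk
          rw [h6, zero_mul, sub_zero] at h3'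
          linarith
        rcases Real.log_eq_zero.1 h2 with h3 | h3 | h3
        · linarith
        · exact h3
        · linarith
      exact h1.le
    · rw [hu, map_prod, norm_prod]
      refine le_of_eq (Finset.prod_eq_one fun x _ => ?_)
      rw [map_zpow₀, norm_zpow, norm_root_eq_one hf hweil hint l hl e' x, one_zpow]
  · intro φ
    rw [hu, map_prod, norm_prod]
    have h1 : ∀ x : f.rootSet f.SplittingField, ‖φ x.1‖ = Real.sqrt ((p : ℝ) ^ a) := by
      intro x
      have h2 := hweil (φ x.1) (by rw [aeval_algHom_apply, (mem_rootSet.1 x.2).2, map_zero])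
      rw [← h2, Real.sqrt_sq (norm_nonneg _)]
    have h2 : ∀ x : f.rootSet f.SplittingField, ‖φ (x.1 ^ k x)‖ =
        Real.sqrt ((p : ℝ) ^ a) ^ k x := by
      intro x
      rw [map_zpow₀, norm_zpow, h1]
    rw [Finset.prod_congr rfl fun x _ => h2 x]
    have hs : Real.sqrt ((p : ℝ) ^ a) ≠ 0 := (Real.sqrt_pos.2 hp0).ne'
    have h3 : ∏ x : f.rootSet f.SplittingField, Real.sqrt ((p : ℝ) ^ a) ^ k x =
        Real.sqrt ((p : ℝ) ^ a) ^ (∑ x, k x) := prod_zpow_const _ _ hs _
    rw [h3, hk, zpow_zero]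

end

end Pool.Agent.H855
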