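import Mathlib
import Pool.Agent.H855.Torsion

/-!
# Absolutely simple abelian varieties: the vector of deviations is not of sign type
-/

namespace Pool.Agent.H855

open Polynomial Pool.Agent.H925R2

set_option linter.unusedSectionVars false

section

variable {p : ℕ} [Fact p.Prime] {a : ℕ} {f : ℚ[X]} (hf : Irreducible f)
  (hweil : ∀ z : ℂ, aeval z f = 0 → ‖z‖ ^ 2 = (p : ℝ) ^ a)
  (hint : ∀ z : ℂ, aeval z f = 0 → IsIntegral ℤ z)
  (hnd : ∀ z w : ℂ, aeval z f = 0 → aeval w f = 0 → ∀ k : ℕ, 0 < k → z ^ k = w ^ k → z = w)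

include hf hweil hint hnd in
/-- Roots with the same deviations at all places are equal. -/
theorem eq_of_dev_eq (e : f.SplittingField →ₐ[ℚ] PadicAlgCl p)
    (x y : f.rootSet f.SplittingField)
    (h : ∀ σ : f.Gal, dev p ((p : ℚ) ^ a) (e (σ • y : f.rootSet f.SplittingField).1) =
      dev p ((p : ℚ) ^ a) (e (σ • x : f.rootSet f.SplittingField).1)) : y = x := by
  classical
  by_contra hxy
  obtain ⟨N, hN, hpow⟩ := torsion_of_rel hf hweil hint e
    (fun z => (if z = y then 1 else 0) - (if z = x then 1 else 0)) (by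
      rw [Finset.sum_sub_distrib]
      simp) (by
      intro σ
      have h1 : ∀ z : f.rootSet f.SplittingField,
          ((((if z = y then 1 else 0) - (if z = x then 1 else 0) : ℤ)) : ℝ) *
            dev p ((p : ℚ) ^ a) (e (σ • z : f.rootSet f.SplittingField).1) =
          (if z = y then dev p ((p : ℚ) ^ a) (e (σ • z : f.rootSet f.SplittingField).1) else 0) -
          (if z = x then dev p ((p : ℚ) ^ a) (e (σ • z : f.rootSet f.SplittingField).1) else 0) := by
        intro z
        split_ifs <;> simp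
      rw [Finset.sum_congr rfl fun z _ => h1 z, Finset.sum_sub_distrib, Finset.sum_ite_eq',
        Finset.sum_ite_eq', if_pos (Finset.mem_univ _), if_pos (Finset.mem_univ _), h σ,
        sub_self])
  have hx0 : x.1 ≠ 0 := root_ne_zero (q_pos p a) (weil_cast hweil) x.1 ((mem_rootSet.1 x.2).2)
  have h2 : ∏ z : f.rootSet f.SplittingField,
      z.1 ^ (((if z = y then 1 else 0) - (if z = x then 1 else 0) : ℤ)) = y.1 / x.1 := by
    have h3 : ∀ z : f.rootSet f.SplittingField,
        z.1 ^ (((if z = y then 1 else 0) - (if z = x then 1 else 0) : ℤ)) =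
        (if z = y then z.1 else 1) * (if z = x then z.1⁻¹ else 1) := by
      intro z
      have hz0 : z.1 ≠ 0 := root_ne_zero (q_pos p a) (weil_cast hweil) z.1 ((mem_rootSet.1 z.2).2)
      split_ifs with h4 h5 h5
      · exact absurd (h4.symm.trans h5).symm (fun h => hxy h.symm)
      · simp
      · simp
      · simp
    rw [Finset.prod_congr rfl fun z _ => h3 z, Finset.prod_mul_distrib, Finset.prod_ite_eq',
      Finset.prod_ite_eq']
    simp [div_eq_mul_inv]
  rw [h2, div_pow, div_eq_one_iff_eq (pow_ne_zero _ hx0)] at hpow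
  let j : f.SplittingField →ₐ[ℚ] ℂ := IsAlgClosed.lift
  have hr : ∀ z : f.rootSet f.SplittingField, aeval (j z.1) f = 0 := by
    intro z
    rw [aeval_algHom_apply, (mem_rootSet.1 z.2).2, map_zero]
  have h3 := hnd (j y.1) (j x.1) (hr y) (hr x) N hN (by rw [← map_pow, ← map_pow, hpow])
  exact hxy (Subtype.ext (j.injective h3))

include hf hweil hint hnd in
/-- Some slope is not `1 / 2`. -/
theorem exists_dev_ne (hdeg : 1 < f.natDegree) (e : f.SplittingField →ₐ[ℚ] PadicAlgCl p) :
    ∃ α : PadicAlgCl p, aeval α f = 0 ∧ dev p ((p : ℚ) ^ a) α ≠ 0 := by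
  by_contra hcon
  push Not at hcon
  have hroot : ∀ x : f.rootSet f.SplittingField, aeval (e x.1) f = 0 := by
    intro x
    rw [aeval_algHom_apply, (mem_rootSet.1 x.2).2, map_zero]
  have hcard := card_roots hf
  have h1 : 1 < Fintype.card (f.rootSet f.SplittingField) := by rw [hcard]; exact hdeg
  obtain ⟨x, y, hxy⟩ := Fintype.one_lt_card_iff.1 h1
  exact hxy (eq_of_dev_eq hf hweil hint hnd e y x fun σ => by
    rw [hcon _ (hroot _), hcon _ (hroot _)])

include hf hweil hint hnd in
/-- **The vector of deviations is not of sign type.** -/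
theorem not_signType_dev (hdeg : 2 < f.natDegree) (e : f.SplittingField →ₐ[ℚ] PadicAlgCl p)
    (κ : ℝ) (w : f.rootSet f.SplittingField → ℤ)
    (hw : ∀ x : f.rootSet f.SplittingField, dev p ((p : ℚ) ^ a) (e x.1) = κ * w x) :
    ¬ SignType f.Gal w := by
  classical
  intro hs
  have _ : MulAction.IsPretransitive f.Gal (f.rootSet f.SplittingField) := gal_pretransitive hf
  have hfix : ∀ σ : f.Gal, (∀ x, w (σ • x) = w x) → ∀ x : f.rootSet f.SplittingField,
      σ • x = x := by
    intro σ hσ x
    refine eq_of_dev_eq hf hweil hint hnd e x (σ • x) fun τ => ?_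
    rw [hw, hw]
    rcases hs τ with h | h
    · rw [h, h, hσ]
    · rw [h, h, hσ]
  have hcard := card_roots hf
  have h1 : 2 < Fintype.card (f.rootSet f.SplittingField) := by rw [hcard]; exact hdeg
  obtain ⟨x, y, z, hxy, hxz, hyz⟩ := Fintype.two_lt_card_iff.1 h1
  obtain ⟨σ, hσ⟩ := MulAction.exists_smul_eq f.Gal x y
  obtain ⟨τ, hτ⟩ := MulAction.exists_smul_eq f.Gal x z
  rcases hs σ with h | h
  · exact hxy (by rw [← hσ, hfix σ h])
  rcases hs τ with h' | h'
  · exact hxz (by rw [← hτ, hfix τ h'])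
  have h3 : ∀ u, w ((τ⁻¹ * σ) • u) = w u := by
    intro u
    rw [mul_smul]
    have h4 := h' (τ⁻¹ • σ • u)
    rw [smul_inv_smul, h] at h4
    linarith
  have h4 := hfix _ h3 x
  rw [mul_smul, hσ, inv_smul_eq_iff, hτ] at h4
  exact hyz h4

end

end Pool.Agent.H855
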