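import Mathlib
import Pool.Agent.H855.Place

/-!
# Relations are of sign type if there is a good place
-/

namespace Pool.Agent.H855

open Polynomial Pool.Agent.H925R2

set_option linter.unusedSectionVars false

section abstract

variable {R : Type*} [Fintype R] [DecidableEq R] {inv : R → R}
variable {G : Type*} [Group G] [Fintype G] [MulAction G R]

/-- If the two-graph has an eigenvalue `± 1`, the relation or the vector is of sign type. -/
theorem signType_of_unit [MulAction.IsPretransitive G R]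
    (hinv : ∀ x, inv (inv x) = x) (hne : ∀ x, inv x ≠ x)
    (hG : ∀ (g : G) (x : R), g • inv x = inv (g • x))
    (n : ℕ) (hcard : Fintype.card R = 2 * n)
    (c w : R → ℤ) (hc : ∀ x, c (inv x) = -c x) (hw : ∀ x, w (inv x) = -w x)
    (hc0 : ∃ x, c x ≠ 0) (hw0 : ∃ x, w x ≠ 0)
    (C : R → R → ℤ) (a a' : ℤ) (ha : 0 < a) (ha' : 0 < a') (haa : a * a' = (n : ℤ) - 1)
    (hC0 : ∀ x y, y = x ∨ y = inv x → C x y = 0)
    (hC1 : ∀ x y, y ≠ x → y ≠ inv x → C x y = 1 ∨ C x y = -1)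
    (hCg : ∀ (g : G) x y, C (g • x) (g • y) = C x y)
    (hCi : ∀ x y, C x (inv y) = -C x y)
    (hCw : ∀ x, ∑ y, C x y * w y = -2 * a * w x)
    (hCc : ∀ x, ∑ y, C x y * c y = 2 * a' * c x)
    (hu : a = 1 ∨ a' = 1) : SignType G c ∨ SignType G w := by
  have hCw' : ∀ x, ∑ y, C x y * w y = 2 * (-a) * w x := fun x => by rw [hCw x]; ring
  have fin_max : ∀ (v : R → ℤ) (l : ℤ), (∀ x, v (inv x) = -v x) → |l| = (n : ℤ) - 1 →
      (∀ x, ∑ y, C x y * v y = 2 * l * v x) → (∃ x, v x ≠ 0) → SignType G v := by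
    intro v l hv hle hl hv0
    exact signType_of_full C hCg v hG hv l hl
      (fun u hu hlu hu0 => full_of_max hinv hne C hC0 hC1 hCi n hcard u hu l hle hlu hu0) hv0
  rcases hu with h3 | h3
  · left
    apply fin_max c a' hc _ hCc hc0
    rw [h3, one_mul] at haa
    rw [abs_of_pos ha', haa]
  · right
    apply fin_max w (-a) hw _ hCw' hw0
    rw [h3, mul_one] at haa
    rw [abs_neg, abs_of_pos ha, haa]

/-- A block seen uniformly, of size between `2` and `g - 2`. -/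
theorem signType_of_uniform [MulAction.IsPretransitive G R]
    (hinv : ∀ x, inv (inv x) = x) (hne : ∀ x, inv x ≠ x)
    (hG : ∀ (g : G) (x : R), g • inv x = inv (g • x))
    (h2 : ∀ x y x' y' : R, y ≠ x → y ≠ inv x → y' ≠ x' → y' ≠ inv x' →
      ∃ g : G, (g • x = x' ∨ g • x = inv x') ∧ (g • y = y' ∨ g • y = inv y'))
    (g : ℕ) (hcard : Fintype.card R = 2 * g)
    (O : Finset R) (hO : ∀ x ∈ O, inv x ∉ O) (hn : 2 ≤ O.card) (hm : O.card + 2 ≤ g)
    (hst : ∀ b, b ∉ O → inv b ∉ O → ∀ y ∈ O, ∀ y' ∈ O, ∃ d : G, d • y = y' ∧ d • b = b)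
    (c w : R → ℤ) (hc : ∀ x, c (inv x) = -c x) (hw : ∀ x, w (inv x) = -w x)
    (hc0 : ∃ x, c x ≠ 0) (hw0 : ∃ x, w x ≠ 0)
    (hrel : ∀ g : G, ∑ x, c x * w (g • x) = 0) : SignType G c ∨ SignType G w := by
  obtain ⟨C, a, a', ha, ha', haa, hC0, hC1, hCg, hCi, hCw, hCc, hCs, hCC⟩ :=
    twograph2 hinv hne hG h2 g hcard c w hc hw hc0 hw0 hrel
  refine signType_of_unit hinv hne hG g hcard c w hc hw hc0 hw0 C a a' ha ha' haa hC0 hC1 hCg hCi
    hCw hCc ?_
  refine unit_eig hinv hne g hcard C a a' ha ha' haa hC0 hC1 hCi hCs hCC O hO hn hm ?_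
  intro b hb hb' y hy y' hy'
  obtain ⟨d, h3, h4⟩ := hst b hb hb' y hy y' hy'
  conv_rhs => rw [← h3, ← h4]
  rw [hCg]

/-- A block seen uniformly which contains all pairs but one. -/
theorem signType_of_uniform_last [MulAction.IsPretransitive G R]
    (hinv : ∀ x, inv (inv x) = x) (hne : ∀ x, inv x ≠ x)
    (hG : ∀ (g : G) (x : R), g • inv x = inv (g • x))
    (h2 : ∀ x y x' y' : R, y ≠ x → y ≠ inv x → y' ≠ x' → y' ≠ inv x' →
      ∃ g : G, (g • x = x' ∨ g • x = inv x') ∧ (g • y = y' ∨ g • y = inv y'))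
    (g : ℕ) (hcard : Fintype.card R = 2 * g)
    (O : Finset R) (hO : ∀ x ∈ O, inv x ∉ O) (hOn : O.Nonempty) (hm : O.card + 1 = g)
    (hst : ∀ b, b ∉ O → inv b ∉ O → ∀ y ∈ O, ∀ y' ∈ O, ∃ d : G, d • y = y' ∧ d • b = b)
    (c w : R → ℤ) (hc : ∀ x, c (inv x) = -c x) (hw : ∀ x, w (inv x) = -w x)
    (hc0 : ∃ x, c x ≠ 0) (hw0 : ∃ x, w x ≠ 0)
    (w₁ : ℤ) (hw₁ : ∀ y ∈ O, w y = w₁)
    (b : R) (hb : b ∉ O) (hb' : inv b ∉ O)
    (hnum : ∀ t : ℤ, t ∣ (O.card : ℤ) → 1 < |t| → |t| < O.card → w b ≠ t * w₁)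
    (hrel : ∀ g : G, ∑ x, c x * w (g • x) = 0) : SignType G c ∨ SignType G w := by
  obtain ⟨C, a, a', ha, ha', haa, hC0, hC1, hCg, hCi, hCw, hCc, hCs, hCC⟩ :=
    twograph2 hinv hne hG h2 g hcard c w hc hw hc0 hw0 hrel
  refine signType_of_unit hinv hne hG g hcard c w hc hw hc0 hw0 C a a' ha ha' haa hC0 hC1 hCg hCi
    hCw hCc ?_
  refine unit_eig_last hinv hne g hcard C a a' ha ha' haa hC0 hC1 hCi hCs w hw hCw O hO hOn hm ?_
    w₁ hw₁ b hb hb' hnum
  intro b hb hb' y hy y' hy'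
  obtain ⟨d, h3, h4⟩ := hst b hb hb' y hy y' hy'
  conv_rhs => rw [← h3, ← h4]
  rw [hCg]

end abstract

section

variable {f : ℚ[X]} (hf : Irreducible f) {q : ℚ} (hq : 0 < q)
  (hweil : ∀ z : ℂ, aeval z f = 0 → ‖z‖ ^ 2 = (q : ℝ))
  {p : ℕ} [Fact p.Prime] (e : f.SplittingField →ₐ[ℚ] PadicAlgCl p)
  {g n : ℕ} {x₁ : f.rootSet f.SplittingField}

include hf hq hweil in
/-- **Relations are of sign type if there is a good place.** -/
theorem signType_of_place (hne : ∀ x, rinv hf hq hweil x ≠ x) (hdeg : f.natDegree = 2 * g)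
    (h : GoodPlace hf hq hweil e g n x₁)
    (hor : Odd g ∨ (g - 1).Prime ∨ (n + 2 ≤ g ∧ (lmin e x₁).natDegree = n ∧
      (Odd n ∨ ∀ b, pmin e q b ≠ pmin e q x₁ → (lmin e b).natDegree = (pmin e q b).natDegree)))
    (c w : f.rootSet f.SplittingField → ℤ) (hc : ∀ x, c (rinv hf hq hweil x) = - c x)
    (hw : ∀ x, w (rinv hf hq hweil x) = - w x)
    (hc0 : ∃ x, c x ≠ 0) (hw0 : ∃ x, w x ≠ 0)
    (hrel : ∀ σ : f.Gal, ∑ x, c x * w (σ • x) = 0) : SignType f.Gal c ∨ SignType f.Gal w := by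
  classical
  have _ : MulAction.IsPretransitive f.Gal (f.rootSet f.SplittingField) := gal_pretransitive hf
  have hcardR : Fintype.card (f.rootSet f.SplittingField) = 2 * g := by rw [card_roots hf, hdeg]
  have hpairs := pairs_of_place hf hq hweil e hne hdeg h
  by_cases hodd : Odd g
  · exact signType_of_rel (rinv_rinv hf hq hweil) hne (smul_rinv hf hq hweil) hpairs g hcardR
      (Or.inl hodd) c w hc hw hc0 hw0 hrel
  rcases hor with hor | hor | ⟨hm, hsplit, hnodd⟩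
  · exact absurd hor hodd
  · exact signType_of_rel (rinv_rinv hf hq hweil) hne (smul_rinv hf hq hweil) hpairs g hcardR
      (Or.inr (Or.inr hor)) c w hc hw hc0 hw0 hrel
  · have hcO : (lorb e x₁).card = n := by rw [card_lorb e hf, hsplit]
    refine signType_of_uniform (rinv_rinv hf hq hweil) hne (smul_rinv hf hq hweil) hpairs g hcardR
      (lorb e x₁) (rinv_notMem_of_degree hf hq hweil e hne x₁ (by rw [hsplit, h.deg]))
      (by rw [hcO]; exact h.two_le) (by rw [hcO]; exact hm) ?_ c w hc hw hc0 hw0 hrel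
    intro b hb hb' y hy y' hy'
    obtain ⟨d, _, h3, h4⟩ :=
      stab_trans_of_place hf hq hweil e hne h hsplit hnodd b hb hb' y hy y' hy'
    exact ⟨d, h3, h4⟩

include hf hq hweil in
/-- The same for `g` even and `n = g - 1`, under a numerical condition on `w`. -/
theorem signType_of_place_last (hne : ∀ x, rinv hf hq hweil x ≠ x) (hdeg : f.natDegree = 2 * g)
    (h : GoodPlace hf hq hweil e g n x₁) (heven : Even g) (hn : n + 1 = g)
    (hsplit : (lmin e x₁).natDegree = n)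
    (c w : f.rootSet f.SplittingField → ℤ) (hc : ∀ x, c (rinv hf hq hweil x) = - c x)
    (hw : ∀ x, w (rinv hf hq hweil x) = - w x)
    (hc0 : ∃ x, c x ≠ 0) (hw0 : ∃ x, w x ≠ 0)
    (hwD : ∀ d ∈ decomp e, ∀ x, w (d • x) = w x)
    (hnum : ∀ b, pmin e q b ≠ pmin e q x₁ →
      ∀ t : ℤ, t ∣ (n : ℤ) → 1 < |t| → |t| < n → w b ≠ t * w x₁)
    (hrel : ∀ σ : f.Gal, ∑ x, c x * w (σ • x) = 0) : SignType f.Gal c ∨ SignType f.Gal w := by
  classical
  have _ : MulAction.IsPretransitive f.Gal (f.rootSet f.SplittingField) := gal_pretransitive hf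
  have hcardR : Fintype.card (f.rootSet f.SplittingField) = 2 * g := by rw [card_roots hf, hdeg]
  have hpairs := pairs_of_place hf hq hweil e hne hdeg h
  have hnodd : Odd n := by
    rw [Nat.even_iff] at heven
    rw [Nat.odd_iff]
    omega
  have hcO : (lorb e x₁).card = n := by rw [card_lorb e hf, hsplit]
  have hOi := rinv_notMem_of_degree hf hq hweil e hne x₁ (by rw [hsplit, h.deg])
  have hx₁ : x₁ ∈ lorb e x₁ := (mem_lorb e x₁ x₁).2 rfl
  -- a root outside the block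
  obtain ⟨b, hb, hb'⟩ : ∃ b, b ∉ lorb e x₁ ∧ rinv hf hq hweil b ∉ lorb e x₁ := by
    by_contra hcon
    push Not at hcon
    have h1 : (Finset.univ : Finset (f.rootSet f.SplittingField)) ⊆
        lorb e x₁ ∪ (lorb e x₁).image (rinv hf hq hweil) := by
      intro x _
      rw [Finset.mem_union]
      by_cases hx : x ∈ lorb e x₁
      · exact Or.inl hx
      · right
        exact Finset.mem_image.2 ⟨_, hcon x hx, rinv_rinv hf hq hweil x⟩
    have h2 := Finset.card_le_card h1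
    have h3 := Finset.card_union_le (lorb e x₁) ((lorb e x₁).image (rinv hf hq hweil))
    have h4 := Finset.card_image_le (s := lorb e x₁) (f := rinv hf hq hweil)
    rw [Finset.card_univ, hcardR] at h2
    omega
  have hbp : pmin e q b ≠ pmin e q x₁ := by
    intro hcon
    obtain ⟨σ, hσ, h1 | h1⟩ := exists_decomp_of_pmin hf hq hweil e x₁ b hcon.symm
    · exact hb (h1 ▸ lorb_stable e x₁ _ σ hσ hx₁)
    · exact hb' (h1 ▸ lorb_stable e x₁ _ σ hσ hx₁)
  refine signType_of_uniform_last (rinv_rinv hf hq hweil) hne (smul_rinv hf hq hweil) hpairs g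
    hcardR (lorb e x₁) hOi ⟨x₁, hx₁⟩ (by rw [hcO]; exact hn) ?_ c w hc hw hc0 hw0 (w x₁) ?_ b hb hb'
    (by rw [hcO]; exact hnum b hbp) hrel
  · intro b hb hb' y hy y' hy'
    obtain ⟨d, _, h3, h4⟩ :=
      stab_trans_of_place hf hq hweil e hne h hsplit (Or.inl hnodd) b hb hb' y hy y' hy'
    exact ⟨d, h3, h4⟩
  · intro y hy
    obtain ⟨d, hd, rfl⟩ := lorb_trans e x₁ x₁ y hx₁ hy
    exact hwD d hd x₁

end

end Pool.Agent.H855
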