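import Mathlib

/-!
# Definitions for the statements on Tate classes on powers of abelian varieties
-/

namespace Pool.Agent.H855.TateDefs

open Polynomial

universe u v

/-- The `p`-adic valuation of `α`, normalised so that `p ^ a` has valuation `1`. -/
noncomputable def slope (p : ℕ) [Fact p.Prime] (a : ℕ) (α : PadicAlgCl p) : ℝ :=
  -Real.logb ((p : ℝ) ^ a) ‖α‖

/-- `f` is the characteristic polynomial of Frobenius of a simple abelian variety of dimension `g`
over the field with `p ^ a` elements, with commutative endomorphism algebra (Honda, Tate): it is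
irreducible of degree `2 g`, its complex roots have absolute value `√(p ^ a)`, and for each root in
the algebraic closure of `ℚ_p` the product of its degree over `ℚ_p` and its slope is an integer. -/
structure IsFrobeniusPoly (p : ℕ) [Fact p.Prime] (a g : ℕ) (f : ℚ[X]) : Prop where
  irreducible : Irreducible f
  natDegree_eq : f.natDegree = 2 * g
  weil : ∀ z : ℂ, aeval z f = 0 → ‖z‖ ^ 2 = (p : ℝ) ^ a
  integral : ∀ α : PadicAlgCl p, aeval α f = 0 →
    ∃ k : ℤ, ((minpoly ℚ_[p] α).natDegree : ℝ) * slope p a α = k

section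

variable {Ω : Type u} [Field Ω] {V : Type v} [AddCommGroup V] [Module Ω V]

/-- The element `x` of the exterior algebra of `V` is homogeneous of degree `n`. -/
def IsOfDegree (n : ℕ) (x : ExteriorAlgebra Ω V) : Prop :=
  x ∈ ⋀[Ω]^n V

/-- The endomorphism `F` of `V` acts on the element `x` of the exterior algebra as the scalar `μ`. -/
def ActsAs (F : V →ₗ[Ω] V) (μ : Ω) (x : ExteriorAlgebra Ω V) : Prop :=
  ExteriorAlgebra.map F x = μ • x

/-- `F` is diagonalisable, with eigenvalues among the roots of `f`. -/
def HasRoots [Algebra ℚ Ω] (f : ℚ[X]) (F : V →ₗ[Ω] V) : Prop :=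
  Submodule.span Ω {v : V | ∃ μ : Ω, aeval μ f = 0 ∧ F v = μ • v} = ⊤

/-- Every element of degree `2 m` of the exterior algebra of `V` on which a power `F ^ s` acts as
`q ^ (m s)` is a polynomial in the elements of degree two on which `F` acts as `q`. -/
def IsDecomposable (q : ℕ) (F : V →ₗ[Ω] V) : Prop :=
  ∀ (m s : ℕ), 0 < s → ∀ x, IsOfDegree (2 * m) x → ActsAs (F ^ s) (((q : Ω) ^ m) ^ s) x →
    x ∈ Algebra.adjoin Ω {y | IsOfDegree 2 y ∧ ActsAs F (q : Ω) y}

end

/-- For the first cohomology `V` of every power of the abelian variety with Frobenius polynomial `f`,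
with coefficients extended to an algebraically closed field `Ω` of characteristic zero, and the
Frobenius endomorphism `F`: all Tate classes, over all finite extensions, are polynomials in the Tate
classes of degree two. -/
def TateClassesDecomposable (q : ℕ) (f : ℚ[X]) : Prop :=
  ∀ (Ω : Type u) [Field Ω] [IsAlgClosed Ω] [CharZero Ω]
    (V : Type v) [AddCommGroup V] [Module Ω V] (F : V →ₗ[Ω] V),
    HasRoots f F → IsDecomposable q F

open Classical in
/-- The field `ℚ[X] / (f)` contains an imaginary quadratic field `E = ℚ(√(- m))` such that, over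
both embeddings of `E` in the algebraic closure of `ℚ_p`, the mean of the slopes of the roots
of `f` is `1 / 2`. -/
def IsWeilType (p : ℕ) [Fact p.Prime] (a : ℕ) (f : ℚ[X]) : Prop :=
  ∃ (P : ℚ[X]) (m : ℕ), 0 < m ∧ f ∣ P ^ 2 + C (m : ℚ) ∧
    ∀ t : PadicAlgCl p, t ^ 2 = -(m : PadicAlgCl p) →
      ∑ α : f.rootSet (PadicAlgCl p) with aeval α.1 P = t, (slope p a α.1 - 1 / 2) = 0

end Pool.Agent.H855.TateDefs
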