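import Mathlib
import Pool.Agent.H855.TateDefs

/-!
# Definitions for the statements with one place of the maximal real subfield
-/

namespace Pool.Agent.H855.PlaceDefs

open Polynomial IntermediateField Pool.Agent.H855.TateDefs

universe u v

/-- `f` is the minimal polynomial of the Frobenius endomorphism of a simple abelian variety over the
field with `p ^ a` elements (Honda, Tate): an irreducible polynomial whose complex roots are algebraic
integers of absolute value `√(p ^ a)`. The field `K = ℚ[X] / (f)`, the centre of the endomorphism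
algebra, has degree `2 g`. -/
structure IsSimpleWeil (p a g : ℕ) (f : ℚ[X]) : Prop where
  irreducible : Irreducible f
  natDegree_eq : f.natDegree = 2 * g
  isIntegral : ∀ z : ℂ, aeval z f = 0 → IsIntegral ℤ z
  weil : ∀ z : ℂ, aeval z f = 0 → ‖z‖ ^ 2 = (p : ℝ) ^ a

/-- No quotient of two different roots of `f` is a root of unity: the simple abelian variety remains
simple over the algebraic closure, with the same endomorphisms. -/
def IsNondegenerate (f : ℚ[X]) : Prop :=
  ∀ z w : ℂ, aeval z f = 0 → aeval w f = 0 → ∀ k : ℕ, 0 < k → z ^ k = w ^ k → z = w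

/-- There are two roots whose slopes have different distances from `1 / 2`. -/
def HasTwoSlopes (p : ℕ) [Fact p.Prime] (a : ℕ) (f : ℚ[X]) : Prop :=
  ∃ α β : PadicAlgCl p, aeval α f = 0 ∧ aeval β f = 0 ∧
    |2 * slope p a α - 1| ≠ |2 * slope p a β - 1|

/-- The minimal polynomial over `ℚ_r` of `α + q / α`. For the roots `α` of `f` these polynomials
correspond to the places over `r` of the maximal real subfield `K⁺`, which is generated
by `π + q / π`, and their degrees are the degrees of the completions over `ℚ_r`. -/
noncomputable def realPoly (r : ℕ) [Fact r.Prime] (q : ℕ) (α : PadicAlgCl r) : ℚ_[r][X] :=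
  minpoly ℚ_[r] (α + (q : PadicAlgCl r) / α)

/-- The place of `K⁺` given by `α` splits in `K`: the local degree of `K` is the same. -/
def IsSplit (r : ℕ) [Fact r.Prime] (q : ℕ) (α : PadicAlgCl r) : Prop :=
  (minpoly ℚ_[r] α).natDegree = (realPoly r q α).natDegree

/-- The field `K⁺`, which is isomorphic to `ℚ(z + q / z)` for each complex root `z` of `f`, has no
subfields besides `ℚ` and itself. -/
def IsPrimitiveReal (q : ℕ) (f : ℚ[X]) : Prop :=
  ∀ z : ℂ, aeval z f = 0 → ∀ F : IntermediateField ℚ ℂ, F ≤ ℚ⟮z + (q : ℂ) / z⟯ →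
    F = ⊥ ∨ F = ℚ⟮z + (q : ℂ) / z⟯

/-- The root `α` of `f` gives a place of `K⁺` over `r` of degree `n`, where `2 ≤ n < g = [K⁺ : ℚ]`,
and `n` is prime to the degrees of all other places of `K⁺` over `r`; moreover `K⁺` has no proper
subfields besides `ℚ`, or `n` is prime to `g` and larger than all proper divisors of `g`. -/
structure IsCoprimePlace (r : ℕ) [Fact r.Prime] (q g n : ℕ) (f : ℚ[X]) (α : PadicAlgCl r) :
    Prop where
  root : aeval α f = 0
  degree : (realPoly r q α).natDegree = n
  two_le : 2 ≤ n
  lt : n < g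
  other : ∀ β : PadicAlgCl r, aeval β f = 0 → realPoly r q β ≠ realPoly r q α →
    n.Coprime (realPoly r q β).natDegree
  primitive : IsPrimitiveReal q f ∨ (n.Coprime g ∧ ∀ d, d ∣ g → d < g → d < n)

/-- There is a prime number `r` (equal to `p` or not) and a place of `K⁺` over `r` as in
`IsCoprimePlace`, of degree `n`, and `g` is odd, or `g - 1` is a prime number, or `n ≤ g - 2` and the
place splits in `K`, as do all other places of `K⁺` over `r` if `n` is even. -/
def HasCoprimePlace (q g : ℕ) (f : ℚ[X]) : Prop :=
  ∃ (r : ℕ) (_ : Fact r.Prime) (n : ℕ) (α : PadicAlgCl r), IsCoprimePlace r q g n f α ∧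
    (Odd g ∨ (g - 1).Prime ∨ (n + 2 ≤ g ∧ IsSplit r q α ∧
      (Odd n ∨ ∀ β : PadicAlgCl r, aeval β f = 0 → realPoly r q β ≠ realPoly r q α →
        IsSplit r q β)))

/-- There is a place of `K⁺` over `p` as in `IsCoprimePlace`, of degree `n = g - 1`, which splits
in `K`, and the deviation `2 s - 1` of the slope at the other place is not `t` times the deviation at
this place, for the proper divisors `t` of `n`, positive or negative, different from `± 1`. -/
def HasLargeSlopePlace (p : ℕ) [Fact p.Prime] (a g : ℕ) (f : ℚ[X]) : Prop :=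
  ∃ (n : ℕ) (α : PadicAlgCl p), IsCoprimePlace p (p ^ a) g n f α ∧ n + 1 = g ∧
    IsSplit p (p ^ a) α ∧ ∀ β : PadicAlgCl p, aeval β f = 0 →
      realPoly p (p ^ a) β ≠ realPoly p (p ^ a) α → ∀ t : ℤ, t ∣ (n : ℤ) → 1 < |t| → |t| < n →
        2 * slope p a β - 1 ≠ t * (2 * slope p a α - 1)

/-- Every element of degree `2 m` of the exterior algebra of `V` on which a power `F ^ s` acts as
`q ^ (m s)` is a polynomial in the elements of degree two on which `F` acts as `q` and the elements of
degree `g` on which a power `F ^ (2 t)`, `t > 0`, acts as `q ^ (g t)`. -/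
def IsGeneratedInDegree {Ω : Type u} [Field Ω] {V : Type v} [AddCommGroup V] [Module Ω V]
    (q g : ℕ) (F : V →ₗ[Ω] V) : Prop :=
  ∀ (m s : ℕ), 0 < s → ∀ x, IsOfDegree (2 * m) x → ActsAs (F ^ s) (((q : Ω) ^ m) ^ s) x →
    x ∈ Algebra.adjoin Ω {y | (IsOfDegree 2 y ∧ ActsAs F (q : Ω) y) ∨
      (IsOfDegree g y ∧ ∃ t : ℕ, 0 < t ∧ ActsAs (F ^ (2 * t)) ((q : Ω) ^ (g * t)) y)}

/-- For the first cohomology `V` of every power of the abelian variety with Frobenius polynomial `f`,
with coefficients extended to an algebraically closed field `Ω` of characteristic zero: all Tate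
classes, over all finite extensions, are polynomials in the Tate classes of degree two and classes
of degree `g` (which are Tate classes over a finite extension if `g` is even). -/
def TateClassesGeneratedInDegree (q g : ℕ) (f : ℚ[X]) : Prop :=
  ∀ (Ω : Type u) [Field Ω] [IsAlgClosed Ω] [CharZero Ω]
    (V : Type v) [AddCommGroup V] [Module Ω V] (F : V →ₗ[Ω] V),
    HasRoots f F → IsGeneratedInDegree q g F

end Pool.Agent.H855.PlaceDefs
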