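import Mathlib
import Pool.Agent.H855.PlaceDefs
import Pool.Agent.H855.Place
import Pool.Agent.H855.Torsion

/-!
# Primitivity of the maximal real subfield
-/

namespace Pool.Agent.H855

open Polynomial IntermediateField Pool.Agent.H925R2 Pool.Agent.H855.PlaceDefs

set_option linter.unusedSectionVars false

/-- A subgroup which contains the stabiliser of a generator of a field without proper subfields. -/
theorem subgroup_of_primitive {K L C : Type*} [Field K] [Field L] [Field C] [Algebra K L]
    [Algebra K C] [FiniteDimensional K L] [IsGalois K L] (j : L →ₐ[K] C) (t : L)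
    (h : ∀ F : IntermediateField K C, F ≤ K⟮j t⟯ → F = ⊥ ∨ F = K⟮j t⟯)
    (H : Subgroup (L ≃ₐ[K] L)) (hH : ∀ g : L ≃ₐ[K] L, g t = t → g ∈ H) :
    (∀ g, g ∈ H) ∨ (∀ g ∈ H, g t = t) := by
  have h1 : (K⟮t⟯).fixingSubgroup ≤ H := by
    intro g hg
    rw [IntermediateField.mem_fixingSubgroup_iff] at hg
    exact hH g (hg t (mem_adjoin_simple_self K t))
  have h2 : fixedField H ≤ K⟮t⟯ := by
    rw [← IsGalois.fixedField_fixingSubgroup K⟮t⟯]
    exact IntermediateField.fixedField_antitone h1
  have hjt : (K⟮t⟯).map j = K⟮j t⟯ := by
    rw [adjoin_map, Set.image_singleton]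
  rcases h ((fixedField H).map j) (by
      rw [← hjt]
      exact IntermediateField.map_mono j h2) with h3 | h3
  · left
    have h4 : fixedField H = ⊥ := by
      apply IntermediateField.map_injective j
      rw [h3, IntermediateField.map_bot]
    have h5 : H = ⊤ := by
      rw [← IntermediateField.fixingSubgroup_fixedField H, h4, IntermediateField.fixingSubgroup_bot]
    intro g
    rw [h5]
    exact Subgroup.mem_top g
  · right
    have h4 : fixedField H = K⟮t⟯ := by
      apply IntermediateField.map_injective j
      rw [h3, hjt]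
    have h5 : H = (K⟮t⟯).fixingSubgroup := by
      rw [← IntermediateField.fixingSubgroup_fixedField H, h4]
    intro g hg
    rw [h5, IntermediateField.mem_fixingSubgroup_iff] at hg
    exact hg t (mem_adjoin_simple_self K t)

section

variable {f : ℚ[X]} (hf : Irreducible f) {q : ℕ} (hq : 0 < (q : ℚ))
  (hweil : ∀ z : ℂ, aeval z f = 0 → ‖z‖ ^ 2 = ((q : ℚ) : ℝ))

/-- If `K⁺` has no proper subfields the Galois group is primitive on the pairs of roots. -/
theorem pairPrimitive_of (h : IsPrimitiveReal q f) :
    PairPrimitive f.Gal (rinv hf hq hweil) := by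
  classical
  have _ : MulAction.IsPretransitive f.Gal (f.rootSet f.SplittingField) := gal_pretransitive hf
  have _ : IsGalois ℚ f.SplittingField := { to_normal := normal_sf f }
  intro E hEi hEg
  by_cases hne : Nonempty (f.rootSet f.SplittingField)
  swap
  · left
    intro x
    exact absurd ⟨x⟩ hne
  obtain ⟨x⟩ := hne
  set t : f.SplittingField := x.1 + ((q : ℚ) : f.SplittingField) / x.1 with ht
  have hgt : ∀ g : f.Gal, g t = t → g • x = x ∨ g • x = rinv hf hq hweil x := by
    intro g hg
    apply eq_or_of_add_eq hf hq hweil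
    rw [smul_coe]
    rw [ht, map_add, map_div₀, map_ratCast] at hg
    exact hg
  let H : Subgroup f.Gal :=
    { carrier := {g | E x (g • x)}
      one_mem' := by
        change E x ((1 : f.Gal) • x)
        rw [one_smul]
      mul_mem' := by
        intro a b ha hb
        change E x ((a * b) • x)
        rw [mul_smul]
        exact E.trans ha (hEg a _ _ hb)
      inv_mem' := by
        intro a ha
        change E x (a⁻¹ • x)
        have := hEg a⁻¹ _ _ ha
        rw [inv_smul_smul] at this
        exact E.symm this }
  let j : f.SplittingField →ₐ[ℚ] ℂ := IsAlgClosed.lift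
  have hjx : aeval (j x.1) f = 0 := by
    rw [aeval_algHom_apply, (mem_rootSet.1 x.2).2, map_zero]
  have hjt : j t = j x.1 + (q : ℂ) / j x.1 := by
    rw [ht, map_add, map_div₀, map_ratCast]
    push_cast
    rfl
  have hmem : ∀ g : f.Gal, g t = t → g ∈ H := by
    intro g hg
    change E x (g • x)
    rcases hgt g hg with h2 | h2
    · rw [h2]
    · rw [h2]; exact hEi x
  have key := subgroup_of_primitive j t (by
    rw [hjt]
    exact h (j x.1) hjx) H (fun g hg => hmem g hg)
  rcases key with h3 | h3
  · right
    have h6 : ∀ y, E x y := by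
      intro y
      obtain ⟨g, rfl⟩ := MulAction.exists_smul_eq f.Gal x y
      exact h3 g
    intro u v
    exact E.trans (E.symm (h6 u)) (h6 v)
  · left
    intro u v huv
    obtain ⟨a, rfl⟩ := MulAction.exists_smul_eq f.Gal x u
    obtain ⟨b, rfl⟩ := MulAction.exists_smul_eq f.Gal x v
    have h7 := hEg a⁻¹ _ _ huv
    rw [inv_smul_smul, ← mul_smul] at h7
    rcases hgt _ (h3 _ h7) with h8 | h8
    · left
      rw [mul_smul, inv_smul_eq_iff] at h8
      exact h8
    · right
      rw [mul_smul, inv_smul_eq_iff] at h8
      rw [h8, smul_rinv]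

end

end Pool.Agent.H855
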