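import Mathlib
import Pool.Graph.R_seed8.H371R3.Tate.Three
import Pool.Agent.H855.TwoBlocks
import Pool.Agent.H855.Assemble

/-!
# One large block
-/

namespace Pool.Agent.H855

open Pool.Agent.H925R2 MulAction

set_option linter.unusedSectionVars false

section

variable {R : Type*} [Fintype R] [DecidableEq R] {inv : R → R}
variable {G : Type*} [Group G] [Fintype G] [MulAction G R]

open Classical in
/-- The elements of `D` which fix all pairs outside the block are transitive on the block. -/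
theorem large_block_pointwise
    (hinv : ∀ x, inv (inv x) = x) (hne : ∀ x, inv x ≠ x)
    (hG : ∀ (g : G) (x : R), g • inv x = inv (g • x))
    (n : ℕ) (hcard : Fintype.card R = 2 * n)
    (D : Subgroup G) (O₁ : Finset R) (hO₁ : ∀ x ∈ O₁, inv x ∉ O₁)
    (h1 : ∀ x ∈ O₁, ∀ y ∈ O₁, ∃ d ∈ D, d • x = y) (h1' : ∀ d ∈ D, ∀ x ∈ O₁, d • x ∈ O₁)
    (hprime : ∀ r : ℕ, r.Prime → r ∣ O₁.card → n - O₁.card < r)
    (x : R) (hx : x ∈ O₁) (x' : R) (hx' : x' ∈ O₁) :
    ∃ d ∈ D, d • x = x' ∧ ∀ b, b ∉ O₁ → inv b ∉ O₁ → (d • b = b ∨ d • b = inv b) := by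
  let act : MulAction G (Quotient (pairSetoid hinv)) := pairAction hinv hG
  have hsm : ∀ (g : G) (x : R), g • (Quotient.mk (pairSetoid hinv) x) =
      Quotient.mk (pairSetoid hinv) (g • x) := fun g x => rfl
  set O : Finset (Quotient (pairSetoid hinv)) := O₁.image (Quotient.mk (pairSetoid hinv)) with hO
  have hOcard : O.card = O₁.card := card_image_mk hinv O₁ hO₁
  have hcardB : Fintype.card (Quotient (pairSetoid hinv)) = n := by
    have h5 := card_pairs hinv hne
    rw [← Nat.card_eq_fintype_card]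
    omega
  obtain ⟨d, hd, hd1, hd2⟩ := pointwise_transitive (G := G) D O (by
      intro a ha b hb
      obtain ⟨x, hx, rfl⟩ := Finset.mem_image.1 ha
      obtain ⟨y, hy, rfl⟩ := Finset.mem_image.1 hb
      obtain ⟨d, hd, h⟩ := h1 x hx y hy
      exact ⟨d, hd, by rw [hsm, h]⟩) (by
      intro d hd a ha
      obtain ⟨x, hx, rfl⟩ := Finset.mem_image.1 ha
      rw [hsm]
      exact Finset.mem_image_of_mem _ (h1' d hd x hx)) (by
      intro r hr hdvd
      rw [hOcard] at hdvd ⊢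
      rw [hcardB]
      exact hprime r hr hdvd)
    (Quotient.mk (pairSetoid hinv) x) (Quotient.mk (pairSetoid hinv) x')
    (Finset.mem_image_of_mem _ hx) (Finset.mem_image_of_mem _ hx')
  refine ⟨d, hd, ?_, fun b hb hb' => ?_⟩
  · rw [hsm] at hd1
    rcases (Quotient.exact hd1 : d • x = x' ∨ d • x = inv x') with h | h
    · exact h
    · exfalso
      apply hO₁ x' hx'
      rw [← h]
      exact h1' d hd x hx
  · have h3 := hd2 (Quotient.mk (pairSetoid hinv) b) (by
      rw [hO, mem_image_mk, not_or]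
      exact ⟨hb, hb'⟩)
    rw [hsm] at h3
    exact Quotient.exact h3

theorem coprime_of_primes {N m : ℕ} (hprime : ∀ r : ℕ, r.Prime → r ∣ N → m < r)
    (m' : ℕ) (hm' : 0 < m') (hle : m' ≤ m) : N.Coprime m' := by
  refine Nat.coprime_of_dvd fun r hr h1 h2 => ?_
  have h3 := hprime r hr h1
  have h4 := Nat.le_of_dvd hm' h2
  omega

/-- Double transitivity on the pairs. -/
theorem large_block_pairs [IsPretransitive G R]
    (hinv : ∀ x, inv (inv x) = x) (hne : ∀ x, inv x ≠ x)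
    (hG : ∀ (g : G) (x : R), g • inv x = inv (g • x))
    (n : ℕ) (hcard : Fintype.card R = 2 * n)
    (D : Subgroup G) (O₁ : Finset R) (hO₁ : ∀ x ∈ O₁, inv x ∉ O₁)
    (h1 : ∀ x ∈ O₁, ∀ y ∈ O₁, ∃ d ∈ D, d • x = y) (h1' : ∀ d ∈ D, ∀ x ∈ O₁, d • x ∈ O₁)
    (hlt : O₁.card < n) (hlarge : n < 2 * O₁.card)
    (hprime : ∀ r : ℕ, r.Prime → r ∣ O₁.card → n - O₁.card < r)
    (x y x' y' : R) (e1 : y ≠ x) (e2 : y ≠ inv x) (e3 : y' ≠ x') (e4 : y' ≠ inv x') :
    ∃ g : G, (g • x = x' ∨ g • x = inv x') ∧ (g • y = y' ∨ g • y = inv y') := by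
  refine pairs_large hinv hne hG n hcard O₁ hO₁ hlt hlarge
    (coprime_of_primes hprime _ (by omega) le_rfl) ?_ x y x' y' e1 e2 e3 e4
  intro x hx x' hx' b hb hb'
  obtain ⟨d, _, h3, h4⟩ := large_block_pointwise hinv hne hG n hcard D O₁ hO₁ h1 h1' hprime x hx x'
    hx'
  exact ⟨d, h3, h4 b hb hb'⟩

/-- A large block, and `n` odd or at least two more pairs: a relation or the vector is of sign
type. -/
theorem signType_large_block [IsPretransitive G R]
    (hinv : ∀ x, inv (inv x) = x) (hne : ∀ x, inv x ≠ x)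
    (hG : ∀ (g : G) (x : R), g • inv x = inv (g • x))
    (n : ℕ) (hcard : Fintype.card R = 2 * n)
    (D : Subgroup G) (O₁ : Finset R) (hO₁ : ∀ x ∈ O₁, inv x ∉ O₁)
    (h1 : ∀ x ∈ O₁, ∀ y ∈ O₁, ∃ d ∈ D, d • x = y) (h1' : ∀ d ∈ D, ∀ x ∈ O₁, d • x ∈ O₁)
    (hlt : O₁.card < n) (hlarge : n < 2 * O₁.card)
    (hprime : ∀ r : ℕ, r.Prime → r ∣ O₁.card → n - O₁.card < r)
    (hor : Odd n ∨ O₁.card + 2 ≤ n)
    (c w : R → ℤ) (hc : ∀ x, c (inv x) = -c x) (hw : ∀ x, w (inv x) = -w x)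
    (hc0 : ∃ x, c x ≠ 0) (hw0 : ∃ x, w x ≠ 0)
    (hrel : ∀ g : G, ∑ x, c x * w (g • x) = 0) : SignType G c ∨ SignType G w := by
  have hpairs := large_block_pairs hinv hne hG n hcard D O₁ hO₁ h1 h1' hlt hlarge hprime
  rcases hor with hodd | hor
  · exact signType_of_rel hinv hne hG hpairs n hcard (Or.inl hodd) c w hc hw hc0 hw0 hrel
  · refine Pool.Agent.H371R3.Tate.signType_of_triple hinv hne hG hpairs ?_ n hcard (by omega) c w
      hc hw hc0 hw0 hrel
    intro x y z x' y' z' k1 k2 k3 k1' k2' k3'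
    refine triples_large hinv hne hG n hcard O₁ hO₁ hor hlarge
      (coprime_of_primes hprime _ (by omega) le_rfl)
      (coprime_of_primes hprime _ (by omega) (by omega)) ?_ x y z x' y' z' k1 k2 k3
      k1' k2' k3'
    intro x hx x' hx'
    obtain ⟨d, _, h3, h4⟩ := large_block_pointwise hinv hne hG n hcard D O₁ hO₁ h1 h1' hprime x hx
      x' hx'
    exact ⟨d, h3, h4⟩

/-- If the block contains all pairs but one, on which `w` vanishes, and `n` is even, there is no
relation. -/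
theorem no_rel_large_zero [IsPretransitive G R]
    (hinv : ∀ x, inv (inv x) = x) (hne : ∀ x, inv x ≠ x)
    (hG : ∀ (g : G) (x : R), g • inv x = inv (g • x))
    (n : ℕ) (hcard : Fintype.card R = 2 * n) (hn : 3 ≤ n)
    (D : Subgroup G) (O₁ : Finset R) (hO₁ : ∀ x ∈ O₁, inv x ∉ O₁)
    (h1 : ∀ x ∈ O₁, ∀ y ∈ O₁, ∃ d ∈ D, d • x = y) (h1' : ∀ d ∈ D, ∀ x ∈ O₁, d • x ∈ O₁)
    (hN : O₁.card + 1 = n) (hodd : Odd O₁.card)
    (c w : R → ℤ) (hc : ∀ x, c (inv x) = -c x) (hw : ∀ x, w (inv x) = -w x)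
    (hc0 : ∃ x, c x ≠ 0) (w₁ : ℤ) (hw₁ : w₁ ≠ 0) (hw1 : ∀ x ∈ O₁, w x = w₁)
    (b : R) (hb : b ∉ O₁) (hb' : inv b ∉ O₁) (hwb : w b = 0)
    (hrel : ∀ g : G, ∑ x, c x * w (g • x) = 0) : False := by
  classical
  have hprime : ∀ r : ℕ, r.Prime → r ∣ O₁.card → n - O₁.card < r := by
    intro r hr _
    have := hr.two_le
    omega
  have hpairs := large_block_pairs hinv hne hG n hcard D O₁ hO₁ h1 h1' (by omega) (by omega) hprime
  obtain ⟨o₁, ho₁⟩ : O₁.Nonempty := by rw [← Finset.card_pos]; omega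
  have hw0 : ∃ x, w x ≠ 0 := ⟨o₁, by rw [hw1 o₁ ho₁]; exact hw₁⟩
  obtain ⟨C, a, a', ha, ha', haa, hC0, hC1, hCg, hCi, hCw, hCc, hCs, hCC⟩ :=
    twograph2 hinv hne hG hpairs n hcard c w hc hw hc0 hw0 hrel
  have hdisj : Disjoint O₁ {b} := Finset.disjoint_singleton_right.2 hb
  have hΦ : IsHalf inv (O₁ ∪ {b}) := by
    refine isHalf_of_card hinv n hcard _ ?_ ?_
    · intro x hx hx'
      rw [Finset.mem_union, Finset.mem_singleton] at hx hx'
      rcases hx with hx | rfl
      · rcases hx' with hx' | hx'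
        · exact hO₁ x hx hx'
        · apply hb'
          rw [← hx', hinv]
          exact hx
      · rcases hx' with hx' | hx'
        · exact hb' hx'
        · exact hne x hx'
    · rw [Finset.card_union_of_disjoint hdisj, Finset.card_singleton, hN]
  -- the orbit of `b`
  have horb : orbit D b ⊆ {b, inv b} := by
    rintro _ ⟨d, rfl⟩
    have hdb : d.1 • b ∉ O₁ := by
      intro h
      apply hb
      have := h1' d.1⁻¹ (D.inv_mem d.2) _ h
      rwa [inv_smul_smul] at this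
    have hdb' : inv (d.1 • b) ∉ O₁ := by
      intro h
      apply hb'
      have := h1' d.1⁻¹ (D.inv_mem d.2) _ h
      rwa [← hG, inv_smul_smul] at this
    change d.1 • b ∈ ({b, inv b} : Set R)
    by_cases h3 : d.1 • b ∈ O₁ ∪ {b}
    · rcases Finset.mem_union.1 h3 with h | h
      · exact absurd h hdb
      · left; exact Finset.mem_singleton.1 h
    · rw [hΦ, not_not] at h3
      rcases Finset.mem_union.1 h3 with h | h
      · exact absurd h hdb'
      · right
        have h4 := Finset.mem_singleton.1 h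
        have h5 := congrArg inv h4
        rw [hinv] at h5
        exact h5
  have horbcard : (orbit D b).ncard ≤ 2 :=
    (Set.ncard_le_ncard horb (Set.toFinite _)).trans (Set.ncard_insert_le _ _ |>.trans (by simp))
  have hpos : 0 < (orbit D b).ncard := by
    rw [Set.ncard_pos (Set.toFinite _)]
    exact ⟨b, mem_orbit_self b⟩
  -- transitivity of the stabiliser of `b`
  have hst : ∀ x ∈ O₁, ∀ y ∈ O₁, ∃ d : G, d • x = y ∧ d • b = b := by
    intro x hx y hy
    have hO : orbit D x = (O₁ : Set R) := by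
      ext z
      constructor
      · rintro ⟨d, rfl⟩
        exact h1' d.1 d.2 x hx
      · intro hz
        obtain ⟨d, hd, rfl⟩ := h1 x hx z hz
        exact ⟨⟨d, hd⟩, rfl⟩
    obtain ⟨h, hh, hh'⟩ := trans_of_coprime_index (G := D) (stabilizer D b) x (by
      rw [index_stabilizer, hO, Set.ncard_coe_finset]
      have h3 : (orbit D b).ncard = 1 ∨ (orbit D b).ncard = 2 := by omega
      rcases h3 with h3 | h3 <;> rw [h3]
      · exact Nat.coprime_one_right _
      · exact (Nat.coprime_two_right).2 hodd) y (by rw [hO]; exact hy)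
    exact ⟨h.1, hh', hh⟩
  have hconst : ∀ y ∈ O₁, C b y = C b o₁ := by
    intro y hy
    obtain ⟨d, h3, h4⟩ := hst o₁ ho₁ y hy
    conv_lhs => rw [← h4, ← h3]
    rw [hCg]
  have heig : ∑ y ∈ O₁, C b y * w y + ∑ y ∈ ({b} : Finset R), C b y * w y = -a * w b := by
    have h3 := hΦ.sum_symm hinv (fun y => C b y * w y) (fun y => by simp only [hCi, hw]; ring)
    rw [hCw b, Finset.sum_union hdisj] at h3
    linarith
  rw [hwb, Finset.sum_singleton, hwb, mul_zero, mul_zero, add_zero,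
    Finset.sum_congr rfl (fun y hy => by rw [hconst y hy, hw1 y hy]), Finset.sum_const,
    nsmul_eq_mul] at heig
  have hε : C b o₁ = 1 ∨ C b o₁ = -1 := by
    refine hC1 b o₁ (fun h => hb (h ▸ ho₁)) (fun h => hb' ?_)
    rw [← h]; exact ho₁
  have hN0 : (O₁.card : ℤ) ≠ 0 := by
    have : 0 < O₁.card := Finset.card_pos.2 ⟨o₁, ho₁⟩
    exact_mod_cast this.ne'
  rcases mul_eq_zero.1 heig with h | h
  · exact hN0 h
  · rcases mul_eq_zero.1 h with h | h
    · rcases hε with h' | h' <;> rw [h'] at h <;> omega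
    · exact hw₁ h

end

end Pool.Agent.H855
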