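import Mathlib
import Pool.Agent.H855.LargeBlock
import Pool.Agent.H855.CoreTwo
import Pool.Agent.H855.Slopes
import Pool.Agent.H855.Final

/-!
# One large local orbit: relations
-/

namespace Pool.Agent.H855

open Polynomial Pool.Agent.H925R2

section

variable {f : ℚ[X]} (hf : Irreducible f) {q : ℚ} (hq : 0 < q)
  (hweil : ∀ z : ℂ, aeval z f = 0 → ‖z‖ ^ 2 = (q : ℝ))

theorem lmin_rinv_congr {p : ℕ} [Fact p.Prime] (e : f.SplittingField →ₐ[ℚ] PadicAlgCl p)
    (x y : f.rootSet f.SplittingField) (h : lmin e x = lmin e y) :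
    lmin e (rinv hf hq hweil x) = lmin e (rinv hf hq hweil y) := by
  obtain ⟨σ, hσ, rfl⟩ := exists_decomp_of_lmin e x y h
  rw [← smul_rinv, lmin_smul e σ hσ]

/-- The local degree of a root with nonzero deviation is at most `g`. -/
theorem degree_le (g : ℕ) (hdeg : f.natDegree = 2 * g)
    {p : ℕ} [Fact p.Prime] (e : f.SplittingField →ₐ[ℚ] PadicAlgCl p)
    (x : f.rootSet f.SplittingField) (h : lmin e (rinv hf hq hweil x) ≠ lmin e x) :
    (lmin e x).natDegree ≤ g := by
  classical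
  have hd : Disjoint (lorb e x) (lorb e (rinv hf hq hweil x)) := by
    rw [Finset.disjoint_left]
    intro y h1 h2
    rw [mem_lorb] at h1 h2
    exact h (h2.symm.trans h1)
  have h1 := Finset.card_le_univ (lorb e x ∪ lorb e (rinv hf hq hweil x))
  rw [Finset.card_union_of_disjoint hd, card_roots hf, hdeg, card_lorb e hf, card_lorb e hf,
    natDegree_lmin_rinv] at h1
  omega

theorem large_core (g : ℕ) (hdeg : f.natDegree = 2 * g) (hg : 3 ≤ g)
    {p : ℕ} [Fact p.Prime] (e : f.SplittingField →ₐ[ℚ] PadicAlgCl p)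
    (x₁ : f.rootSet f.SplittingField)
    (hd₁ : dev p q (e x₁.1) ≠ 0)
    (hlt : (lmin e x₁).natDegree < g) (hlarge : g < 2 * (lmin e x₁).natDegree)
    (hprime : ∀ r : ℕ, r.Prime → r ∣ (lmin e x₁).natDegree → g - (lmin e x₁).natDegree < r)
    (habs : ∀ b, lmin e b ≠ lmin e x₁ → lmin e (rinv hf hq hweil b) ≠ lmin e x₁ →
      |dev p q (e b.1)| ≠ |dev p q (e x₁.1)|)
    (hlast : Even g → (lmin e x₁).natDegree + 1 = g → ∀ b, (lmin e b).natDegree = 1 →
      dev p q (e b.1) ≠ 0 →
      ∃ t₁ t₂ : ℤ, dev p q (e x₁.1) * (lmin e x₁).natDegree * t₂ = dev p q (e b.1) * t₁ ∧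
        t₁ ≠ 0 ∧ IsCoprime t₁ ((lmin e x₁).natDegree : ℤ))
    (c : f.rootSet f.SplittingField → ℤ) (hc : ∀ x, c (rinv hf hq hweil x) = - c x)
    (hc0 : ∃ x, c x ≠ 0)
    (hrel : ∀ g : f.Gal, ∑ x : f.rootSet f.SplittingField, (c x : ℝ) *
        dev p q (e (g • x : f.rootSet f.SplittingField).1) = 0) :
    SignType f.Gal c := by
  classical
  have _ : MulAction.IsPretransitive f.Gal (f.rootSet f.SplittingField) := gal_pretransitive hf
  have hroot : ∀ x : f.rootSet f.SplittingField, aeval (e x.1) f = 0 := by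
    intro x
    rw [aeval_algHom_apply, (mem_rootSet.1 x.2).2, map_zero]
  obtain ⟨κ, U, hκ, hU⟩ := exists_int_dev p hf.ne_zero (padic_root_ne_zero hf hq hweil p) hq.ne'
  set w : f.rootSet f.SplittingField → ℤ := fun x => U (e x.1) with hw
  have hdev : ∀ x : f.rootSet f.SplittingField, dev p q (e x.1) = κ * w x := fun x => hU _ (hroot x)
  have hwanti : ∀ x, w (rinv hf hq hweil x) = - w x := by
    intro x
    have h1 := dev_rinv hf hq hweil p e x
    rw [hdev, hdev, ← mul_neg] at h1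
    have h2 := mul_left_cancel₀ hκ.ne' h1
    exact_mod_cast h2
  have hns : ∃ α : PadicAlgCl p, aeval α f = 0 ∧ dev p q α ≠ 0 := ⟨_, hroot x₁, hd₁⟩
  have hne : ∀ x, rinv hf hq hweil x ≠ x := rinv_ne_of_dev hf hq hweil p e hns
  have hrel' : ∀ g : f.Gal, ∑ x, c x * w (g • x) = 0 := by
    intro g
    have h1 := hrel g
    have h2 : ∀ x : f.rootSet f.SplittingField, (c x : ℝ) *
        dev p q (e (g • x : f.rootSet f.SplittingField).1) = κ * ((c x * w (g • x) : ℤ) : ℝ) := by
      intro x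
      rw [hdev]
      push_cast
      ring
    rw [Finset.sum_congr rfl (fun x _ => h2 x), ← Finset.mul_sum] at h1
    have h3 := (mul_eq_zero.1 h1).resolve_left hκ.ne'
    exact_mod_cast h3
  have hwl : ∀ x y : f.rootSet f.SplittingField, lmin e x = lmin e y → w x = w y := by
    intro x y h
    have h1 := dev_eq_of_lmin e q x y h
    rw [hdev, hdev] at h1
    exact_mod_cast mul_left_cancel₀ hκ.ne' h1
  have hne1 : ∀ x, w x ≠ 0 → lmin e (rinv hf hq hweil x) ≠ lmin e x := by
    intro x hx h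
    have h1 := hwl _ _ h
    rw [hwanti] at h1
    omega
  have hw₁ : w x₁ ≠ 0 := by
    intro h; apply hd₁; rw [hdev, h]; simp
  have hcard1 := card_lorb e hf x₁
  have hw1 : ∀ x ∈ lorb e x₁, w x = w x₁ := fun x hx => hwl _ _ ((mem_lorb e x₁ x).1 hx)
  have hcardR : Fintype.card (f.rootSet f.SplittingField) = 2 * g := by rw [card_roots hf, hdeg]
  have hO₁ : ∀ x ∈ lorb e x₁, rinv hf hq hweil x ∉ lorb e x₁ := by
    intro x hx hx'
    have h1 := hw1 x hx
    have h2 := hw1 _ hx'
    rw [hwanti, h1] at h2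
    omega
  have t1 : ∀ x ∈ lorb e x₁, ∀ y ∈ lorb e x₁, ∃ d ∈ decomp e, d • x = y :=
    fun x hx y hy => lorb_trans e x₁ x y hx hy
  have t1' : ∀ d ∈ decomp e, ∀ x ∈ lorb e x₁, d • x ∈ lorb e x₁ :=
    fun d hd x hx => lorb_stable e x₁ x d hd hx
  -- a root outside the block
  obtain ⟨b, hb, hb'⟩ : ∃ b, b ∉ lorb e x₁ ∧ rinv hf hq hweil b ∉ lorb e x₁ := by
    by_contra hcon
    push Not at hcon
    have h1 : (Finset.univ : Finset (f.rootSet f.SplittingField)) ⊆
        lorb e x₁ ∪ (lorb e x₁).image (rinv hf hq hweil) := by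
      intro x _
      rw [Finset.mem_union]
      by_cases hx : x ∈ lorb e x₁
      · exact Or.inl hx
      · right
        exact Finset.mem_image.2 ⟨_, hcon x hx, rinv_rinv hf hq hweil x⟩
    have h2 := Finset.card_le_card h1
    have h3 := Finset.card_union_le (lorb e x₁) ((lorb e x₁).image (rinv hf hq hweil))
    have h4 := Finset.card_image_le (s := lorb e x₁) (f := rinv hf hq hweil)
    rw [Finset.card_univ, hcardR] at h2
    omega
  have hlb : lmin e b ≠ lmin e x₁ := fun h => hb ((mem_lorb e x₁ b).2 h)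
  have hlb' : lmin e (rinv hf hq hweil b) ≠ lmin e x₁ := fun h => hb' ((mem_lorb e x₁ _).2 h)
  by_cases hcase : Odd g ∨ (lmin e x₁).natDegree + 2 ≤ g
  · rcases signType_large_block (rinv_rinv hf hq hweil) hne (smul_rinv hf hq hweil) g hcardR
      (decomp e) (lorb e x₁) hO₁ t1 t1' (by rw [hcard1]; exact hlt) (by rw [hcard1]; exact hlarge)
      (by rw [hcard1]; exact hprime) (by rw [hcard1]; exact hcase) c w hc hwanti hc0
      ⟨x₁, hw₁⟩ hrel' with h | h
    · exact h
    · exfalso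
      obtain ⟨σ, hσ⟩ := MulAction.exists_smul_eq f.Gal x₁ b
      have h1 := signType_abs h σ x₁
      rw [hσ] at h1
      apply habs b hlb hlb'
      rw [hdev, hdev, abs_mul, abs_mul, ← Int.cast_abs, ← Int.cast_abs, h1]
  · have hge : ¬ Odd g := fun h => hcase (Or.inl h)
    have heven : Even g := Nat.not_odd_iff_even.1 hge
    have hN : (lmin e x₁).natDegree + 1 = g := by
      have : ¬ ((lmin e x₁).natDegree + 2 ≤ g) := fun h => hcase (Or.inr h)
      omega
    by_cases hwb : w b = 0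
    · exfalso
      refine no_rel_large_zero (rinv_rinv hf hq hweil) hne (smul_rinv hf hq hweil) g hcardR hg
        (decomp e) (lorb e x₁) hO₁ t1 t1' (by rw [hcard1]; exact hN) (by
          rw [hcard1]
          rw [Nat.even_iff] at heven
          rw [Nat.odd_iff]
          omega) c w hc hwanti hc0 (w x₁) hw₁ hw1 b hb hb' hwb hrel'
    · have hdb : dev p q (e b.1) ≠ 0 := by
        rw [hdev]
        exact mul_ne_zero hκ.ne' (by exact_mod_cast hwb)
      have hpos : 0 < (lmin e b).natDegree :=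
        minpoly.natDegree_pos (Algebra.IsIntegral.isIntegral _)
      have hle := sum_le_of_two hf hq hweil g hdeg e x₁ b (hne1 x₁ hw₁) (hne1 b hwb)
        (fun h => hlb h.symm) (fun h => hlb' (by
          have h1 := lmin_rinv_congr hf hq hweil e _ _ h
          rw [rinv_rinv] at h1
          exact h1.symm))
      have hb1 : (lmin e b).natDegree = 1 := by omega
      obtain ⟨t₁, t₂, ht, ht₁, hco⟩ := hlast heven hN b hb1 hdb
      exact (two_coprime_core hf hq hweil g hdeg e x₁ b (by rw [hb1, hN])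
        (by rw [hb1]; exact Nat.coprime_one_right _) hd₁ hdb (fun h => habs b hlb hlb' h.symm)
        t₁ t₂ (by rw [hb1]; push_cast; rw [mul_one]; exact ht) ht₁
        (Or.inr ⟨hco, by rw [hb1]; exact isCoprime_one_right⟩) c hc hc0 hrel).1

/-- The numerical consequence of a sign type relation for a block of odd size. -/
theorem large_balance (g : ℕ) (hdeg : f.natDegree = 2 * g)
    {p : ℕ} [Fact p.Prime] (e : f.SplittingField →ₐ[ℚ] PadicAlgCl p)
    (x₁ : f.rootSet f.SplittingField)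
    (hd₁ : dev p q (e x₁.1) ≠ 0) (hodd : Odd (lmin e x₁).natDegree)
    (L : ℝ) (hL : ∀ x : f.rootSet f.SplittingField, |dev p q (e x.1)| ≤ L)
    (c : f.rootSet f.SplittingField → ℤ) (hc : ∀ x, c (rinv hf hq hweil x) = - c x)
    (hc0 : ∃ x, c x ≠ 0) (hs : SignType f.Gal c)
    (hrel : ∑ x : f.rootSet f.SplittingField, (c x : ℝ) * dev p q (e x.1) = 0) :
    (lmin e x₁).natDegree * |dev p q (e x₁.1)| ≤ (g - (lmin e x₁).natDegree : ℝ) * L := by
  classical
  have _ : MulAction.IsPretransitive f.Gal (f.rootSet f.SplittingField) := gal_pretransitive hf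
  have hcard1 := card_lorb e hf x₁
  set O := lorb e x₁ with hO
  set O' := O.image (rinv hf hq hweil) with hO'
  have hinj : Function.Injective (rinv hf hq hweil) := fun a b h => by
    have := congrArg (rinv hf hq hweil) h
    rwa [rinv_rinv, rinv_rinv] at this
  have hdv : ∀ x ∈ O, dev p q (e x.1) = dev p q (e x₁.1) := fun x hx =>
    dev_eq_of_lmin e q x x₁ ((mem_lorb e x₁ x).1 hx)
  have hfix : ∀ d ∈ decomp e, ∀ x, c (d • x) = c x := fun d hd x =>
    signType_fixed_of_odd hs hc0 (decomp e) O (fun d hd x hx => lorb_stable e x₁ x d hd hx)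
      (by rw [hcard1]; exact hodd) d hd x
  have hx₁O : x₁ ∈ O := (mem_lorb e x₁ x₁).2 rfl
  have hcO : ∀ x ∈ O, c x = c x₁ := by
    intro x hx
    obtain ⟨d, hd, rfl⟩ := lorb_trans e x₁ x₁ x hx₁O hx
    exact hfix d hd x₁
  have hcabs : ∀ x, |c x| = |c x₁| := by
    intro x
    obtain ⟨σ, hσ⟩ := MulAction.exists_smul_eq f.Gal x₁ x
    rw [← hσ]; exact signType_abs hs σ x₁
  have hcx₁ : c x₁ ≠ 0 := by
    obtain ⟨y, hy⟩ := hc0
    intro h
    have h1 := hcabs y
    rw [h, abs_zero, abs_eq_zero] at h1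
    exact hy h1
  have hdisj : Disjoint O O' := by
    rw [Finset.disjoint_left]
    intro y hy hy'
    obtain ⟨z, hz, rfl⟩ := Finset.mem_image.1 hy'
    have h1 := hdv _ hy
    rw [dev_rinv, hdv z hz] at h1
    apply hd₁
    linarith
  have hsplit := Finset.sum_add_sum_compl (O ∪ O')
    (fun x : f.rootSet f.SplittingField => (c x : ℝ) * dev p q (e x.1))
  rw [hrel, Finset.sum_union hdisj] at hsplit
  have h1 : ∑ x ∈ O, (c x : ℝ) * dev p q (e x.1) = O.card * ((c x₁ : ℝ) * dev p q (e x₁.1)) := by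
    rw [Finset.sum_congr rfl (fun x hx => by rw [hcO x hx, hdv x hx]), Finset.sum_const,
      nsmul_eq_mul]
  have h2 : ∑ x ∈ O', (c x : ℝ) * dev p q (e x.1) = O.card * ((c x₁ : ℝ) * dev p q (e x₁.1)) := by
    rw [hO', Finset.sum_image (fun a _ b _ h => hinj h), ← h1]
    refine Finset.sum_congr rfl fun x _ => ?_
    rw [hc, dev_rinv]
    push_cast
    ring
  rw [h1, h2, hcard1] at hsplit
  have h3 : |∑ x ∈ (O ∪ O')ᶜ, (c x : ℝ) * dev p q (e x.1)| ≤
      ((O ∪ O')ᶜ.card : ℝ) * (|(c x₁ : ℝ)| * L) := by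
    refine (Finset.abs_sum_le_sum_abs _ _).trans ?_
    rw [← nsmul_eq_mul]
    refine Finset.sum_le_card_nsmul _ _ _ fun x _ => ?_
    rw [abs_mul]
    have h4 : |(c x : ℝ)| = |(c x₁ : ℝ)| := by
      rw [← Int.cast_abs, ← Int.cast_abs, hcabs x]
    rw [h4]
    exact mul_le_mul_of_nonneg_left (hL x) (abs_nonneg _)
  have hcardc : ((O ∪ O')ᶜ.card : ℝ) = 2 * (g - (lmin e x₁).natDegree : ℝ) := by
    have h4 := Finset.card_add_card_compl (O ∪ O')
    rw [Finset.card_union_of_disjoint hdisj, hO', Finset.card_image_of_injective _ hinj,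
      card_roots hf, hdeg, hcard1] at h4
    have h5 := congrArg (Nat.cast (R := ℝ)) h4
    push_cast at h5
    rw [hO'] 
    linarith
  rw [hcardc] at h3
  have h5 : ∑ x ∈ (O ∪ O')ᶜ, (c x : ℝ) * dev p q (e x.1) =
      -(2 * ((lmin e x₁).natDegree * ((c x₁ : ℝ) * dev p q (e x₁.1)))) := by linarith
  rw [h5, abs_neg, abs_mul, abs_mul, abs_mul, abs_two, Nat.abs_cast] at h3
  have h6 : 0 < |(c x₁ : ℝ)| := abs_pos.2 (by exact_mod_cast hcx₁)
  have h7 : |(c x₁ : ℝ)| * ((lmin e x₁).natDegree * |dev p q (e x₁.1)|) ≤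
      |(c x₁ : ℝ)| * ((g - (lmin e x₁).natDegree : ℝ) * L) := by linarith
  exact le_of_mul_le_mul_left h7 h6

end

end Pool.Agent.H855
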