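import Mathlib
import Pool.Agent.H855.AbsSimple
import Pool.Agent.H855.TateDefs

/-!
# Abelian varieties of Weil type have exotic Tate classes
-/

namespace Pool.Agent.H855

open Polynomial Pool.Agent.H925R2

set_option linter.unusedSectionVars false

section ext

variable {K V : Type*} [Field K] [AddCommGroup V] [Module K V]

open ExteriorAlgebra

/-- A torus which acts trivially on the degree two classes acts trivially on all polynomials in
them. -/
theorem map_eq_of_mem_adjoin {I : Type*} (F T : V →ₗ[K] V) (q : K) (b : I → V)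
    (hB : Submodule.span K (Set.range b) = ⊤) (μ l : I → K) (hF : ∀ i, F (b i) = μ i • b i)
    (hT : ∀ i, T (b i) = l i • b i) (hq : ∀ i i', μ i * μ i' = q → l i * l i' = 1)
    (x : ExteriorAlgebra K V) (hx : x ∈ Algebra.adjoin K (deg2 F q)) :
    ExteriorAlgebra.map T x = x := by
  have hle : Algebra.adjoin K (deg2 F q) ≤
      AlgHom.equalizer (ExteriorAlgebra.map T) (AlgHom.id K (ExteriorAlgebra K V)) := by
    apply Algebra.adjoin_le
    rintro y ⟨hy2, hyF⟩
    change ExteriorAlgebra.map T y = y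
    have hsp := exteriorPower.ιMulti_span_fixedDegree_of_span_eq_top K 2 V hB
    set S : Set (ExteriorAlgebra K V) :=
      {y | ∃ a : Fin 2 → I, ExteriorAlgebra.ιMulti K 2 (fun j => b (a j)) = y} with hS
    have hyS : y ∈ Submodule.span K S := by
      rw [← hsp] at hy2
      refine Submodule.span_mono ?_ hy2
      rintro _ ⟨a, ha, rfl⟩
      have h1 : ∀ j, ∃ i, b i = a j := fun j => ha ⟨j, rfl⟩
      choose a' ha' using h1
      refine ⟨a', ?_⟩
      congr 1
      funext j
      exact ha' j
    have hact : ∀ (L : V →ₗ[K] V) (ν : I → K), (∀ i, L (b i) = ν i • b i) → ∀ a : Fin 2 → I,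
        ExteriorAlgebra.map L (ExteriorAlgebra.ιMulti K 2 (fun j => b (a j))) =
          (ν (a 0) * ν (a 1)) • ExteriorAlgebra.ιMulti K 2 (fun j => b (a j)) := by
      intro L ν hL a
      rw [ExteriorAlgebra.map_apply_ιMulti]
      have : (⇑L ∘ fun j => b (a j)) = fun j => ν (a j) • b (a j) := by
        funext j
        exact hL _
      rw [this, ← Fin.prod_univ_two (fun j => ν (a j))]
      exact AlternatingMap.map_smul_univ _ _ _
    have hmem := mem_span_eigen (ExteriorAlgebra.map F).toLinearMap S (by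
      rintro t ⟨a, rfl⟩
      exact ⟨_, hact F μ hF a⟩) q y hyS hyF
    have hle2 : Submodule.span K {t ∈ S | (ExteriorAlgebra.map F).toLinearMap t = q • t} ≤
        LinearMap.eqLocus (ExteriorAlgebra.map T).toLinearMap LinearMap.id := by
      rw [Submodule.span_le]
      rintro t ⟨⟨a, rfl⟩, ht⟩
      change ExteriorAlgebra.map T (ExteriorAlgebra.ιMulti K 2 (fun j => b (a j))) =
        ExteriorAlgebra.ιMulti K 2 (fun j => b (a j))
      by_cases h0 : ExteriorAlgebra.ιMulti K 2 (fun j => b (a j)) = 0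
      · rw [h0, map_zero]
      have h1 : μ (a 0) * μ (a 1) = q := by
        have h2 : (μ (a 0) * μ (a 1)) • ExteriorAlgebra.ιMulti K 2 (fun j => b (a j)) =
            q • ExteriorAlgebra.ιMulti K 2 (fun j => b (a j)) := by
          rw [← hact F μ hF a]; exact ht
        exact smul_left_injective K h0 h2
      rw [hact T l hT a, hq _ _ h1, one_smul]
    exact hle2 hmem
  exact hle hx

/-- The wedge of a part of a dual system is not zero. -/
theorem iMulti_ne_zero {n : ℕ} (v : Fin n → V) (φ : V →ₗ[K] (Fin n → K))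
    (h : ∀ i, φ (v i) = Pi.single i 1) : ExteriorAlgebra.ιMulti K n v ≠ 0 := by
  classical
  intro h0
  let A : V [⋀^Fin n]→ₗ[K] K := (Pi.basisFun K (Fin n)).det.compLinearMap φ
  have h1 := liftAlternating_apply_ιMulti (R := K) (M := V) (N := K)
    (Function.update (fun i => (0 : V [⋀^Fin i]→ₗ[K] K)) n A) v
  rw [h0, map_zero, Function.update_self] at h1
  have h2 : A v = (Pi.basisFun K (Fin n)).det (fun i => φ (v i)) := rfl
  have h3 : (fun i => φ (v i)) = ⇑(Pi.basisFun K (Fin n)) := by
    funext i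
    rw [h, Pi.basisFun_apply]
  rw [h2, h3, Module.Basis.det_self] at h1
  exact one_ne_zero h1.symm

end ext

section weil

theorem aeval_ringHom {A B : Type*} [Field A] [Field B] [Algebra ℚ A] [Algebra ℚ B] (φ : A →+* B)
    (x : A) (P : ℚ[X]) : aeval (φ x) P = φ (aeval x P) := by
  have h6 : φ.toRatAlgHom x = φ x := rfl
  rw [← h6, aeval_algHom_apply]
  rfl

variable {p : ℕ} [Fact p.Prime] {a : ℕ} {f : ℚ[X]} (hf : Irreducible f)
  (hweil : ∀ z : ℂ, aeval z f = 0 → ‖z‖ ^ 2 = (p : ℝ) ^ a)
  (hint : ∀ z : ℂ, aeval z f = 0 → IsIntegral ℤ z)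

include hf hweil in
/-- The values of a square root of `-m` at a root and its inverse are opposite. -/
theorem aeval_rinv (P : ℚ[X]) (m : ℕ) (hm : 0 < m) (hP : f ∣ P ^ 2 + C (m : ℚ))
    (x : f.rootSet f.SplittingField) :
    aeval (rinv hf (q_pos p a) (weil_cast hweil) x).1 P = - aeval x.1 P := by
  let j : f.SplittingField →ₐ[ℚ] ℂ := IsAlgClosed.lift
  refine (j : f.SplittingField →+* ℂ).injective ?_
  change j _ = j _
  have hroot : aeval (j x.1) f = 0 := by
    rw [aeval_algHom_apply, (mem_rootSet.1 x.2).2, map_zero]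
  have h1 : j (rinv hf (q_pos p a) (weil_cast hweil) x).1 = starRingEnd ℂ (j x.1) := by
    have h2 := hweil _ hroot
    have h3 : j x.1 * starRingEnd ℂ (j x.1) = (p : ℂ) ^ a := by
      rw [Complex.mul_conj, Complex.normSq_eq_norm_sq, h2]
      push_cast
      rfl
    have h4 : j x.1 ≠ 0 := (map_ne_zero j).2
      (root_ne_zero (q_pos p a) (weil_cast hweil) x.1 ((mem_rootSet.1 x.2).2))
    rw [rinv_coe, map_div₀, map_ratCast, div_eq_iff h4, mul_comm, h3]
    push_cast
    rfl
  have h2 : (j (aeval x.1 P)) ^ 2 = -(m : ℂ) := by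
    obtain ⟨Q, hQ⟩ := hP
    have h3 := congrArg (aeval (j x.1)) hQ
    rw [map_mul, hroot, zero_mul, map_add, map_pow, aeval_C, aeval_algHom_apply] at h3
    have h4 : (algebraMap ℚ ℂ) (m : ℚ) = (m : ℂ) := map_natCast _ _
    rw [h4] at h3
    linear_combination h3
  have h3 : starRingEnd ℂ (j (aeval x.1 P)) = - j (aeval x.1 P) := by
    set z := j (aeval x.1 P) with hz
    have hre : z.re = 0 := by
      have h4 := congrArg Complex.re h2
      have h5 := congrArg Complex.im h2
      rw [pow_two, Complex.mul_re, Complex.neg_re, Complex.natCast_re] at h4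
      rw [pow_two, Complex.mul_im, Complex.neg_im, Complex.natCast_im] at h5
      have h6 : z.re * z.im = 0 := by linarith
      rcases mul_eq_zero.1 h6 with h7 | h7
      · exact h7
      · rw [h7] at h4
        have h8 : (0 : ℝ) < m := by exact_mod_cast hm
        nlinarith
    apply Complex.ext
    · rw [Complex.conj_re, Complex.neg_re, hre, neg_zero]
    · rw [Complex.conj_im, Complex.neg_im]
  rw [← aeval_algHom_apply, h1, aeval_ringHom, aeval_algHom_apply, h3, map_neg]

open Classical in
include hf hweil in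
/-- The sign type relation of an abelian variety of Weil type. -/
theorem exists_sign_of_weil (ha : 0 < a) (e : f.SplittingField →ₐ[ℚ] PadicAlgCl p)
    (h : TateDefs.IsWeilType p a f) :
    ∃ c : f.rootSet f.SplittingField → ℤ, (∀ x, c x = 1 ∨ c x = -1) ∧
      (∀ x, c (rinv hf (q_pos p a) (weil_cast hweil) x) = - c x) ∧ SignType f.Gal c ∧
      ∀ σ : f.Gal, ∑ x : f.rootSet f.SplittingField, (c x : ℝ) *
        dev p ((p : ℚ) ^ a) (e (σ • x : f.rootSet f.SplittingField).1) = 0 := by
  obtain ⟨P, m, hm, hP, hsum⟩ := h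
  have _ : MulAction.IsPretransitive f.Gal (f.rootSet f.SplittingField) := gal_pretransitive hf
  have hroot : ∀ x : f.rootSet f.SplittingField, aeval (e x.1) f = 0 := by
    intro x
    rw [aeval_algHom_apply, (mem_rootSet.1 x.2).2, map_zero]
  have hsq : ∀ x : f.rootSet f.SplittingField, (aeval x.1 P) ^ 2 = -(m : f.SplittingField) := by
    intro x
    obtain ⟨Q, hQ⟩ := hP
    have h3 := congrArg (aeval x.1) hQ
    rw [map_mul, (mem_rootSet.1 x.2).2, zero_mul, map_add, map_pow, aeval_C] at h3
    have h4 : (algebraMap ℚ f.SplittingField) (m : ℚ) = (m : f.SplittingField) := map_natCast _ _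
    rw [h4] at h3
    linear_combination h3
  have hL := log_pos_of (p := p) ha
  -- a root
  obtain ⟨x₀⟩ : Nonempty (f.rootSet f.SplittingField) := by
    have h1 := card_roots hf
    have h2 : 0 < Fintype.card (f.rootSet f.SplittingField) := by
      rw [h1]; exact hf.natDegree_pos
    exact Fintype.card_pos_iff.1 h2
  set τ := aeval x₀.1 P with hτ
  have hτ0 : τ ≠ 0 := by
    intro h0
    have h1 := hsq x₀
    rw [← hτ, h0] at h1
    have h2 : (m : f.SplittingField) = 0 := by linear_combination h1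
    exact hm.ne' (by exact_mod_cast h2)
  have hττ : τ ≠ -τ := by
    intro h0
    apply hτ0
    have h4 : (2 : f.SplittingField) * τ = 0 := by linear_combination h0
    exact (mul_eq_zero.1 h4).resolve_left two_ne_zero
  have hval : ∀ x : f.rootSet f.SplittingField, aeval x.1 P = τ ∨ aeval x.1 P = -τ := by
    intro x
    have h1 : (aeval x.1 P - τ) * (aeval x.1 P + τ) = 0 := by
      have h2 := hsq x
      have h3 := hsq x₀
      rw [← hτ] at h3
      linear_combination h2 - h3
    rcases mul_eq_zero.1 h1 with h2 | h2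
    · exact Or.inl (sub_eq_zero.1 h2)
    · exact Or.inr (eq_neg_of_add_eq_zero_left h2)
  set c : f.rootSet f.SplittingField → ℤ := fun x => if aeval x.1 P = τ then 1 else -1 with hc
  have hc1 : ∀ x, aeval x.1 P = τ → c x = 1 := fun x hx => if_pos hx
  have hc2 : ∀ x, aeval x.1 P = -τ → c x = -1 := fun x hx => if_neg (by
    rw [hx]; exact fun h => hττ h.symm)
  have hcv : ∀ x, c x = 1 ∨ c x = -1 := by
    intro x
    rcases hval x with h1 | h1
    · exact Or.inl (hc1 x h1)
    · exact Or.inr (hc2 x h1)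
  have hodd : ∀ x, c (rinv hf (q_pos p a) (weil_cast hweil) x) = - c x := by
    intro x
    have h2 := aeval_rinv hf hweil P m hm hP x
    rcases hval x with h1 | h1
    · rw [hc1 x h1, hc2 _ (by rw [h2, h1])]
    · rw [hc2 x h1, hc1 _ (by rw [h2, h1, neg_neg])]
      ring
  have hsm : ∀ (σ : f.Gal) (x : f.rootSet f.SplittingField),
      aeval (σ • x : f.rootSet f.SplittingField).1 P =
        (σ : f.SplittingField ≃ₐ[ℚ] f.SplittingField) (aeval x.1 P) := by
    intro σ x
    rw [smul_coe]
    let σ' : f.SplittingField ≃ₐ[ℚ] f.SplittingField := σ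
    exact aeval_ringHom (σ'.toRingEquiv.toRingHom) x.1 P
  have hsign : SignType f.Gal c := by
    intro σ
    have h1 : (σ : f.SplittingField ≃ₐ[ℚ] f.SplittingField) τ = τ ∨
        (σ : f.SplittingField ≃ₐ[ℚ] f.SplittingField) τ = -τ := by
      rw [hτ, ← hsm]
      exact hval _
    rcases h1 with h1 | h1
    · left
      intro x
      rcases hval x with h2 | h2
      · rw [hc1 x h2, hc1 _ (by rw [hsm, h2, h1])]
      · rw [hc2 x h2, hc2 _ (by rw [hsm, h2, map_neg, h1])]
    · right
      intro x
      rcases hval x with h2 | h2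
      · rw [hc1 x h2, hc2 _ (by rw [hsm, h2, h1])]
      · rw [hc2 x h2, hc1 _ (by rw [hsm, h2, map_neg, h1, neg_neg])]
        ring
  -- the sum over a value `e s`, transferred to the splitting field
  have h3 : ∀ s : f.SplittingField,
      ∑ α : f.rootSet (PadicAlgCl p) with aeval α.1 P = e s, (TateDefs.slope p a α.1 - 1 / 2) =
      ∑ x : f.rootSet f.SplittingField with aeval x.1 P = s,
        (TateDefs.slope p a (e x.1) - 1 / 2) := by
    intro s
    symm
    refine Finset.sum_bij (fun x _ => (⟨e x.1, mem_rootSet.2 ⟨hf.ne_zero, hroot x⟩⟩ :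
      f.rootSet (PadicAlgCl p))) ?_ ?_ ?_ ?_
    · intro x hx
      rw [Finset.mem_filter] at hx ⊢
      refine ⟨Finset.mem_univ _, ?_⟩
      change aeval (e x.1) P = _
      rw [aeval_algHom_apply, hx.2]
    · intro x _ y _ h
      exact Subtype.ext (e.injective (congrArg Subtype.val h))
    · intro α hα
      rw [Finset.mem_filter] at hα
      obtain ⟨x, hx⟩ := exists_root_eq hf e α.1 (mem_rootSet.1 α.2).2
      refine ⟨x, ?_, Subtype.ext hx⟩
      rw [Finset.mem_filter]
      refine ⟨Finset.mem_univ _, ?_⟩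
      have h11 : e (aeval x.1 P) = e s := by
        rw [← aeval_algHom_apply, hx, hα.2]
      exact e.injective h11
    · intro x _
      rfl
  have h4 : ∀ s : f.SplittingField, s ^ 2 = -(m : f.SplittingField) →
      ∑ x : f.rootSet f.SplittingField with aeval x.1 P = s,
        dev p ((p : ℚ) ^ a) (e x.1) = 0 := by
    intro s hs
    have h5 := hsum (e s) (by rw [← map_pow, hs, map_neg, map_natCast])
    rw [h3 s] at h5
    have h6 : ∀ x : f.rootSet f.SplittingField, dev p ((p : ℚ) ^ a) (e x.1) =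
        (-2 * Real.log ((p : ℝ) ^ a)) * (TateDefs.slope p a (e x.1) - 1 / 2) := by
      intro x
      rw [dev_slope ha]
      change - Real.log ((p : ℝ) ^ a) * (2 * TateDefs.slope p a (e x.1) - 1) = _
      ring
    rw [Finset.sum_congr rfl fun x _ => h6 x, ← Finset.mul_sum, h5, mul_zero]
  have hτsq : τ ^ 2 = -(m : f.SplittingField) := hsq x₀
  have hrel1 : ∑ x : f.rootSet f.SplittingField, (c x : ℝ) * dev p ((p : ℚ) ^ a) (e x.1) = 0 := by
    rw [← Finset.sum_filter_add_sum_filter_not Finset.univ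
      (fun x : f.rootSet f.SplittingField => aeval x.1 P = τ)]
    have h5 : ∑ x : f.rootSet f.SplittingField with aeval x.1 P = τ,
        (c x : ℝ) * dev p ((p : ℚ) ^ a) (e x.1) = 0 := by
      rw [← h4 τ hτsq]
      refine Finset.sum_congr rfl fun x hx => ?_
      rw [hc1 x (Finset.mem_filter.1 hx).2]
      push_cast
      ring
    have h6 : ∑ x : f.rootSet f.SplittingField with ¬ aeval x.1 P = τ,
        (c x : ℝ) * dev p ((p : ℚ) ^ a) (e x.1) = 0 := by
      have h7 : (Finset.univ.filter fun x : f.rootSet f.SplittingField => ¬ aeval x.1 P = τ) =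
          Finset.univ.filter fun x : f.rootSet f.SplittingField => aeval x.1 P = -τ := by
        ext x
        rw [Finset.mem_filter, Finset.mem_filter]
        refine and_congr_right fun _ => ⟨fun h => (hval x).resolve_left h, fun h => ?_⟩
        rw [h]; exact fun h' => hττ h'.symm
      rw [h7]
      have h8 := h4 (-τ) (by rw [neg_sq]; exact hτsq)
      rw [← neg_eq_zero, ← Finset.sum_neg_distrib, ← h8]
      refine Finset.sum_congr rfl fun x hx => ?_
      rw [hc2 x (Finset.mem_filter.1 hx).2]
      push_cast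
      ring
    rw [h5, h6, add_zero]
  refine ⟨c, hcv, hodd, hsign, fun σ => ?_⟩
  have h5 : ∑ x : f.rootSet f.SplittingField, (c x : ℝ) *
      dev p ((p : ℚ) ^ a) (e (σ • x : f.rootSet f.SplittingField).1) =
      ∑ x : f.rootSet f.SplittingField, (c (σ⁻¹ • x) : ℝ) * dev p ((p : ℚ) ^ a) (e x.1) := by
    refine Fintype.sum_equiv (MulAction.toPerm σ) _ _ fun x => ?_
    rw [MulAction.toPerm_apply, inv_smul_smul]
  rw [h5]
  rcases hsign σ⁻¹ with h6 | h6
  · rw [← hrel1]
    exact Finset.sum_congr rfl fun x _ => by rw [h6]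
  · rw [← neg_eq_zero, ← Finset.sum_neg_distrib, ← hrel1]
    refine Finset.sum_congr rfl fun x _ => ?_
    rw [h6]
    push_cast
    ring

include hf hweil hint in
/-- **Exotic Tate classes on abelian varieties of Weil type.** -/
theorem exotic_of_weil (ha : 0 < a) (g : ℕ) (hdeg : f.natDegree = 2 * g) (hg : 0 < g)
    (h : TateDefs.IsWeilType p a f) :
    ¬ TateDefs.TateClassesDecomposable.{0, 0} (p ^ a) f := by
  classical
  intro htate
  let e : f.SplittingField →ₐ[ℚ] PadicAlgCl p := IsAlgClosed.lift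
  let j : f.SplittingField →ₐ[ℚ] ℂ := IsAlgClosed.lift
  obtain ⟨c, hcv, hodd, hsign, hrel⟩ := exists_sign_of_weil hf hweil ha e h
  have hinv := rinv_rinv hf (q_pos p a) (weil_cast hweil)
  set inv := rinv hf (q_pos p a) (weil_cast hweil) with hinvdef
  set Φ : Finset (f.rootSet f.SplittingField) := Finset.univ.filter (fun x => c x = 1) with hΦ
  have hmemΦ : ∀ x, x ∈ Φ ↔ c x = 1 := by
    intro x
    rw [hΦ, Finset.mem_filter]
    exact ⟨fun h => h.2, fun h => ⟨Finset.mem_univ _, h⟩⟩
  have hhalf : IsHalf inv Φ := by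
    intro x
    rw [hmemΦ, hmemΦ, hodd]
    rcases hcv x with h1 | h1 <;> rw [h1] <;> norm_num
  have hΦcard : Φ.card = g := by
    have h1 := hhalf.card hinv
    rw [card_roots hf, hdeg] at h1
    omega
  have hx0 : ∀ x : f.rootSet f.SplittingField, x.1 ≠ 0 := fun x =>
    root_ne_zero (q_pos p a) (weil_cast hweil) x.1 ((mem_rootSet.1 x.2).2)
  have hsum0 : ∑ x, c x = 0 := by
    have h1 : ∑ x, c x = ∑ x, c (inv x) := by
      refine Finset.sum_nbij' inv inv ?_ ?_ ?_ ?_ ?_
      · intro x _; exact Finset.mem_univ _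
      · intro x _; exact Finset.mem_univ _
      · intro x _; exact hinv x
      · intro x _; exact hinv x
      · intro x _; rw [hinv]
    have h2 : ∑ x, c (inv x) = - ∑ x, c x := by
      rw [← Finset.sum_neg_distrib]
      exact Finset.sum_congr rfl fun x _ => hodd x
    omega
  obtain ⟨N, hN, hpow⟩ := torsion_of_rel hf hweil hint e c hsum0 hrel
  set A : f.SplittingField := ∏ x ∈ Φ, x.1 with hA
  have hA0 : A ≠ 0 := Finset.prod_ne_zero_iff.2 fun x _ => hx0 x
  have hq0 : ((((p : ℚ) ^ a : ℚ)) : f.SplittingField) ≠ 0 := by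
    exact_mod_cast (q_pos p a).ne'
  have hu : ∏ x : f.rootSet f.SplittingField, x.1 ^ c x =
      A * A / ((((p : ℚ) ^ a : ℚ)) : f.SplittingField) ^ g := by
    rw [← Finset.prod_filter_mul_prod_filter_not Finset.univ (fun x => c x = 1)]
    have h1 : ∏ x ∈ Finset.univ.filter (fun x => c x = 1), x.1 ^ c x = A := by
      rw [hA, ← hΦ]
      refine Finset.prod_congr rfl fun x hx => ?_
      rw [(hmemΦ x).1 hx, zpow_one]
    have h2 : ∏ x ∈ Finset.univ.filter (fun x => ¬ c x = 1), x.1 ^ c x =
        ∏ x ∈ Φ, (x.1 / ((((p : ℚ) ^ a : ℚ)) : f.SplittingField)) := by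
      refine Finset.prod_nbij' inv inv ?_ ?_ ?_ ?_ ?_
      · intro x hx
        rw [hmemΦ, hodd]
        have h3 := (Finset.mem_filter.1 hx).2
        rcases hcv x with h4 | h4
        · exact absurd h4 h3
        · rw [h4]; norm_num
      · intro x hx
        rw [Finset.mem_filter, hodd, (hmemΦ x).1 hx]
        exact ⟨Finset.mem_univ _, by norm_num⟩
      · intro x _; exact hinv x
      · intro x _; exact hinv x
      · intro x hx
        have h3 := (Finset.mem_filter.1 hx).2
        have h4 := (hcv x).resolve_left h3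
        have h5 := hx0 x
        rw [h4, zpow_neg_one, hinvdef, rinv_coe]
        field_simp
    rw [h1, h2, Finset.prod_div_distrib, Finset.prod_const, hΦcard, ← hA]
    ring
  have hApow : (A * A) ^ N = (((((p : ℚ) ^ a : ℚ)) : f.SplittingField) ^ g) ^ N := by
    rw [hu, div_pow, div_eq_one_iff_eq (pow_ne_zero _ (pow_ne_zero _ hq0))] at hpow
    exact hpow
  -- the vector space and the operators
  let I := f.rootSet f.SplittingField × Fin 2
  let F : (I → ℂ) →ₗ[ℂ] (I → ℂ) := LinearMap.pi fun i => j i.1.1 • LinearMap.proj i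
  let lam : I → ℂ := fun i => if c i.1 = 1 then 2 else 2⁻¹
  let T : (I → ℂ) →ₗ[ℂ] (I → ℂ) := LinearMap.pi fun i => lam i • LinearMap.proj i
  let b : I → (I → ℂ) := fun i => Pi.single i 1
  have hdiag : ∀ (ν : I → ℂ) (i : I),
      (LinearMap.pi fun i => ν i • LinearMap.proj i : (I → ℂ) →ₗ[ℂ] (I → ℂ)) (b i) =
        ν i • b i := by
    intro ν i
    funext i'
    by_cases h1 : i' = i
    · subst h1; simp [b]
    · simp [b, Pi.single_eq_of_ne h1]
  have hFb : ∀ i, F (b i) = (fun i : I => j i.1.1) i • b i := fun i => hdiag (fun i => j i.1.1) i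
  have hTb : ∀ i, T (b i) = lam i • b i := fun i => hdiag lam i
  have hspan : Submodule.span ℂ (Set.range b) = ⊤ := by
    have h1 : Set.range b = Set.range (Pi.basisFun ℂ I) := by
      congr 1
      funext i
      exact (Pi.basisFun_apply ℂ I i).symm
    rw [h1]
    exact (Pi.basisFun ℂ I).span_eq
  have hroots : TateDefs.HasRoots f F := by
    unfold TateDefs.HasRoots
    rw [eq_top_iff, ← hspan]
    refine Submodule.span_mono ?_
    rintro _ ⟨i, rfl⟩
    refine ⟨j i.1.1, ?_, hFb i⟩
    rw [aeval_algHom_apply, (mem_rootSet.1 i.1.2).2, map_zero]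
  -- the exotic class
  have hcard : Fintype.card (Φ × Fin 2) = 2 * g := by
    rw [Fintype.card_prod, Fintype.card_coe, hΦcard, Fintype.card_fin, mul_comm]
  let en : Fin (2 * g) ≃ Φ × Fin 2 := (Fintype.equivFinOfCardEq hcard).symm
  let v : Fin (2 * g) → (I → ℂ) := fun k => b ((en k).1.1, (en k).2)
  set y := ExteriorAlgebra.ιMulti ℂ (2 * g) v with hy
  have hy0 : y ≠ 0 := by
    refine iMulti_ne_zero v (LinearMap.pi fun k => LinearMap.proj ((en k).1.1, (en k).2)) ?_
    intro k
    funext k'
    by_cases h1 : k' = k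
    · subst h1; simp [v, b]
    · have h2 : ((en k').1.1, (en k').2) ≠ ((en k).1.1, (en k).2) := by
        intro h3
        apply h1
        apply en.injective
        have h4 := congrArg Prod.fst h3
        have h5 := congrArg Prod.snd h3
        exact Prod.ext (Subtype.ext h4) h5
      rw [Pi.single_eq_of_ne h1]
      simp [v, b, Pi.single_eq_of_ne h2]
  have hydeg : TateDefs.IsOfDegree (2 * g) y := ExteriorAlgebra.ιMulti_range ℂ (2 * g) ⟨v, rfl⟩
  have hpowF : ∀ (s : ℕ) (i : I), (F ^ s) (b i) = (j i.1.1) ^ s • b i := by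
    intro s i
    induction s with
    | zero => simp
    | succ s ih => rw [pow_succ', Module.End.mul_apply, ih, map_smul, hFb, smul_smul, pow_succ]
  have hprodj : ∏ k, j (en k).1.1.1 = j (A * A) := by
    have h1 : ∏ k, j (en k).1.1.1 = ∏ z : Φ × Fin 2, j z.1.1.1 :=
      Fintype.prod_equiv en _ _ fun k => rfl
    rw [h1, Fintype.prod_prod_type]
    have h2 : ∀ z : Φ, ∏ _i : Fin 2, j z.1.1 = j z.1.1 * j z.1.1 := by
      intro z
      rw [Fin.prod_univ_two]
    rw [Finset.prod_congr rfl fun z _ => h2 z, Finset.prod_mul_distrib, map_mul, hA, map_prod]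
    have h3 : ∏ z : Φ, j z.1.1 = ∏ x ∈ Φ, j x.1 := Finset.prod_coe_sort Φ (fun x => j x.1)
    rw [h3]
  have hyF : TateDefs.ActsAs (F ^ N) ((((p ^ a : ℕ) : ℂ) ^ g) ^ N) y := by
    unfold TateDefs.ActsAs
    rw [hy, ExteriorAlgebra.map_apply_ιMulti]
    have h1 : (⇑(F ^ N) ∘ v) = fun k => (j (en k).1.1.1) ^ N • v k := by
      funext k
      exact hpowF N _
    rw [h1]
    have h2 := AlternatingMap.map_smul_univ (ExteriorAlgebra.ιMulti ℂ (2 * g))
      (fun k => (j (en k).1.1.1) ^ N) v
    rw [h2, Finset.prod_pow, hprodj, ← map_pow, hApow]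
    simp only [map_pow, map_ratCast]
    push_cast
    rfl
  have hmem := htate ℂ (I → ℂ) F hroots g N hN y hydeg hyF
  have hmem' : y ∈ Algebra.adjoin ℂ (deg2 F ((p ^ a : ℕ) : ℂ)) := hmem
  have hfix := map_eq_of_mem_adjoin F T ((p ^ a : ℕ) : ℂ) b hspan (fun i => j i.1.1) lam hFb hTb
    (by
      intro i i' hii
      have h1 : i'.1 = inv i.1 := by
        apply Subtype.ext
        apply (j : f.SplittingField →+* ℂ).injective
        change j _ = j _
        have h2 : j i.1.1 ≠ 0 := (map_ne_zero j).2 (hx0 _)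
        rw [hinvdef, rinv_coe, map_div₀, map_ratCast, eq_div_iff h2, mul_comm]
        have h3 : j i.1.1 * j i'.1.1 = ((p ^ a : ℕ) : ℂ) := hii
        rw [h3]
        push_cast
        rfl
      simp only [lam]
      rw [h1, hodd]
      rcases hcv i.1 with h3 | h3 <;> rw [h3] <;> norm_num) y hmem'
  have hTy : ExteriorAlgebra.map T y = (2 : ℂ) ^ (2 * g) • y := by
    rw [hy, ExteriorAlgebra.map_apply_ιMulti]
    have h1 : (⇑T ∘ v) = fun k => (2 : ℂ) • v k := by
      funext k
      have h2 : lam ((en k).1.1, (en k).2) = 2 := if_pos ((hmemΦ _).1 (en k).1.2)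
      change T (b _) = _
      rw [hTb, h2]
    rw [h1]
    have h2 := AlternatingMap.map_smul_univ (ExteriorAlgebra.ιMulti ℂ (2 * g))
      (fun _ => (2 : ℂ)) v
    rw [h2, Finset.prod_const, Finset.card_univ, Fintype.card_fin]
  rw [hfix] at hTy
  have h1 : ((2 : ℂ) ^ (2 * g) - 1) • y = 0 := by
    rw [sub_smul, one_smul, ← hTy, sub_self]
  rcases smul_eq_zero.1 h1 with h2 | h2
  · have h3 : ((2 : ℂ) ^ (2 * g)) = 1 := by linear_combination h2
    have h4 : (2 : ℕ) ^ (2 * g) = 1 := by exact_mod_cast h3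
    have h5 := Nat.one_lt_pow (by omega : 2 * g ≠ 0) (by norm_num : 1 < 2)
    omega
  · exact hy0 h2

end weil

end Pool.Agent.H855
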