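import Mathlib
import Pool.Graph.R_seed8.H925R2.Ext

/-!
# Monomials of eigenvectors with a constant excess
-/

namespace Pool.Agent.H855

open Module ExteriorAlgebra Pool.Agent.H925R2

section ext

variable {K V : Type*} [Field K] [AddCommGroup V] [Module K V]

theorem prod_perm {A : Type*} (φ : A → V) (l₁ l₂ : List A) (h : l₁.Perm l₂) :
    ∃ ε : K, (l₁.map (fun w => ι K (φ w))).prod = ε • (l₂.map (fun w => ι K (φ w))).prod := by
  induction h with
  | nil => exact ⟨1, by simp⟩
  | cons x _ ih =>
    obtain ⟨ε, hε⟩ := ih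
    exact ⟨ε, by rw [List.map_cons, List.prod_cons, hε, List.map_cons, List.prod_cons,
      mul_smul_comm]⟩
  | swap x y l =>
    refine ⟨-1, ?_⟩
    rw [List.map_cons, List.map_cons, List.prod_cons, List.prod_cons, List.map_cons, List.map_cons,
      List.prod_cons, List.prod_cons, ← mul_assoc, ← mul_assoc]
    have h : ι K (φ y) * ι K (φ x) = - (ι K (φ x) * ι K (φ y)) :=
      eq_neg_of_add_eq_zero_left (ι_add_mul_swap (φ y) (φ x))
    rw [h, neg_mul, neg_smul, one_smul]
  | trans _ _ ih1 ih2 =>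
    obtain ⟨ε, hε⟩ := ih1
    obtain ⟨δ, hδ⟩ := ih2
    exact ⟨ε * δ, by rw [hε, hδ, smul_smul]⟩

theorem prod_iota_mem {A : Type*} (φ : A → V) (l : List A) :
    (l.map (fun w => ι K (φ w))).prod ∈ ⋀[K]^(l.length) V := by
  induction l with
  | nil =>
    rw [exteriorPower, List.length_nil, pow_zero, List.map_nil, List.prod_nil]
    exact Submodule.one_le.1 le_rfl
  | cons a l ih =>
    rw [List.map_cons, List.prod_cons, List.length_cons, exteriorPower, pow_succ']
    exact Submodule.mul_mem_mul (LinearMap.mem_range_self _ _) ih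

theorem map_prod_iota (Φ : V →ₗ[K] V) (l : List (V × K)) (s : ℕ)
    (h : ∀ e ∈ l, Φ e.1 = e.2 ^ s • e.1) :
    ExteriorAlgebra.map Φ (l.map (fun e => ι K e.1)).prod =
      (l.map Prod.snd).prod ^ s • (l.map (fun e => ι K e.1)).prod := by
  induction l with
  | nil => simp
  | cons a l ih =>
    rw [List.map_cons, List.prod_cons, map_mul, map_apply_ι, h a List.mem_cons_self, map_smul,
      ih (fun e he => h e (List.mem_cons_of_mem _ he)), smul_mul_smul_comm, List.map_cons,
      List.prod_cons, mul_pow]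

/-- **A monomial with constant excess.** -/
theorem prod_mem_of_excess [DecidableEq K] (F : V →ₗ[K] V) (q : K) (hq : q ≠ 0)
    (E : Set K) (hE : ∀ x ∈ E, x ≠ 0 ∧ q / x ≠ x)
    (S : Subalgebra K (ExteriorAlgebra K V)) (hS2 : deg2 F q ⊆ S) (P : Finset K)
    (hPE : ∀ x ∈ E, x ∈ P ∨ q / x ∈ P) (hP : ∀ x ∈ P, q / x ∉ P)
    (hSW : ∀ W : List (V × K), (∀ e ∈ W, F e.1 = e.2 • e.1) → W.map Prod.snd = P.toList →
      (W.map (fun e => ι K e.1)).prod ∈ S) :
    ∀ (k : ℕ) (L : List (V × K)), (∀ e ∈ L, e.2 ∈ E ∧ F e.1 = e.2 • e.1) →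
      (∀ x ∈ P, (L.map Prod.snd).count x = (L.map Prod.snd).count (q / x) + k) →
      (L.map (fun e => ι K e.1)).prod ∈ S := by
  classical
  intro k
  induction k with
  | zero =>
    intro L hL hbal
    refine (Algebra.adjoin_le hS2) (prod_mem_adjoin F q E hE _ L rfl hL ?_)
    intro x hx
    rcases hPE x hx with h | h
    · exact hbal x h
    · have h1 := hbal _ h
      have hx0 := (hE x hx).1
      have h2 : q / (q / x) = x := by field_simp
      rw [h2] at h1
      exact h1.symm
  | succ k ih =>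
    intro L hL hbal
    have h1 : ∀ x : K, ∃ e : V × K, x ∈ P → (e ∈ L ∧ e.2 = x) := by
      intro x
      by_cases hx : x ∈ P
      · have h2 := hbal x hx
        have h3 : x ∈ L.map Prod.snd := by
          rw [← List.count_pos_iff]
          omega
        obtain ⟨e, he, he'⟩ := List.mem_map.1 h3
        exact ⟨e, fun _ => ⟨he, he'⟩⟩
      · exact ⟨(0, 0), fun h => absurd h hx⟩
    choose e he using h1
    set W : List (V × K) := P.toList.map e with hW
    have hWs : W.map Prod.snd = P.toList := by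
      rw [hW, List.map_map]
      conv_rhs => rw [← List.map_id P.toList]
      exact List.map_congr_left fun x hx => (he x (Finset.mem_toList.1 hx)).2
    have hWn : W.Nodup := by
      apply List.Nodup.of_map Prod.snd
      rw [hWs]
      exact P.nodup_toList
    have hWL : W ⊆ L := by
      intro w hw
      obtain ⟨x, hx, rfl⟩ := List.mem_map.1 hw
      exact (he x (Finset.mem_toList.1 hx)).1
    have hsub : W.Subperm L := hWn.subperm hWL
    obtain ⟨u, hu⟩ := Multiset.le_iff_exists_add.1 (Multiset.coe_le.2 hsub)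
    set L' := u.toList with hL'
    have hperm : L.Perm (W ++ L') := by
      rw [← Multiset.coe_eq_coe, hu, ← Multiset.coe_add, hL', Multiset.coe_toList]
    obtain ⟨ε, hε⟩ := prod_perm (K := K) (fun e : V × K => e.1) L (W ++ L') hperm
    rw [hε, List.map_append, List.prod_append]
    refine Subalgebra.smul_mem _ (Subalgebra.mul_mem _ (hSW W ?_ hWs) (ih L' ?_ ?_)) _
    · intro w hw
      exact (hL w (hWL hw)).2
    · intro w hw
      exact hL w (hperm.mem_iff.2 (List.mem_append_right _ hw))
    · intro x hx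
      have h2 : ∀ y, (L.map Prod.snd).count y =
          (P.toList).count y + (L'.map Prod.snd).count y := by
        intro y
        rw [(hperm.map Prod.snd).count_eq, List.map_append, List.count_append, hWs]
      have h3 := hbal x hx
      rw [h2, h2] at h3
      have h4 : (P.toList).count x = 1 :=
        List.count_eq_one_of_mem P.nodup_toList (Finset.mem_toList.2 hx)
      have h5 : (P.toList).count (q / x) = 0 :=
        List.count_eq_zero_of_not_mem fun h => hP x hx (Finset.mem_toList.1 h)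
      omega

/-- The eigenclasses of degree two and the Weil classes of degree `g`. -/
def genSet (F : V →ₗ[K] V) (q : K) (g : ℕ) : Set (ExteriorAlgebra K V) :=
  {y | (y ∈ ⋀[K]^2 V ∧ ExteriorAlgebra.map F y = q • y) ∨
    (y ∈ ⋀[K]^g V ∧ ∃ t : ℕ, 0 < t ∧ ExteriorAlgebra.map (F ^ (2 * t)) y = q ^ (g * t) • y)}

theorem pow_apply_eigen (F : V →ₗ[K] V) (v : V) (μ : K) (h : F v = μ • v) (s : ℕ) :
    (F ^ s) v = μ ^ s • v := by
  induction s with
  | zero => simp
  | succ s ih => rw [pow_succ', Module.End.mul_apply, ih, map_smul, h, smul_smul, pow_succ]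

/-- If all multiplicative relations are balanced or have a constant excess, all eigenclasses are
polynomials in the classes of degree two and the Weil classes of degree `g`. -/
theorem mem_adjoin_of_excess [DecidableEq K] (F : V →ₗ[K] V) (q : K) (hq : q ≠ 0) (g : ℕ)
    (E : Set K) (hE : ∀ x ∈ E, x ≠ 0 ∧ q / x ≠ x)
    (hspan : Submodule.span K {v : V | ∃ μ ∈ E, F v = μ • v} = ⊤) (m s : ℕ)
    (hbal : ∀ L : List K, L.length = 2 * m → (∀ x ∈ L, x ∈ E) → L.prod ^ s = (q ^ m) ^ s →
      (∀ x ∈ E, L.count x = L.count (q / x)) ∨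
      (∃ (P : Finset K) (k : ℕ), (∀ x ∈ E, x ∈ P ∨ q / x ∈ P) ∧ (∀ x ∈ P, q / x ∉ P) ∧
        P.card = g ∧ (∃ t : ℕ, 0 < t ∧ (∏ x ∈ P, x) ^ (2 * t) = q ^ (g * t)) ∧
        ∀ x ∈ P, L.count x = L.count (q / x) + k))
    (x : ExteriorAlgebra K V) (hx : x ∈ ⋀[K]^(2 * m) V)
    (hFx : ExteriorAlgebra.map (F ^ s) x = (q ^ m) ^ s • x) :
    x ∈ Algebra.adjoin K (genSet F q g) := by
  classical
  set E' : Set V := {v : V | ∃ μ ∈ E, F v = μ • v} with hs
  have hsp := exteriorPower.ιMulti_span_fixedDegree_of_span_eq_top K (2 * m) V hspan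
  set T : Set (ExteriorAlgebra K V) :=
    {y | ∃ a : Fin (2 * m) → V, (∀ j, a j ∈ E') ∧ ExteriorAlgebra.ιMulti K (2 * m) a = y} with hT
  have hTspan : x ∈ Submodule.span K T := by
    rw [← hsp] at hx
    refine Submodule.span_mono ?_ hx
    rintro _ ⟨a, ha, rfl⟩
    exact ⟨a, fun j => ha ⟨j, rfl⟩, rfl⟩
  have hTeig : ∀ a : Fin (2 * m) → V, (∀ j, a j ∈ E') → ∃ μ : Fin (2 * m) → K,
      (∀ j, μ j ∈ E ∧ F (a j) = μ j • a j) ∧
      ExteriorAlgebra.map (F ^ s) (ExteriorAlgebra.ιMulti K (2 * m) a) =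
        (∏ j, μ j) ^ s • ExteriorAlgebra.ιMulti K (2 * m) a := by
    intro a ha
    choose μ hμ1 hμ2 using ha
    refine ⟨μ, fun j => ⟨hμ1 j, hμ2 j⟩, ?_⟩
    rw [ExteriorAlgebra.map_apply_ιMulti]
    have : (⇑(F ^ s) ∘ a) = fun j => μ j ^ s • a j := by
      funext j
      exact pow_apply_eigen F _ _ (hμ2 j) s
    rw [this, ← Finset.prod_pow]
    exact AlternatingMap.map_smul_univ _ _ _
  have hmem := mem_span_eigen (ExteriorAlgebra.map (F ^ s)).toLinearMap T (by
    rintro t ⟨a, ha, rfl⟩
    obtain ⟨μ, _, h⟩ := hTeig a ha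
    exact ⟨_, h⟩) ((q ^ m) ^ s) x hTspan hFx
  have hle : Submodule.span K
      {t ∈ T | (ExteriorAlgebra.map (F ^ s)).toLinearMap t = (q ^ m) ^ s • t} ≤
      Subalgebra.toSubmodule (Algebra.adjoin K (genSet F q g)) := by
    rw [Submodule.span_le]
    rintro t ⟨⟨a, ha, rfl⟩, ht⟩
    obtain ⟨μ, hμ, h⟩ := hTeig a ha
    by_cases h0 : ExteriorAlgebra.ιMulti K (2 * m) a = 0
    · rw [h0]; exact Submodule.zero_mem _
    have hprod : (∏ j, μ j) ^ s = (q ^ m) ^ s := by
      have h1 : (∏ j, μ j) ^ s • ExteriorAlgebra.ιMulti K (2 * m) a =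
        (q ^ m) ^ s • ExteriorAlgebra.ιMulti K (2 * m) a := by rw [← h]; exact ht
      exact smul_left_injective K h0 h1
    have hlist : (List.ofFn fun j => (a j, μ j)).map Prod.snd = List.ofFn μ := by
      rw [List.map_ofFn]; rfl
    have hLE : ∀ e ∈ (List.ofFn fun j => (a j, μ j)), e.2 ∈ E ∧ F e.1 = e.2 • e.1 := by
      intro e he
      rw [List.mem_ofFn] at he
      obtain ⟨j, rfl⟩ := he
      exact hμ j
    have h2S : deg2 F q ⊆ (Algebra.adjoin K (genSet F q g) : Set (ExteriorAlgebra K V)) := by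
      intro y hy
      exact Algebra.subset_adjoin (Or.inl hy)
    have h2 : ((List.ofFn fun j => (a j, μ j)).map (fun e => ι K e.1)).prod ∈
        Algebra.adjoin K (genSet F q g) := by
      rcases hbal (List.ofFn μ) (by simp) (by
          intro z hz
          rw [List.mem_ofFn] at hz
          obtain ⟨j, rfl⟩ := hz
          exact (hμ j).1) (by rw [List.prod_ofFn, hprod]) with hb | ⟨P, k, hP1, hP2, hPg,
            ⟨t, ht0, hPt⟩, hb⟩
      · refine (Algebra.adjoin_le h2S) (prod_mem_adjoin F q E hE (2 * m) _ (by simp) hLE ?_)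
        intro y hy
        rw [hlist]
        exact hb y hy
      · refine prod_mem_of_excess F q hq E hE _ h2S P hP1 hP2 ?_ k _ hLE ?_
        · intro W hW hWs
          apply Algebra.subset_adjoin
          right
          have hlen : W.length = g := by
            have := congrArg List.length hWs
            rw [List.length_map, Finset.length_toList] at this
            rw [this, hPg]
          refine ⟨?_, t, ht0, ?_⟩
          · rw [← hlen]
            exact prod_iota_mem (K := K) (fun e : V × K => e.1) W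
          · rw [map_prod_iota (F ^ (2 * t)) W (2 * t) (fun e he => pow_apply_eigen F _ _ (hW e he) _),
              hWs, Finset.prod_toList, hPt]
        · intro y hy
          rw [hlist]
          exact hb y hy
    have h3 : (List.ofFn fun j => (a j, μ j)).map (fun e => ι K e.1) =
        List.ofFn fun j => ι K (a j) := by
      rw [List.map_ofFn]; rfl
    rw [h3] at h2
    rw [ExteriorAlgebra.ιMulti_apply]
    exact h2
  exact hle hmem

end ext

end Pool.Agent.H855
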