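import Mathlib
import Pool.Agent.H855.WeilGen
import Pool.Agent.H855.Torsion
import Pool.Agent.H855.Exotic

/-!
# If all relations are of sign type, the classes are generated in degrees `2` and `g`
-/

namespace Pool.Agent.H855

open Polynomial Pool.Agent.H925R2

set_option linter.unusedSectionVars false

section

variable {p : ℕ} [Fact p.Prime] {a : ℕ} {f : ℚ[X]} (hf : Irreducible f)
  (hweil : ∀ z : ℂ, aeval z f = 0 → ‖z‖ ^ 2 = (p : ℝ) ^ a)
  (hint : ∀ z : ℂ, aeval z f = 0 → IsIntegral ℤ z)

/-- The set of positive values of an odd function without zeros. -/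
theorem card_pos_half {R : Type*} [Fintype R] [DecidableEq R] (inv : R → R)
    (hinv : ∀ x, inv (inv x) = x) (c : R → ℤ) (hc : ∀ x, c (inv x) = - c x)
    (hc0 : ∀ x, c x ≠ 0) (g : ℕ) (hcard : Fintype.card R = 2 * g) :
    ((Finset.univ : Finset R).filter (fun x => 0 < c x)).card = g := by
  have h1 : ((Finset.univ : Finset R).filter (fun x => 0 < c x)).card =
      ((Finset.univ : Finset R).filter (fun x => ¬ 0 < c x)).card := by
    refine Finset.card_nbij' inv inv ?_ ?_ ?_ ?_
    · intro x hx
      rw [Finset.mem_coe, Finset.mem_filter] at hx ⊢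
      refine ⟨Finset.mem_univ _, ?_⟩
      rw [hc]; omega
    · intro x hx
      rw [Finset.mem_coe, Finset.mem_filter] at hx ⊢
      refine ⟨Finset.mem_univ _, ?_⟩
      have := hc0 x
      rw [hc]; omega
    · intro x _; exact hinv x
    · intro x _; exact hinv x
  have h2 := Finset.card_filter_add_card_filter_not (s := (Finset.univ : Finset R))
    (fun x => 0 < c x)
  rw [← h1, Finset.card_univ, hcard] at h2
  omega

include hf hweil hint in
/-- **Generation in degrees two and `g`.** -/
theorem generated_of_sign {g : ℕ} (hdeg : f.natDegree = 2 * g)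
    (e : f.SplittingField →ₐ[ℚ] PadicAlgCl p)
    (hne : ∀ x, rinv hf (q_pos p a) (weil_cast hweil) x ≠ x)
    (hsg : ∀ c : f.rootSet f.SplittingField → ℤ,
      (∀ x, c (rinv hf (q_pos p a) (weil_cast hweil) x) = - c x) → (∃ x, c x ≠ 0) →
      (∀ g : f.Gal, ∑ x : f.rootSet f.SplittingField, (c x : ℝ) *
        dev p ((p : ℚ) ^ a) (e (g • x : f.rootSet f.SplittingField).1) = 0) → SignType f.Gal c)
    (Ω : Type*) [Field Ω] [IsAlgClosed Ω] [CharZero Ω]
    (V : Type*) [AddCommGroup V] [Module Ω V] (F : V →ₗ[Ω] V)
    (hF : Submodule.span Ω {v : V | ∃ μ : Ω, aeval μ f = 0 ∧ F v = μ • v} = ⊤)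
    (m s : ℕ) (hs : 0 < s) (x : ExteriorAlgebra Ω V) (hx : x ∈ ⋀[Ω]^(2 * m) V)
    (hFx : ExteriorAlgebra.map (F ^ s) x = (((p : Ω) ^ a) ^ m) ^ s • x) :
    x ∈ Algebra.adjoin Ω (genSet F ((p : Ω) ^ a) g) := by
  classical
  have hq := q_pos p a
  have hweil' := weil_cast hweil
  have _ : MulAction.IsPretransitive f.Gal (f.rootSet f.SplittingField) := gal_pretransitive hf
  have hcastΩ : ((((p : ℚ) ^ a : ℚ)) : Ω) = (p : Ω) ^ a := by
    push_cast
    rfl
  let j : f.SplittingField →ₐ[ℚ] Ω := IsAlgClosed.lift
  have hq0 : (p : Ω) ^ a ≠ 0 := by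
    rw [← hcastΩ]
    exact_mod_cast hq.ne'
  have hx0 : ∀ x : f.rootSet f.SplittingField, x.1 ≠ 0 := fun x =>
    root_ne_zero hq hweil' x.1 ((mem_rootSet.1 x.2).2)
  have hjinv : ∀ x : f.rootSet f.SplittingField,
      j (rinv hf hq hweil' x).1 = (p : Ω) ^ a / j x.1 := by
    intro x
    rw [rinv_coe, map_div₀, map_ratCast, hcastΩ]
  refine mem_adjoin_of_excess F ((p : Ω) ^ a) hq0 g {μ : Ω | aeval μ f = 0} ?_ hF m s ?_ x hx hFx
  · intro y hy
    obtain ⟨z, rfl⟩ := exists_root_eq hf j y hy
    refine ⟨fun h => hx0 z ((map_eq_zero j).1 h), fun h => ?_⟩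
    rw [← hjinv] at h
    exact hne z (Subtype.ext (j.injective h))
  · intro L hlen hL hprod
    rw [← hcastΩ] at hprod
    set c := acnt hf hq hweil' j L with hc
    have hodd : ∀ x, c (rinv hf hq hweil' x) = - c x := acnt_rinv hf hq hweil' j L
    have hrel : ∀ g : f.Gal, ∑ x : f.rootSet f.SplittingField, (c x : ℝ) *
        dev p ((p : ℚ) ^ a) (e (g • x : f.rootSet f.SplittingField).1) = 0 :=
      fun g => sum_acnt_dev hf hq hweil' j p e L m s hs hlen hL hprod g
    have hcnt : ∀ x : f.rootSet f.SplittingField,
        c x = (L.count (j x.1) : ℤ) - L.count ((p : Ω) ^ a / j x.1) := by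
      intro x
      rw [hc]
      unfold acnt cnt
      rw [hjinv]
    by_cases hc0 : ∀ x, c x = 0
    · left
      intro y hy
      obtain ⟨z, rfl⟩ := exists_root_eq hf j y hy
      have h1 := hc0 z
      rw [hcnt] at h1
      omega
    · right
      push Not at hc0
      have hsign := hsg c hodd hc0 hrel
      obtain ⟨x₀, hx₀⟩ := hc0
      have habs : ∀ x, |c x| = |c x₀| := by
        intro x
        obtain ⟨σ, rfl⟩ := MulAction.exists_smul_eq f.Gal x₀ x
        rcases hsign σ with h | h
        · rw [h]
        · rw [h, abs_neg]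
      set k : ℕ := (c x₀).natAbs with hk
      have hkpos : 0 < k := Int.natAbs_pos.2 hx₀
      have habs' : ∀ x, |c x| = (k : ℤ) := fun x => by rw [habs, hk, Int.natCast_natAbs]
      have hcne : ∀ x, c x ≠ 0 := by
        intro x h
        have := habs' x
        rw [h, abs_zero] at this
        omega
      have hpos : ∀ x, 0 < c x → c x = k := by
        intro x h
        rw [← habs' x, abs_of_pos h]
      set Q : Finset (f.rootSet f.SplittingField) :=
        Finset.univ.filter (fun x => 0 < c x) with hQ
      have hmemQ : ∀ x, x ∈ Q ↔ 0 < c x := by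
        intro x
        simp [hQ]
      have hQg : Q.card = g := card_pos_half (rinv hf hq hweil') (rinv_rinv hf hq hweil') c hodd
        hcne g (by rw [card_roots hf, hdeg])
      have hjinj : Function.Injective (fun x : f.rootSet f.SplittingField => j x.1) :=
        fun a b h => Subtype.ext (j.injective h)
      refine ⟨Q.image (fun x => j x.1), k, ?_, ?_, ?_, ?_, ?_⟩
      · intro y hy
        obtain ⟨z, rfl⟩ := exists_root_eq hf j y hy
        rcases lt_or_gt_of_ne (hcne z) with h | h
        · right
          rw [← hjinv]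
          exact Finset.mem_image_of_mem (fun x : f.rootSet f.SplittingField => j x.1)
            ((hmemQ _).2 (by rw [hodd]; omega))
        · left
          exact Finset.mem_image_of_mem (fun x : f.rootSet f.SplittingField => j x.1)
            ((hmemQ _).2 h)
      · intro y hy hy'
        obtain ⟨z, hz, rfl⟩ := Finset.mem_image.1 hy
        rw [← hjinv] at hy'
        obtain ⟨w, hw, hw'⟩ := Finset.mem_image.1 hy'
        have h1 := hjinj hw'
        rw [hmemQ] at hz hw
        rw [h1, hodd] at hw
        omega
      · rw [Finset.card_image_of_injective _ hjinj, hQg]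
      · -- the product
        obtain ⟨N, hN, hpow⟩ := torsion_of_rel hf hweil hint e c (by
          have h1 : ∑ x, c x = ∑ x, c (rinv hf hq hweil' x) :=
            Finset.sum_nbij' (rinv hf hq hweil') (rinv hf hq hweil')
              (fun _ _ => Finset.mem_univ _) (fun _ _ => Finset.mem_univ _)
              (fun x _ => rinv_rinv hf hq hweil' x) (fun x _ => rinv_rinv hf hq hweil' x)
              (fun x _ => by rw [rinv_rinv])
          simp only [hodd] at h1
          rw [Finset.sum_neg_distrib] at h1
          omega) hrel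
        refine ⟨k * N, Nat.mul_pos hkpos hN, ?_⟩
        have h1 : ∏ x : f.rootSet f.SplittingField, x.1 ^ c x =
            (∏ x ∈ Q, x.1) ^ (2 * k) / ((((p : ℚ) ^ a : ℚ)) : f.SplittingField) ^ (g * k) := by
          rw [← Finset.prod_filter_mul_prod_filter_not Finset.univ (fun x => 0 < c x)]
          have h2 : ∏ x ∈ Finset.univ.filter (fun x => 0 < c x), x.1 ^ c x =
              (∏ x ∈ Q, x.1) ^ k := by
            rw [← hQ, ← Finset.prod_pow]
            refine Finset.prod_congr rfl fun x hx => ?_
            rw [hpos x ((hmemQ x).1 hx), zpow_natCast]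
          have h3 : ∏ x ∈ Finset.univ.filter (fun x => ¬ 0 < c x), x.1 ^ c x =
              ∏ x ∈ Q, (((((p : ℚ) ^ a : ℚ)) : f.SplittingField) / x.1) ^ (-(k : ℤ)) := by
            refine Finset.prod_nbij' (rinv hf hq hweil') (rinv hf hq hweil') ?_ ?_ ?_ ?_ ?_
            · intro x hx
              rw [Finset.mem_filter] at hx
              have := hcne x
              rw [hmemQ, hodd]; omega
            · intro x hx
              rw [hmemQ] at hx
              rw [Finset.mem_filter]
              refine ⟨Finset.mem_univ _, ?_⟩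
              rw [hodd]; omega
            · intro x _; exact rinv_rinv hf hq hweil' x
            · intro x _; exact rinv_rinv hf hq hweil' x
            · intro x hx
              rw [Finset.mem_filter] at hx
              have h4 : 0 < c (rinv hf hq hweil' x) := by
                have := hcne x
                rw [hodd]; omega
              have h5 := hpos _ h4
              rw [hodd] at h5
              have h6 : c x = -(k : ℤ) := by omega
              rw [h6, rinv_coe]
              have hqS : ((((p : ℚ) ^ a : ℚ)) : f.SplittingField) ≠ 0 := by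
                exact_mod_cast hq.ne'
              have h7 : ((((p : ℚ) ^ a : ℚ)) : f.SplittingField) /
                  (((((p : ℚ) ^ a : ℚ)) : f.SplittingField) / x.1) = x.1 := by
                have := hx0 x
                field_simp
              rw [h7]
          rw [h2, h3]
          have h4 : ∏ x ∈ Q, (((((p : ℚ) ^ a : ℚ)) : f.SplittingField) / x.1) ^ (-(k : ℤ)) =
              (∏ x ∈ Q, x.1) ^ k / ((((p : ℚ) ^ a : ℚ)) : f.SplittingField) ^ (g * k) := by
            have h5 : ∀ x ∈ Q, (((((p : ℚ) ^ a : ℚ)) : f.SplittingField) / x.1) ^ (-(k : ℤ)) =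
                x.1 ^ k / ((((p : ℚ) ^ a : ℚ)) : f.SplittingField) ^ k := by
              intro x _
              rw [zpow_neg, zpow_natCast, div_pow, inv_div]
            rw [Finset.prod_congr rfl h5, Finset.prod_div_distrib, Finset.prod_const, hQg,
              Finset.prod_pow, ← pow_mul, mul_comm k g]
          rw [h4, ← mul_div_assoc, ← pow_add, two_mul]
        rw [h1] at hpow
        have hqS : ((((p : ℚ) ^ a : ℚ)) : f.SplittingField) ≠ 0 := by
          exact_mod_cast hq.ne'
        rw [div_pow, div_eq_one_iff_eq (pow_ne_zero _ (pow_ne_zero _ hqS)), ← pow_mul,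
          ← pow_mul] at hpow
        have h2 := congrArg j hpow
        rw [map_pow, map_prod, map_pow, map_ratCast, hcastΩ] at h2
        rw [Finset.prod_image (fun a _ b _ h => hjinj h)]
        have h3 : 2 * (k * N) = 2 * k * N := by ring
        have h4 : g * (k * N) = g * k * N := by ring
        rw [h3, h4]
        exact h2
      · intro y hy
        obtain ⟨z, hz, rfl⟩ := Finset.mem_image.1 hy
        have h1 := hpos z ((hmemQ z).1 hz)
        rw [hcnt] at h1
        omega

end

end Pool.Agent.H855
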