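import Mathlib
import Pool.Agent.H855.PlaceDefs
import Pool.Agent.H855.PlaceSign
import Pool.Agent.H855.Exotic
import Pool.Agent.H855.CoreLarge
import Pool.Agent.H855.Prim
import Pool.Agent.H855.Excess

/-!
# From places to the statement on Tate classes
-/

namespace Pool.Agent.H855

open Polynomial Pool.Agent.H925R2 Pool.Agent.H855.PlaceDefs

set_option linter.unusedSectionVars false

/-- A set stable under an involution which changes the signs has an even number of elements. -/
theorem sum_odd_zero_card {R : Type*} [DecidableEq R] (S : Finset R) (inv : R → R)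
    (hinv : ∀ x, inv (inv x) = x) (hS : ∀ x ∈ S, inv x ∈ S) (c : R → ℤ)
    (hc : ∀ x, c x = 1 ∨ c x = -1) (hodd : ∀ x, c (inv x) = - c x) : Even S.card := by
  have h1 : (S.filter fun x => c x = 1).card = (S.filter fun x => ¬ c x = 1).card := by
    refine Finset.card_nbij' inv inv ?_ ?_ ?_ ?_
    · intro x hx
      rw [Finset.mem_coe, Finset.mem_filter] at hx ⊢
      refine ⟨hS x hx.1, ?_⟩
      rw [hodd, hx.2]; norm_num
    · intro x hx
      rw [Finset.mem_coe, Finset.mem_filter] at hx ⊢
      refine ⟨hS x hx.1, ?_⟩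
      rw [hodd, (hc x).resolve_left hx.2]; norm_num
    · intro x _; exact hinv x
    · intro x _; exact hinv x
  have h2 := Finset.card_filter_add_card_filter_not (s := S) (fun x => c x = 1)
  rw [← h1] at h2
  exact ⟨_, h2.symm⟩

section

variable {p : ℕ} [Fact p.Prime] {a g : ℕ} {f : ℚ[X]}

/-- The place condition for the embedded splitting field. -/
theorem goodPlace_of {r : ℕ} [Fact r.Prime] {n : ℕ} (hf : Irreducible f)
    (hweil : ∀ z : ℂ, aeval z f = 0 → ‖z‖ ^ 2 = (p : ℝ) ^ a)
    (e : f.SplittingField →ₐ[ℚ] PadicAlgCl r) (α : PadicAlgCl r)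
    (h : IsCoprimePlace r (p ^ a) g n f α) :
    ∃ x₁ : f.rootSet f.SplittingField, e x₁.1 = α ∧
      GoodPlace hf (q_pos p a) (weil_cast hweil) e g n x₁ := by
  have hroot : ∀ x : f.rootSet f.SplittingField, aeval (e x.1) f = 0 := by
    intro x
    rw [aeval_algHom_apply, (mem_rootSet.1 x.2).2, map_zero]
  have hpm : ∀ x : f.rootSet f.SplittingField,
      pmin e ((p : ℚ) ^ a) x = realPoly r (p ^ a) (e x.1) := by
    intro x
    unfold pmin realPoly
    congr 1
    rw [map_add, map_div₀, map_ratCast]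
    push_cast
    rfl
  obtain ⟨x₁, hx₁⟩ := exists_root_eq hf e α h.root
  refine ⟨x₁, hx₁, ?_, h.two_le, h.lt, ?_, ?_⟩
  · rw [hpm, hx₁, h.degree]
  · rcases h.primitive with h1 | h1
    · right
      have h2 : ((p ^ a : ℕ) : ℚ) = (p : ℚ) ^ a := by push_cast; rfl
      have h3 : ∀ z : ℂ, aeval z f = 0 → ‖z‖ ^ 2 = (((p ^ a : ℕ) : ℚ) : ℝ) := by
        rw [h2]; exact weil_cast hweil
      have h4 : 0 < ((p ^ a : ℕ) : ℚ) := by rw [h2]; exact q_pos p a
      have h5 := pairPrimitive_of hf h4 h3 h1
      convert h5 using 2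
      exact h2.symm
    · exact Or.inl h1
  · intro b hb
    rw [hpm, hpm, hx₁] at hb
    rw [hpm]
    exact h.other _ (hroot b) hb

theorem pmin_eq_realPoly {r : ℕ} [Fact r.Prime]
    (e : f.SplittingField →ₐ[ℚ] PadicAlgCl r) (x : f.rootSet f.SplittingField) :
    pmin e ((p : ℚ) ^ a) x = realPoly r (p ^ a) (e x.1) := by
  unfold pmin realPoly
  congr 1
  rw [map_add, map_div₀, map_ratCast]
  push_cast
  rfl

/-- Some slope is not `1 / 2`. -/
theorem exists_dev_ne_or (ha : 0 < a) (hg : 2 ≤ g) (hf : IsSimpleWeil p a g f)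
    (hnd : IsNondegenerate f ∨ HasTwoSlopes p a f) (e : f.SplittingField →ₐ[ℚ] PadicAlgCl p) :
    ∃ α : PadicAlgCl p, aeval α f = 0 ∧ dev p ((p : ℚ) ^ a) α ≠ 0 := by
  rcases hnd with hnd | ⟨α, β, hα, hβ, h⟩
  · exact exists_dev_ne hf.irreducible hf.weil hf.isIntegral hnd
      (by rw [hf.natDegree_eq]; omega) e
  · by_contra hcon
    push Not at hcon
    have hL := log_pos_of (p := p) ha
    have key : ∀ γ : PadicAlgCl p, aeval γ f = 0 → 2 * TateDefs.slope p a γ - 1 = 0 := by
      intro γ hγ
      have h1 := hcon γ hγ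
      rw [dev_slope ha] at h1
      exact (mul_eq_zero.1 h1).resolve_left (neg_ne_zero.2 hL.ne')
    apply h
    rw [key α hα, key β hβ]

/-- The vector of deviations is not of sign type. -/
theorem not_signType_dev_or (ha : 0 < a) (hg : 2 ≤ g) (hf : IsSimpleWeil p a g f)
    (hnd : IsNondegenerate f ∨ HasTwoSlopes p a f) (e : f.SplittingField →ₐ[ℚ] PadicAlgCl p)
    (κ : ℝ) (w : f.rootSet f.SplittingField → ℤ)
    (hw : ∀ x : f.rootSet f.SplittingField, dev p ((p : ℚ) ^ a) (e x.1) = κ * w x) :
    ¬ SignType f.Gal w := by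
  rcases hnd with hnd | ⟨α, β, hα, hβ, h⟩
  · exact not_signType_dev hf.irreducible hf.weil hf.isIntegral hnd
      (by rw [hf.natDegree_eq]; omega) e κ w hw
  · intro hs
    have hL := log_pos_of (p := p) ha
    have _ : MulAction.IsPretransitive f.Gal (f.rootSet f.SplittingField) :=
      gal_pretransitive hf.irreducible
    obtain ⟨x, hx⟩ := exists_root_eq hf.irreducible e α hα
    obtain ⟨y, hy⟩ := exists_root_eq hf.irreducible e β hβ
    obtain ⟨σ, rfl⟩ := MulAction.exists_smul_eq f.Gal x y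
    apply h
    have h1 : |dev p ((p : ℚ) ^ a) α| = |dev p ((p : ℚ) ^ a) β| := by
      rw [← hx, ← hy, hw, hw]
      rcases hs σ with h2 | h2
      · rw [h2]
      · rw [h2]
        push_cast
        rw [mul_neg, abs_neg]
    rw [dev_slope ha, dev_slope ha, abs_mul, abs_mul, abs_neg, abs_of_pos hL] at h1
    exact mul_left_cancel₀ hL.ne' h1

/-- **The dichotomy.** There is no relation or the variety is of Weil type. -/
theorem norel_or_weil (ha : 0 < a) (hg : 3 ≤ g) (hf : IsSimpleWeil p a g f)
    (hnd : IsNondegenerate f ∨ HasTwoSlopes p a f)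
    (hpl : HasCoprimePlace (p ^ a) g f ∨ HasLargeSlopePlace p a g f)
    (e : f.SplittingField →ₐ[ℚ] PadicAlgCl p)
    (r : f.rootSet f.SplittingField → ℤ)
    (hr : ∀ x, r (rinv hf.irreducible (q_pos p a) (weil_cast hf.weil) x) = - r x)
    (hr0 : ∃ x, r x ≠ 0)
    (hrel : ∀ σ : f.Gal, ∑ x : f.rootSet f.SplittingField, (r x : ℝ) *
      dev p ((p : ℚ) ^ a) (e (σ • x : f.rootSet f.SplittingField).1) = 0) :
    SignType f.Gal r := by
  classical
  have hfi := hf.irreducible
  have hq := q_pos p a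
  have hweil' := weil_cast hf.weil
  have hdeg := hf.natDegree_eq
  have hroot : ∀ x : f.rootSet f.SplittingField, aeval (e x.1) f = 0 := by
    intro x
    rw [aeval_algHom_apply, (mem_rootSet.1 x.2).2, map_zero]
  have hns := exists_dev_ne_or ha (by omega) hf hnd e
  have hne : ∀ x, rinv hfi hq hweil' x ≠ x := rinv_ne_of_dev hfi hq hweil' p e hns
  obtain ⟨κ, U, hκ, hU⟩ := exists_int_dev p hfi.ne_zero (padic_root_ne_zero hfi hq hweil' p) hq.ne'
  set w : f.rootSet f.SplittingField → ℤ := fun x => U (e x.1) with hw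
  have hdev : ∀ x : f.rootSet f.SplittingField, dev p ((p : ℚ) ^ a) (e x.1) = κ * w x :=
    fun x => hU _ (hroot x)
  have hwanti : ∀ x, w (rinv hfi hq hweil' x) = - w x := by
    intro x
    have h1 := dev_rinv hfi hq hweil' p e x
    rw [hdev, hdev, ← mul_neg] at h1
    have h2 := mul_left_cancel₀ hκ.ne' h1
    exact_mod_cast h2
  have hw0 : ∃ x, w x ≠ 0 := by
    obtain ⟨α, hα, hd⟩ := hns
    obtain ⟨x, hx⟩ := exists_root_eq hfi e α hα
    refine ⟨x, fun h => hd ?_⟩
    rw [← hx, hdev, h]
    simp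
  have hrel' : ∀ σ : f.Gal, ∑ x, r x * w (σ • x) = 0 := by
    intro σ
    have h1 := hrel σ
    have h2 : ∀ x : f.rootSet f.SplittingField, (r x : ℝ) *
        dev p ((p : ℚ) ^ a) (e (σ • x : f.rootSet f.SplittingField).1) =
          κ * ((r x * w (σ • x) : ℤ) : ℝ) := by
      intro x
      rw [hdev]
      push_cast
      ring
    rw [Finset.sum_congr rfl (fun x _ => h2 x), ← Finset.mul_sum] at h1
    have h3 := (mul_eq_zero.1 h1).resolve_left hκ.ne'
    exact_mod_cast h3
  have hnw : ¬ SignType f.Gal w :=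
    not_signType_dev_or ha (by omega) hf hnd e κ w hdev
  rcases hpl with ⟨l, hl, n, α, hpl, hor⟩ | ⟨n, α, hpl, hn, hsp, hnum⟩
  · let e' : f.SplittingField →ₐ[ℚ] PadicAlgCl l := IsAlgClosed.lift
    obtain ⟨x₁, hx₁, hgood⟩ := goodPlace_of hfi hf.weil e' α hpl
    refine (signType_of_place hfi hq hweil' e' hne hdeg hgood ?_ r w hr hwanti hr0 hw0
      hrel').resolve_right hnw
    rcases hor with h | h | ⟨h, h', h''⟩
    · exact Or.inl h
    · exact Or.inr (Or.inl h)
    · refine Or.inr (Or.inr ⟨h, ?_, ?_⟩)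
      · unfold lmin
        rw [hx₁, h', hpl.degree]
      · rcases h'' with h'' | h''
        · exact Or.inl h''
        · right
          intro b hb
          rw [pmin_eq_realPoly, pmin_eq_realPoly, hx₁] at hb
          rw [pmin_eq_realPoly]
          exact h'' _ (by rw [aeval_algHom_apply, (mem_rootSet.1 b.2).2, map_zero]) hb
  · obtain ⟨x₁, hx₁, hgood⟩ := goodPlace_of hfi hf.weil e α hpl
    have hlm : (lmin e x₁).natDegree = n := by
      unfold lmin
      rw [hx₁, hsp, hpl.degree]
    by_cases hodd : Odd g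
    · exact (signType_of_place hfi hq hweil' e hne hdeg hgood (Or.inl hodd) r w hr hwanti hr0 hw0
        hrel').resolve_right hnw
    · refine (signType_of_place_last hfi hq hweil' e hne hdeg hgood
        (Nat.not_odd_iff_even.1 hodd) hn hlm r w hr hwanti hr0 hw0 ?_ ?_ hrel').resolve_right hnw
      · intro d hd x
        have h1 := dev_eq_of_lmin e ((p : ℚ) ^ a) (d • x) x (lmin_smul e d hd x)
        rw [hdev, hdev] at h1
        exact_mod_cast mul_left_cancel₀ hκ.ne' h1
      · intro b hb t ht ht1 ht2 hcon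
        rw [pmin_eq_realPoly, pmin_eq_realPoly, hx₁] at hb
        apply hnum (e b.1) (hroot b) hb t ht ht1 ht2
        have h1 : dev p ((p : ℚ) ^ a) (e b.1) = t * dev p ((p : ℚ) ^ a) (e x₁.1) := by
          rw [hdev, hdev, hcon]
          push_cast
          ring
        rw [dev_slope ha, dev_slope ha, hx₁] at h1
        have hL := log_pos_of (p := p) ha
        have h2 : Real.log ((p : ℝ) ^ a) * (2 * slope p a (e b.1) - 1) =
            Real.log ((p : ℝ) ^ a) * (t * (2 * slope p a α - 1)) := by linarith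
        exact mul_left_cancel₀ hL.ne' h2

/-- **No exotic classes if the variety is not of Weil type.** -/
theorem tate_of_not_weil.{u, v} (ha : 0 < a) (hg : 3 ≤ g) (hf : IsSimpleWeil p a g f)
    (hnd : IsNondegenerate f ∨ HasTwoSlopes p a f)
    (hpl : HasCoprimePlace (p ^ a) g f ∨ HasLargeSlopePlace p a g f)
    (hnw : ¬ TateDefs.IsWeilType p a f) :
    TateDefs.TateClassesDecomposable.{u, v} (p ^ a) f := by
  classical
  have hfi := hf.irreducible
  have hq := q_pos p a
  have hweil' := weil_cast hf.weil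
  let e : f.SplittingField →ₐ[ℚ] PadicAlgCl p := IsAlgClosed.lift
  have hns := exists_dev_ne_or ha (by omega) hf hnd e
  by_cases hno : ∀ c : f.rootSet f.SplittingField → ℤ,
      (∀ x, c (rinv hfi hq hweil' x) = - c x) →
      (∀ g : f.Gal, ∑ x : f.rootSet f.SplittingField, (c x : ℝ) *
        dev p ((p : ℚ) ^ a) (e (g • x : f.rootSet f.SplittingField).1) = 0) → ∀ x, c x = 0
  · intro Ω _ _ _ V _ _ F hF m s hs x hx hFx
    unfold TateDefs.ActsAs at hFx
    rw [Nat.cast_pow] at hFx
    have h3 := tate_of_norel hfi hf.weil e hns hno Ω V F hF m s hs x hx hFx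
    rw [← Nat.cast_pow] at h3
    exact h3
  · exfalso
    push Not at hno
    obtain ⟨r, hr, hrel, hr0⟩ := hno
    have hsign := norel_or_weil ha hg hf hnd hpl e r hr hr0 hrel
    obtain ⟨P, m, hm, hP, hsumt⟩ := quad_of_signType hfi hq hweil' p e r hr hr0 hsign
      (by simpa using hrel 1)
    exact hnw ⟨P, m, hm, hP, fun t ht => sum_slope_of_sum_dev ha _ (hsumt t ht)⟩

/-- **Generation in degrees two and `g`.** -/
theorem tate_generated.{u, v} (ha : 0 < a) (hg : 3 ≤ g) (hf : IsSimpleWeil p a g f)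
    (hnd : IsNondegenerate f ∨ HasTwoSlopes p a f)
    (hpl : HasCoprimePlace (p ^ a) g f ∨ HasLargeSlopePlace p a g f) :
    TateClassesGeneratedInDegree.{u, v} (p ^ a) g f := by
  classical
  have hfi := hf.irreducible
  have hq := q_pos p a
  have hweil' := weil_cast hf.weil
  let e : f.SplittingField →ₐ[ℚ] PadicAlgCl p := IsAlgClosed.lift
  have hns := exists_dev_ne_or ha (by omega) hf hnd e
  have hne : ∀ x, rinv hfi hq hweil' x ≠ x := rinv_ne_of_dev hfi hq hweil' p e hns
  intro Ω _ _ _ V _ _ F hF m s hs x hx hFx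
  unfold TateDefs.ActsAs at hFx
  rw [Nat.cast_pow] at hFx
  have h3 := generated_of_sign hfi hf.weil hf.isIntegral hf.natDegree_eq e hne
    (fun c hc hc0 hrel => norel_or_weil ha hg hf hnd hpl e c hc hc0 hrel)
    Ω V F hF m s hs x hx hFx
  unfold genSet at h3
  unfold TateDefs.IsOfDegree TateDefs.ActsAs
  rw [Nat.cast_pow]
  exact h3

/-- A root of odd local degree with a large deviation excludes the Weil type. -/
theorem not_weil_of_large (ha : 0 < a) (hf : IsSimpleWeil p a g f)
    (α : PadicAlgCl p) (hα : aeval α f = 0) (hodd : Odd (minpoly ℚ_[p] α).natDegree)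
    (hlarge : (g : ℝ) - (minpoly ℚ_[p] α).natDegree <
      (minpoly ℚ_[p] α).natDegree * |2 * TateDefs.slope p a α - 1|) :
    ¬ TateDefs.IsWeilType p a f := by
  classical
  intro hw
  have hfi := hf.irreducible
  have hq := q_pos p a
  have hweil' := weil_cast hf.weil
  have hL := log_pos_of (p := p) ha
  let e : f.SplittingField →ₐ[ℚ] PadicAlgCl p := IsAlgClosed.lift
  have hroot : ∀ x : f.rootSet f.SplittingField, aeval (e x.1) f = 0 := by
    intro x
    rw [aeval_algHom_apply, (mem_rootSet.1 x.2).2, map_zero]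
  obtain ⟨x₁, hx₁⟩ := exists_root_eq hfi e α hα
  obtain ⟨c, hcv, hodd', hsign, hrel⟩ := exists_sign_of_weil hfi hf.weil ha e hw
  have hlm : lmin e x₁ = minpoly ℚ_[p] α := by unfold lmin; rw [hx₁]
  -- the local degree is at most `g`, so that the deviation is not zero
  have hdevs : ∀ x : f.rootSet f.SplittingField,
      dev p ((p : ℚ) ^ a) (e x.1) = -Real.log ((p : ℝ) ^ a) *
        (2 * TateDefs.slope p a (e x.1) - 1) := fun x => dev_slope ha _
  have hbound : ∀ x : f.rootSet f.SplittingField,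
      |dev p ((p : ℚ) ^ a) (e x.1)| ≤ Real.log ((p : ℝ) ^ a) := by
    have hp1 : (1 : ℝ) < (p : ℝ) ^ a :=
      one_lt_pow₀ (by exact_mod_cast (Fact.out : p.Prime).one_lt) ha.ne'
    have hge : ∀ y : f.rootSet f.SplittingField, 0 ≤ TateDefs.slope p a (e y.1) := by
      intro y
      have h1 := isIntegral_root hfi hf.isIntegral y.1 (mem_rootSet.1 y.2).2
      have h2 := Pool.Agent.H485R3.norm_le_one_of_isIntegral p (e y.1)
        (h1.map ((e : f.SplittingField →+* PadicAlgCl p).toIntAlgHom))
      unfold TateDefs.slope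
      have h3 : Real.logb ((p : ℝ) ^ a) ‖e y.1‖ ≤ 0 :=
        Real.logb_nonpos hp1 (norm_nonneg _) h2
      linarith
    intro x
    have h2 := hge x
    have h3 := hge (rinv hfi hq hweil' x)
    have h4 := dev_rinv hfi hq hweil' p e x
    rw [hdevs, hdevs] at h4
    have h5 : TateDefs.slope p a (e (rinv hfi hq hweil' x).1) =
        1 - TateDefs.slope p a (e x.1) := by
      have h6 : Real.log ((p : ℝ) ^ a) * (2 * TateDefs.slope p a
          (e (rinv hfi hq hweil' x).1) - 1) =
          Real.log ((p : ℝ) ^ a) * (1 - 2 * TateDefs.slope p a (e x.1)) := by linarith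
      have h7 := mul_left_cancel₀ hL.ne' h6
      linarith
    rw [h5] at h3
    rw [hdevs, abs_mul, abs_neg, abs_of_pos hL]
    have h6 : |2 * TateDefs.slope p a (e x.1) - 1| ≤ 1 := by
      rw [abs_le]; constructor <;> linarith
    calc Real.log ((p : ℝ) ^ a) * |2 * TateDefs.slope p a (e x.1) - 1| ≤
          Real.log ((p : ℝ) ^ a) * 1 := mul_le_mul_of_nonneg_left h6 hL.le
      _ = Real.log ((p : ℝ) ^ a) := mul_one _
  have hc0 : ∃ x, c x ≠ 0 := ⟨x₁, by rcases hcv x₁ with h | h <;> rw [h] <;> norm_num⟩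
  have hd₁ : dev p ((p : ℚ) ^ a) (e x₁.1) ≠ 0 := by
    intro h0
    -- otherwise the local degree is larger than `g`, hence `2 g`, which is even
    rw [hdevs, hx₁] at h0
    have h1 : 2 * TateDefs.slope p a α - 1 = 0 :=
      (mul_eq_zero.1 h0).resolve_left (neg_ne_zero.2 hL.ne')
    rw [h1, abs_zero, mul_zero] at hlarge
    have h2 : g < (minpoly ℚ_[p] α).natDegree := by
      have : (g : ℝ) < (minpoly ℚ_[p] α).natDegree := by linarith
      exact_mod_cast this
    -- then the local orbit meets its image under the involution, and is stable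
    have hcard := card_lorb e hfi x₁
    rw [hlm] at hcard
    have hst : ∀ z ∈ lorb e x₁, rinv hfi hq hweil' z ∈ lorb e x₁ := by
      have hex : ∃ z ∈ lorb e x₁, rinv hfi hq hweil' z ∈ lorb e x₁ := by
        by_contra hcon
        push Not at hcon
        have hd : Disjoint (lorb e x₁) ((lorb e x₁).image (rinv hfi hq hweil')) := by
          rw [Finset.disjoint_left]
          intro y hy hy'
          obtain ⟨z, hz, rfl⟩ := Finset.mem_image.1 hy'
          exact hcon z hz hy
        have h3 := Finset.card_le_univ (lorb e x₁ ∪ (lorb e x₁).image (rinv hfi hq hweil'))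
        rw [Finset.card_union_of_disjoint hd, Finset.card_image_of_injective _ (fun u v h => by
          have := congrArg (rinv hfi hq hweil') h
          rwa [rinv_rinv, rinv_rinv] at this), card_roots hfi, hf.natDegree_eq, hcard] at h3
        omega
      obtain ⟨z₀, hz₀, hz₀'⟩ := hex
      intro z hz
      obtain ⟨σ, hσ, rfl⟩ := lorb_trans e x₁ z₀ z hz₀ hz
      rw [← smul_rinv]
      exact lorb_stable e x₁ _ σ hσ hz₀'
    have hev := sum_odd_zero_card (lorb e x₁) (rinv hfi hq hweil')
      (rinv_rinv hfi hq hweil') hst c hcv hodd'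
    rw [hcard] at hev
    exact (Nat.not_even_iff_odd.2 hodd) hev
  have h1 := large_balance hfi hq hweil' g hf.natDegree_eq e x₁ hd₁ (by rw [hlm]; exact hodd)
    (Real.log ((p : ℝ) ^ a)) hbound c hodd' hc0 hsign (by simpa using hrel 1)
  rw [hlm, hdevs, hx₁, abs_mul, abs_neg, abs_of_pos hL] at h1
  have h2 : Real.log ((p : ℝ) ^ a) * ((minpoly ℚ_[p] α).natDegree *
      |2 * TateDefs.slope p a α - 1|) ≤
      Real.log ((p : ℝ) ^ a) * (g - (minpoly ℚ_[p] α).natDegree) := by linarith
  have h3 := le_of_mul_le_mul_left h2 hL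
  linarith

end

end Pool.Agent.H855
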